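import Mathlib

set_option autoImplicit false

open Polynomial

namespace Pool.Agent.ZPA

theorem a1_coeff {E : Type} [Field E] (A : Polynomial E) (n : ℕ) :
    (X * derivative A).coeff n = (n : E) * A.coeff n := by
  cases n with
  | zero => rw [coeff_X_mul_zero, Nat.cast_zero, zero_mul]
  | succ n =>
    rw [coeff_X_mul, coeff_derivative]
    push_cast
    ring

theorem a1_deg {E : Type} [Field E] (A : Polynomial E) :
    (X * derivative A).natDegree ≤ A.natDegree := by
  rw [natDegree_le_iff_coeff_eq_zero]
  intro N hN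
  rw [a1_coeff, coeff_eq_zero_of_natDegree_lt hN, mul_zero]

/-- the numerator of the logarithmic derivative -/
noncomputable def a1_N {E : Type} [Field E] (P Q : Polynomial E) : Polynomial E :=
  X * derivative P * Q - P * (X * derivative Q)

theorem a1_N_deg {E : Type} [Field E] (P Q : Polynomial E) :
    (a1_N P Q).natDegree ≤ P.natDegree + Q.natDegree := by
  unfold a1_N
  refine (natDegree_sub_le _ _).trans (max_le ?_ ?_)
  · exact natDegree_mul_le.trans (Nat.add_le_add_right (a1_deg P) _)
  · exact natDegree_mul_le.trans (Nat.add_le_add_left (a1_deg Q) _)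

theorem a1_N_coeff {E : Type} [Field E] (P Q : Polynomial E) :
    (a1_N P Q).coeff (P.natDegree + Q.natDegree) =
      ((P.natDegree : E) - Q.natDegree) * (P.leadingCoeff * Q.leadingCoeff) := by
  unfold a1_N
  rw [coeff_sub, coeff_mul_add_eq_of_natDegree_le (a1_deg P) le_rfl,
    coeff_mul_add_eq_of_natDegree_le le_rfl (a1_deg Q), a1_coeff, a1_coeff, leadingCoeff, leadingCoeff]
  ring

theorem a1_delta {E K : Type} [Field E] [Field K] [Algebra E K]
    (t : K) (ht : Transcendental E t) (δ : Derivation E K K) (hδ : δ t = t) (P Q : Polynomial E)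
    (hP : P ≠ 0) (hQ : Q ≠ 0) :
    (δ (aeval t P / aeval t Q) / (aeval t P / aeval t Q)) * aeval t (P * Q) = aeval t (a1_N P Q) := by
  have hp : aeval t P ≠ 0 := fun h => hP (transcendental_iff.1 ht P h)
  have hq : aeval t Q ≠ 0 := fun h => hQ (transcendental_iff.1 ht Q h)
  have hd : ∀ A : Polynomial E, δ (aeval t A) = aeval t (X * derivative A) := by
    intro A
    rw [Derivation.map_aeval, hδ, smul_eq_mul, map_mul, aeval_X, mul_comm]
  rw [Derivation.leibniz_div, hd, hd]
  unfold a1_N
  simp only [smul_eq_mul, map_mul, map_sub]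
  field_simp

/-- Row A1. The degree identity.

Proof. Write `p i = aeval t (P i)`, `q i = aeval t (Q i)`; both are nonzero because `t` is
transcendental over `E`. For a polynomial `A` one has `δ (aeval t A) = aeval t A.derivative * δ t
= aeval t (X * A.derivative)` (a derivation over `E`: use `Derivation.leibniz_pow`, or
`Derivation.map_aeval` or the like, or polynomial induction). Hence
`δ (p/q) / (p/q) = (δ p * q - p * δ q) / (p * q)` is `aeval t (N i) / aeval t (P i * Q i)` with
`N i = X * (P i).derivative * Q i - P i * (X * (Q i).derivative)`.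
Multiply the hypothesis by the product over all `j` of `aeval t (P j * Q j)`: with
`T i = ∏ j ∈ univ.erase i, P j * Q j` we get `aeval t (∑ i, C (e i) * N i * T i) = 0`, so
`∑ i, C (e i) * N i * T i = 0` as `t` is transcendental. Let `d j = natDegree (P j) + natDegree
(Q j)` and let `S = ∑ j, d j`. The coefficient of `N i * T i` at `S` is
`((natDegree (P i) : E) - natDegree (Q i)) * ∏ j, lc (P j) * lc (Q j)`: the coefficient of `N i` at
`d i` is `(natDegree (P i) - natDegree (Q i)) * lc (P i) * lc (Q i)`, since `X * A.derivative` has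
degree `≤ natDegree A` and coefficient `natDegree A * lc A` there
(`Polynomial.coeff_mul_add_eq_of_natDegree_le`, `natDegree_prod_le`, ...). Dividing by the nonzero
product of the leading coefficients: `∑ i, e i * ((natDegree (P i) : ℤ) - natDegree (Q i)) = 0`
in `E`, and `he` (linear independence over `ℚ`, coefficients integers, char zero) gives that all
`natDegree (P i) = natDegree (Q i)`. -/
theorem deg_identity {E K ι : Type} [Field E] [CharZero E] [Field K] [Algebra E K] [Fintype ι]
    (t : K) (ht : Transcendental E t) (δ : Derivation E K K) (hδ : δ t = t)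
    (e : ι → E) (he : LinearIndependent ℚ e) (P Q : ι → Polynomial E)
    (hP : ∀ i, P i ≠ 0) (hQ : ∀ i, Q i ≠ 0)
    (h : ∑ i, algebraMap E K (e i) *
      (δ (Polynomial.aeval t (P i) / Polynomial.aeval t (Q i)) /
        (Polynomial.aeval t (P i) / Polynomial.aeval t (Q i))) = 0) :
    ∀ i, (P i).natDegree = (Q i).natDegree := by
  classical
  have hA : ∀ i, P i * Q i ≠ 0 := fun i => mul_ne_zero (hP i) (hQ i)
  have hT : ∀ i, ∏ j ∈ Finset.univ.erase i, (P j * Q j) ≠ 0 := fun i =>
    Finset.prod_ne_zero_iff.2 (fun j _ => hA j)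
  have hTT : ∀ i, (P i * Q i) * ∏ j ∈ Finset.univ.erase i, (P j * Q j) = ∏ j, (P j * Q j) := fun i =>
    Finset.mul_prod_erase Finset.univ (fun j => P j * Q j) (Finset.mem_univ i)
  have hT0 : ∏ j, (P j * Q j) ≠ 0 := Finset.prod_ne_zero_iff.2 (fun j _ => hA j)
  have h1 : aeval t (∑ i, C (e i) * (a1_N (P i) (Q i) * ∏ j ∈ Finset.univ.erase i, (P j * Q j))) = 0 := by
    have h2 : ∀ i, aeval t (C (e i) * (a1_N (P i) (Q i) * ∏ j ∈ Finset.univ.erase i, (P j * Q j))) =
        (algebraMap E K (e i) * (δ (aeval t (P i) / aeval t (Q i)) / (aeval t (P i) / aeval t (Q i)))) *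
          aeval t (∏ j, (P j * Q j)) := by
      intro i
      rw [← hTT i, map_mul, map_mul, ← a1_delta t ht δ hδ (P i) (Q i) (hP i) (hQ i), aeval_C,
        map_mul (aeval t) (P i * Q i)]
      ring
    rw [map_sum, Finset.sum_congr rfl (fun i _ => h2 i), ← Finset.sum_mul, h, zero_mul]
  have h3 := transcendental_iff.1 ht _ h1
  have h4 : ∀ i, (C (e i) * (a1_N (P i) (Q i) * ∏ j ∈ Finset.univ.erase i, (P j * Q j))).coeff
      (∏ j, (P j * Q j)).natDegree =
      (e i * ((P i).natDegree - (Q i).natDegree)) * (∏ j, (P j * Q j)).leadingCoeff := by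
    intro i
    rw [coeff_C_mul]
    have e1 : (∏ j, (P j * Q j)).natDegree = ((P i).natDegree + (Q i).natDegree) +
        (∏ j ∈ Finset.univ.erase i, (P j * Q j)).natDegree := by
      rw [← hTT i, natDegree_mul (hA i) (hT i), natDegree_mul (hP i) (hQ i)]
    have e2 : (∏ j, (P j * Q j)).leadingCoeff = ((P i).leadingCoeff * (Q i).leadingCoeff) *
        (∏ j ∈ Finset.univ.erase i, (P j * Q j)).leadingCoeff := by
      rw [← hTT i, leadingCoeff_mul, leadingCoeff_mul]
    rw [e1, coeff_mul_add_eq_of_natDegree_le (a1_N_deg _ _) le_rfl, a1_N_coeff, e2]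
    have e3 : (∏ j ∈ Finset.univ.erase i, (P j * Q j)).leadingCoeff =
        (∏ j ∈ Finset.univ.erase i, (P j * Q j)).coeff
          (∏ j ∈ Finset.univ.erase i, (P j * Q j)).natDegree := rfl
    rw [e3]
    ring
  have h5 : (∑ i, e i * (((P i).natDegree : E) - (Q i).natDegree)) * (∏ j, (P j * Q j)).leadingCoeff = 0 := by
    rw [Finset.sum_mul, ← Finset.sum_congr rfl (fun i _ => h4 i), ← finsetSum_coeff, h3, coeff_zero]
  have h6 : ∑ i, e i * (((P i).natDegree : E) - (Q i).natDegree) = 0 :=
    (mul_eq_zero.1 h5).resolve_right (leadingCoeff_ne_zero.2 hT0)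
  rw [Fintype.linearIndependent_iff] at he
  have h7 := he (fun i => ((P i).natDegree : ℚ) - (Q i).natDegree) (by
    rw [← h6]
    refine Finset.sum_congr rfl (fun i _ => ?_)
    rw [Algebra.smul_def, map_sub, map_natCast, map_natCast, mul_comm])
  intro i
  have h8 := h7 i
  have h9 : ((P i).natDegree : ℚ) = (Q i).natDegree := by linarith
  exact_mod_cast h9

end Pool.Agent.ZPA
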