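import Mathlib

set_option autoImplicit false

namespace Pool.Agent.ZPA

open scoped Differential

/-- extension of derivations to formally etale algebras (as `ext_of_etale` in `MP_4aec10_nt`) -/
theorem a2a_ext (R S T : Type) [CommRing R] [CommRing S] [CommRing T] [Algebra R S]
    [Algebra R T] [Algebra S T] [IsScalarTower R S T] [Algebra.FormallyEtale S T]
    (D0 : Derivation R S T) : ∃ D : Derivation R T T, ∀ s : S, D (algebraMap S T s) = D0 s := by
  let φ : Ω[T⁄R] →ₗ[T] T := (D0.liftKaehlerDifferential.liftBaseChange T) ∘ₗ
      (KaehlerDifferential.tensorKaehlerEquivOfFormallyEtale R S T).symm.toLinearMap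
  refine ⟨φ.compDer (KaehlerDifferential.D R T), fun s => ?_⟩
  have h := KaehlerDifferential.tensorKaehlerEquivOfFormallyEtale_symm_D_algebraMap R S T s
  have h2 : (φ.compDer (KaehlerDifferential.D R T)) (algebraMap S T s) =
      (D0.liftKaehlerDifferential.liftBaseChange T)
        ((KaehlerDifferential.tensorKaehlerEquivOfFormallyEtale R S T).symm
          (KaehlerDifferential.D R T (algebraMap S T s))) := rfl
  rw [h2, h]
  simp

/-- a derivation of `K` extends to the algebraic closure -/
theorem a2a_extAC {K : Type} [Field K] [CharZero K] (δK : Derivation ℤ K K) :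
    ∃ D : Derivation ℤ (AlgebraicClosure K) (AlgebraicClosure K),
      ∀ a : K, D (algebraMap K (AlgebraicClosure K) a) =
        algebraMap K (AlgebraicClosure K) (δK a) := by
  have : Algebra.IsSeparable K (AlgebraicClosure K) := inferInstance
  have : Algebra.FormallyEtale K (AlgebraicClosure K) :=
    Algebra.FormallyEtale.of_isSeparable K (AlgebraicClosure K)
  obtain ⟨D, hD⟩ := a2a_ext ℤ K (AlgebraicClosure K)
    (((Algebra.linearMap K (AlgebraicClosure K)).compDer (δK : Derivation ℤ K K)))
  exact ⟨D, fun a => hD a⟩

/-- Row A2a. The trace of a logarithmic derivative is the logarithmic derivative of the norm.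

Proof. Let `M` be an algebraic closure of `L` (or of `K`). By `Algebra.norm_eq_prod_embeddings` and
`trace_eq_sum_embeddings` (char zero: separable), with `σ` running over `L →ₐ[K] M`,
`algebraMap K M (norm y) = ∏ σ, σ y` and `algebraMap K M (trace w) = ∑ σ, σ w`.
There is a derivation `δM` of `M` extending `δK` (existence of extensions of derivations to an
algebraic separable, hence formally etale, extension: see the theorem `ext_of_etale` in
`Pool.Agent.MP_4aec10_nt.Der`, `Algebra.FormallyEtale.of_isSeparable`), and
`σ (δ y) = δM (σ y)` for every `σ` by uniqueness (`Differential.algHom_deriv'` in Mathlib, file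
`FieldTheory/Differential/Basic` and `RingTheory/Derivation/MapCoeffs`; give `K`, `L`, `M` the
`Differential` structures `⟨δK⟩`, `⟨δ⟩`, `⟨δM⟩` by `letI`). So
`∑ σ, σ (δ y / y) = ∑ σ, δM (σ y) / σ y = δM (∏ σ, σ y) / ∏ σ, σ y`
(`Differential.logDeriv_prod`), which is the image of `δK (norm y) / norm y`; the map `K → M` is
injective.
Other proof without `M`: choose a basis, `norm y = det A` for the matrix `A` of multiplication by
`y`, and compute `δK (det A)` (derivative of a determinant = trace of adjugate times derivative);
the matrix of multiplication by `δ y` is `δ A + [N, A]` with `N` the matrix of `δ` on the basis. -/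
theorem trace_logder {K L : Type} [Field K] [Field L] [CharZero K] [Algebra K L]
    [FiniteDimensional K L] (δK : Derivation ℤ K K) (δ : Derivation ℤ L L)
    (hδ : ∀ a : K, δ (algebraMap K L a) = algebraMap K L (δK a)) (y : L) (hy : y ≠ 0) :
    Algebra.trace K L (δ y / y) = δK (Algebra.norm K y) / Algebra.norm K y := by
  obtain ⟨D, hD⟩ := a2a_extAC δK
  let iK : Differential K := ⟨δK⟩
  let iL : Differential L := ⟨δ⟩
  let iM : Differential (AlgebraicClosure K) := ⟨D⟩
  have : DifferentialAlgebra K L := ⟨hδ⟩
  have : DifferentialAlgebra K (AlgebraicClosure K) := ⟨hD⟩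
  have : CharZero L := charZero_of_injective_algebraMap (algebraMap K L).injective
  have : Algebra.IsSeparable K L := inferInstance
  apply (algebraMap K (AlgebraicClosure K)).injective
  have h1 : algebraMap K (AlgebraicClosure K) (Algebra.trace K L (δ y / y)) =
      ∑ σ : L →ₐ[K] AlgebraicClosure K, Differential.logDeriv (σ y) := by
    rw [trace_eq_sum_embeddings (AlgebraicClosure K)]
    apply Finset.sum_congr rfl
    intro σ _
    rw [map_div₀]
    have h := Differential.algHom_deriv' (A := K) σ σ.toRingHom.injective y
    have h' : σ (δ y) = D (σ y) := h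
    rw [h']
    rfl
  have h2 : algebraMap K (AlgebraicClosure K) (δK (Algebra.norm K y) / Algebra.norm K y) =
      Differential.logDeriv (∏ σ : L →ₐ[K] AlgebraicClosure K, σ y) := by
    rw [← Algebra.norm_eq_prod_embeddings K (AlgebraicClosure K) y, Differential.logDeriv_algebraMap]
    rfl
  rw [h1, h2, Differential.logDeriv_prod]
  intro σ _
  exact (map_ne_zero σ).2 hy

end Pool.Agent.ZPA
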