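import Mathlib
import Pool.Agent.ZPA.A2a

set_option autoImplicit false

namespace Pool.Agent.ZPA

/-- Row A2b. Descending a relation between logarithmic derivatives from an algebraic extension.

Proof. Let `B = IntermediateField.adjoin K (Set.range y)`, an intermediate field of `F / K`, finite
dimensional over `K` (finitely many algebraic generators, `IntermediateField.finiteDimensional_adjoin`),
and `n = Module.finrank K B > 0`. The derivation `δ` maps `B` into `B` and restricts to a derivation
`δB` of `B`: Mathlib has the instances `Differential B` and `DifferentialAlgebra B F` for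
finite dimensional intermediate fields at the end of `FieldTheory/Differential/Basic`
(give `K` and `F` the `Differential` structures `⟨δK⟩`, `⟨δ⟩` and `DifferentialAlgebra K F` by
`letI`; the field `K` needs `CharZero`). Let `R i = Algebra.norm K (⟨y i, _⟩ : B)`, nonzero
(`Algebra.norm_ne_zero_iff`), and `R i = u ^ n` if `y i = algebraMap K F u` (`Algebra.norm_algebraMap`).
The hypothesis `h` is the image in `F` of `∑ i, (e i) * (δB (y i) / (y i)) = 0` in `B`; apply
`Algebra.trace K B`, which is `K`-linear, and `trace_logder` (Row A2a). -/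
theorem descend_logder {K F ι : Type} [Field K] [Field F] [CharZero K] [Algebra K F]
    [Algebra.IsAlgebraic K F] [Fintype ι] (δK : Derivation ℤ K K) (δ : Derivation ℤ F F)
    (hδ : ∀ a : K, δ (algebraMap K F a) = algebraMap K F (δK a)) (e : ι → K) (y : ι → F)
    (hy : ∀ i, y i ≠ 0) (h : ∑ i, algebraMap K F (e i) * (δ (y i) / y i) = 0) :
    ∃ (n : ℕ) (R : ι → K), 0 < n ∧ (∀ i, R i ≠ 0) ∧
      (∀ i u, y i = algebraMap K F u → R i = u ^ n) ∧ ∑ i, e i * (δK (R i) / R i) = 0 := by
  let dK : Differential K := ⟨δK⟩
  let dF : Differential F := ⟨δ⟩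
  have hda : DifferentialAlgebra K F := ⟨hδ⟩
  obtain ⟨B, hB⟩ : ∃ B : IntermediateField K F, B = IntermediateField.adjoin K (Set.range y) := ⟨_, rfl⟩
  have hfin : FiniteDimensional K B := by
    rw [hB]
    have : Finite (Set.range y) := Set.finite_range y
    exact IntermediateField.finiteDimensional_adjoin (fun x _ => Algebra.IsIntegral.isIntegral x)
  have hmem : ∀ i, y i ∈ B := by
    intro i
    rw [hB]
    exact IntermediateField.subset_adjoin K _ ⟨i, rfl⟩
  obtain ⟨δB, hδB⟩ : ∃ δB : Derivation ℤ B B, δB = Differential.deriv := ⟨_, rfl⟩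
  have hKB : ∀ a : K, δB (algebraMap K B a) = algebraMap K B (δK a) := by
    intro a
    rw [hδB]
    exact deriv_algebraMap a
  have hBF : ∀ b : B, δ (algebraMap B F b) = algebraMap B F (δB b) := by
    intro b
    rw [hδB]
    exact deriv_algebraMap b
  have hy' : ∀ i, (⟨y i, hmem i⟩ : B) ≠ 0 := by
    intro i h0
    exact hy i (Subtype.ext_iff.1 h0)
  have h' : ∑ i, e i • (δB ⟨y i, hmem i⟩ / ⟨y i, hmem i⟩ : B) = 0 := by
    apply (algebraMap B F).injective
    rw [map_sum, map_zero, ← h]
    refine Finset.sum_congr rfl (fun i _ => ?_)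
    rw [Algebra.smul_def, map_mul, map_div₀, ← hBF, ← IsScalarTower.algebraMap_apply K B F]
    rfl
  refine ⟨Module.finrank K B, fun i => Algebra.norm K (⟨y i, hmem i⟩ : B), Module.finrank_pos, ?_, ?_, ?_⟩
  · intro i
    exact Algebra.norm_ne_zero_iff.2 (hy' i)
  · intro i u hu
    have h1 : (⟨y i, hmem i⟩ : B) = algebraMap K B u := Subtype.ext hu
    show Algebra.norm K (⟨y i, hmem i⟩ : B) = _
    rw [h1, Algebra.norm_algebraMap]
  · have h2 := congrArg (Algebra.trace K B) h'
    rw [map_sum, map_zero] at h2
    rw [← h2]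
    refine Finset.sum_congr rfl (fun i _ => ?_)
    rw [map_smul, trace_logder δK δB hKB _ (hy' i), smul_eq_mul]

end Pool.Agent.ZPA
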