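import Mathlib
import Pool.Agent.MP_4aec10_nt.Der
import Pool.Agent.ZPA.A1
import Pool.Agent.ZPA.A2b

set_option autoImplicit false

namespace Pool.Agent.ZPA

/-- the field of constants of a derivation -/
def a3a_const {C F : Type} [Field C] [Field F] [Algebra C F] (δ : Derivation C F F) :
    IntermediateField C F where
  carrier := {x | δ x = 0}
  mul_mem' := by
    intro a b ha hb
    have ha' : δ a = 0 := ha
    have hb' : δ b = 0 := hb
    show δ (a * b) = 0
    rw [Derivation.leibniz, ha', hb', smul_zero, smul_zero, add_zero]
  one_mem' := Derivation.map_one_eq_zero δ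
  add_mem' := by
    intro a b ha hb
    have ha' : δ a = 0 := ha
    have hb' : δ b = 0 := hb
    show δ (a + b) = 0
    rw [map_add, ha', hb', add_zero]
  zero_mem' := map_zero δ
  algebraMap_mem' := fun r => δ.map_algebraMap r
  inv_mem' := by
    intro a ha
    have ha' : δ a = 0 := ha
    show δ a⁻¹ = 0
    rw [Derivation.leibniz_inv, ha', smul_zero]

theorem a3a_mem {C F : Type} [Field C] [Field F] [Algebra C F] (δ : Derivation C F F) (x : F) :
    x ∈ a3a_const δ ↔ δ x = 0 := Iff.rfl

/-- a derivation is linear over its constants -/
def a3a_der {C F : Type} [Field C] [Field F] [Algebra C F] (δ : Derivation C F F) :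
    Derivation (a3a_const δ) F F :=
  Derivation.mk'
    { toFun := fun x => δ x
      map_add' := fun a b => map_add δ a b
      map_smul' := by
        intro r x
        have hr : r • x = (r : F) * x := rfl
        have hr0 : δ (r : F) = 0 := (a3a_mem δ r).1 r.2
        show δ (r • x) = r • δ x
        rw [hr, Derivation.leibniz, hr0, smul_zero, add_zero]
        rfl } (fun a b => δ.leibniz a b)

theorem a3a_indep {C E ι : Type} [Field C] [Field E] [Algebra C E] [CharZero C] [CharZero E]
    (e : ι → C) (he : LinearIndependent ℚ e) :
    LinearIndependent ℚ (fun i => algebraMap C E (e i)) :=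
  he.map' (RingHom.toRatAlgHom (algebraMap C E)).toLinearMap
    (LinearMap.ker_eq_bot.2 (algebraMap C E).injective)

open Polynomial in
/-- the main step, over the field of constants of the derivation -/
theorem a3a_main {E F ι : Type} [Field E] [CharZero E] [Field F] [Algebra E F] [Fintype ι]
    (D : Derivation E F F) (t : F) (hDt : D t = t) (htr : Transcendental E t)
    (hal : Algebra.IsAlgebraic (IntermediateField.adjoin E {t}) F)
    (e : ι → E) (he : LinearIndependent ℚ e) (y : ι → F) (hy : ∀ i, y i ≠ 0)
    (h : ∑ i, algebraMap E F (e i) * (D (y i) / y i) = 0) (i0 : ι) : y i0 ≠ t := by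
  classical
  intro hi0
  set K := IntermediateField.adjoin E {t} with hKdef
  have ht0 : t ≠ 0 := hi0 ▸ hy i0
  have hK : ∀ x ∈ K, D x ∈ K := by
    intro x hx
    induction hx using IntermediateField.adjoin_induction with
    | mem x hx =>
      rw [Set.mem_singleton_iff.1 hx, hDt]
      exact IntermediateField.mem_adjoin_simple_self E t
    | algebraMap x => rw [Derivation.map_algebraMap]; exact zero_mem _
    | add x y hx hy h1 h2 => rw [map_add]; exact add_mem h1 h2
    | inv x hx h1 =>
      rw [Derivation.leibniz_inv, smul_eq_mul]
      exact mul_mem (neg_mem (pow_mem (inv_mem hx) 2)) h1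
    | mul x y hx hy h1 h2 =>
      rw [Derivation.leibniz, smul_eq_mul, smul_eq_mul]
      exact add_mem (mul_mem hx h2) (mul_mem hy h1)
  let dK : Derivation ℤ K K :=
    Derivation.mk' (AddMonoidHom.toIntLinearMap
      { toFun := fun x => (⟨D (x : F), hK x x.2⟩ : K)
        map_zero' := Subtype.ext (map_zero D)
        map_add' := fun a b => Subtype.ext (map_add D (a : F) (b : F)) })
      (fun a b => Subtype.ext (D.leibniz (a : F) (b : F)))
  have hdK : ∀ a : K, ((dK a : K) : F) = D (a : F) := fun a => rfl
  have hcK : CharZero K := charZero_of_injective_algebraMap (algebraMap E K).injective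
  obtain ⟨n, R, hn, hR, hRu, hsum⟩ := descend_logder dK (D.restrictScalars ℤ)
    (fun a => (hdK a).symm) (fun i => algebraMap E K (e i)) y hy h
  have hRi0 : R i0 = (⟨t, IntermediateField.mem_adjoin_simple_self E t⟩ : K) ^ n :=
    hRu i0 ⟨t, IntermediateField.mem_adjoin_simple_self E t⟩ hi0
  have hex : ∀ i, ∃ p q : E[X], p ≠ 0 ∧ q ≠ 0 ∧ ((R i : K) : F) = aeval t p / aeval t q ∧
      (i = i0 → p = X ^ n ∧ q = 1) := by
    intro i
    by_cases hi : i = i0
    · subst hi
      refine ⟨X ^ n, 1, pow_ne_zero _ X_ne_zero, one_ne_zero, ?_, fun _ => ⟨rfl, rfl⟩⟩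
      rw [hRi0]
      simp
    · obtain ⟨p, q, hpq⟩ := (IntermediateField.mem_adjoin_simple_iff E _).1 (R i).2
      have hne : ((R i : K) : F) ≠ 0 := by
        intro h0
        exact hR i (Subtype.ext h0)
      rw [hpq] at hne
      refine ⟨p, q, ?_, ?_, hpq, fun h => absurd h hi⟩
      · rintro rfl
        simp at hne
      · rintro rfl
        simp at hne
  choose P Q hP hQ hPQ hP0 using hex
  have hs2 : ∑ i, algebraMap E F (e i) *
      (D (aeval t (P i) / aeval t (Q i)) / (aeval t (P i) / aeval t (Q i))) = 0 := by
    have h2 := congrArg (fun x : K => (x : F)) hsum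
    simp only [ZeroMemClass.coe_zero] at h2
    rw [← h2]
    push_cast
    apply Finset.sum_congr rfl
    intro i _
    rw [← hPQ i]
    rfl
  have h3 := deg_identity t htr D hDt e he P Q hP hQ hs2 i0
  rw [(hP0 i0 rfl).1, (hP0 i0 rfl).2, natDegree_X_pow, natDegree_one] at h3
  omega

/-- Row A3a. Ax's lemma: a relation between logarithmic derivatives with coefficients linearly
independent over `ℚ` is a relation between constants.

Proof. Suppose `t = y i0` is not in the image of `C`. By `hC` it is transcendental over `C`, so
`{t}` extends to a transcendence basis `B : Set F` of `F / C` (`exists_isTranscendenceBasis_superset`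
or similar). By `Pool.Agent.MP_4aec10_nt.exists_derivation` there is `D0 : Derivation C F F` with
`D0 t = 1` and `D0 b = 0` for `b ∈ B`, `b ≠ t`. Put `δ = t • D0`, so `δ t = t`.
Let `E0 = IntermediateField.adjoin C (B \ {t})` and let `E` be the algebraic closure of `E0` in `F`
(an intermediate field of `F / E0`; or simply take `E = E0`, this is enough below). Then `δ` kills
`E0` (it kills `C` and the generators: the elements killed by `δ` form a subfield), `t` is
transcendental over `E0` (algebraic independence of `B`: `AlgebraicIndependent.transcendental...`,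
`algebraicIndependent_insert` or `AlgebraicIndependent.option` style lemmas), and `F` is algebraic
over `K = IntermediateField.adjoin E0 {t}` (it is algebraic over `C(B)`,
`IsTranscendenceBasis.isAlgebraic_field`). `δ` maps `K` into `K`: it is a derivation over `E0` with
`δ t = t`, and elements of `K` are quotients `aeval t P / aeval t Q`
(`IntermediateField.mem_adjoin_simple_iff`); so it restricts to a derivation `δK` of `K`.
Apply `descend_logder` (Row A2b) with this `K`, the elements `e i` and `y i`: we get `n > 0` and
`R i ∈ K` nonzero with `∑ i, e i * (δK (R i) / R i) = 0` and `R i0 = t ^ n`. Write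
`R i = aeval t (P i) / aeval t (Q i)` with `P i, Q i ≠ 0` over `E0`; for `i0` choose `P i0 = X ^ n`
and `Q i0 = 1`. Row A1 (`deg_identity`, with `E = E0`, in the field `K` or `F`; the `e i` stay
independent over `ℚ` in `E0`: injectivity of `C → E0`) gives `n = natDegree (X ^ n) = natDegree 1
= 0`, a contradiction. -/
theorem const_of_logder {C F ι : Type} [Field C] [Field F] [Algebra C F] [CharZero C] [Fintype ι]
    (hC : ∀ f : F, IsAlgebraic C f → ∃ c : C, algebraMap C F c = f)
    (e : ι → C) (he : LinearIndependent ℚ e) (y : ι → F) (hy : ∀ i, y i ≠ 0)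
    (h : ∀ δ : Derivation C F F, ∑ i, algebraMap C F (e i) * (δ (y i) / y i) = 0) :
    ∀ i, ∃ c : C, algebraMap C F c = y i := by
  classical
  intro i0
  by_contra hne
  have htr : Transcendental C (y i0) := fun halg => hne (hC _ halg)
  have hind : AlgebraicIndepOn C id ({y i0} : Set F) := by
    rw [AlgebraicIndepOn, algebraicIndependent_unique_type_iff]
    exact htr
  obtain ⟨B, hB1, hB⟩ := exists_isTranscendenceBasis_superset hind
  have ht : y i0 ∈ B := hB1 rfl
  obtain ⟨D0, hD0, hD1⟩ := Pool.Agent.MP_4aec10_nt.exists_derivation B hB ⟨y i0, ht⟩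
  have hD0' : D0 (y i0) = 1 := hD0
  set δ : Derivation C F F := y i0 • D0 with hδdef
  have hδt : δ (y i0) = y i0 := by
    rw [hδdef, Derivation.smul_apply, hD0', smul_eq_mul, mul_one]
  have hδb : ∀ b ∈ B, b ≠ y i0 → δ b = 0 := by
    intro b hb hbt
    have h1 : D0 b = 0 := hD1 ⟨b, hb⟩ (fun h => hbt (congrArg Subtype.val h))
    rw [hδdef, Derivation.smul_apply, h1, smul_zero]
  set E := a3a_const δ with hE
  set D : Derivation E F F := a3a_der δ with hD
  have hDt : D (y i0) = y i0 := hδt
  have hcE : CharZero E := charZero_of_injective_algebraMap (algebraMap C E).injective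
  -- `t` is transcendental over the constants
  have htrE : Transcendental E (y i0) := by
    intro (halg : IsAlgebraic E (y i0))
    have h0 : D (y i0) = 0 := by
      have hmin := minpoly.aeval E (y i0)
      have hsep : (minpoly E (y i0)).Separable :=
        (minpoly.irreducible halg.isIntegral).separable
      have h1 : D (Polynomial.aeval (y i0) (minpoly E (y i0))) =
          Polynomial.aeval (y i0) (Polynomial.derivative (minpoly E (y i0))) • D (y i0) :=
        Derivation.map_aeval _ _ _
      rw [hmin, map_zero] at h1
      have h2 := hsep.aeval_derivative_ne_zero hmin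
      rcases smul_eq_zero.1 h1.symm with h3 | h3
      · exact absurd h3 h2
      · exact h3
    rw [hDt] at h0
    exact hy i0 h0
  -- `F` is algebraic over `E(t)`
  have hal : Algebra.IsAlgebraic (IntermediateField.adjoin E {y i0}) F := by
    have h1 : Algebra.IsAlgebraic (IntermediateField.adjoin C (Set.range ((↑) : B → F))) F :=
      hB.isAlgebraic_field
    have hsub : ∀ x ∈ IntermediateField.adjoin C (Set.range ((↑) : B → F)),
        x ∈ IntermediateField.adjoin E {y i0} := by
      intro x hx
      induction hx using IntermediateField.adjoin_induction with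
      | mem x hx =>
        obtain ⟨b, rfl⟩ := hx
        by_cases hb : (b : F) = y i0
        · rw [hb]
          exact IntermediateField.mem_adjoin_simple_self E _
        · have : (b : F) ∈ E := (a3a_mem δ _).2 (hδb b b.2 hb)
          exact (IntermediateField.adjoin E {y i0}).algebraMap_mem ⟨b, this⟩
      | algebraMap x =>
        exact (IntermediateField.adjoin E {y i0}).algebraMap_mem (algebraMap C E x)
      | add x y hx hy h1 h2 => exact add_mem h1 h2
      | inv x hx h1 => exact inv_mem h1
      | mul x y hx hy h1 h2 => exact mul_mem h1 h2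
    let f : IntermediateField.adjoin C (Set.range ((↑) : B → F)) →+*
        IntermediateField.adjoin E {y i0} :=
      { toFun := fun x => ⟨x, hsub x x.2⟩
        map_one' := rfl
        map_mul' := fun _ _ => rfl
        map_zero' := rfl
        map_add' := fun _ _ => rfl }
    refine ⟨fun x => ?_⟩
    obtain ⟨p, hp0, hp⟩ := h1.isAlgebraic x
    refine ⟨p.map f, (Polynomial.map_ne_zero_iff f.injective).2 hp0, ?_⟩
    rw [Polynomial.aeval_def, Polynomial.eval₂_map]
    exact hp
  have h4 : ∑ i, algebraMap E F (algebraMap C E (e i)) * (D (y i) / y i) = 0 := h δ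
  exact a3a_main D (y i0) hDt htrE hal (fun i => algebraMap C E (e i)) (a3a_indep e he) y hy h4
    i0 rfl

end Pool.Agent.ZPA
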