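import Mathlib
import Pool.Agent.MP_dd1803_nt.R5
import Pool.Agent.MP_4aec10_nt.Der

set_option autoImplicit false

open MvPolynomial

namespace Pool.Agent.ZPA

open Pool.Agent.MP_dd1803_nt

section Field

variable {F : Type} [Field F] [CharZero F] {κ : Type} [Fintype κ]

/-- The characters which are constant on `X` with an algebraic value. -/
def Alat (X : Set (κ → Fˣ)) : Submodule ℤ (κ → ℤ) where
  carrier := {m | ∃ c : Fˣ, (c : F) ∈ acl (∅ : Set F) ∧ ∀ x ∈ X, ch m x = c}
  zero_mem' := ⟨1, by rw [Units.val_one]; exact one_mem _, fun x _ => ch_zero x⟩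
  add_mem' := by
    rintro m n ⟨c, hc, h⟩ ⟨d, hd, h'⟩
    refine ⟨c * d, by rw [Units.val_mul]; exact mul_mem hc hd, fun x hx => ?_⟩
    rw [ch_add, h x hx, h' x hx]
  smul_mem' := by
    rintro n m ⟨c, hc, h⟩
    refine ⟨c ^ n, by rw [Units.val_zpow_eq_zpow_val]; exact zpow_mem hc n, fun x hx => ?_⟩
    rw [ch_zsmul, h x hx]

theorem mem_Alat {X : Set (κ → Fˣ)} {m : κ → ℤ} :
    m ∈ Alat X ↔ ∃ c : Fˣ, (c : F) ∈ acl (∅ : Set F) ∧ ∀ x ∈ X, ch m x = c := Iff.rfl

/-- The rank of the lattice of characters constant on `X` with an algebraic value. -/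
noncomputable def ar (X : Set (κ → Fˣ)) : ℕ := Module.finrank ℤ (Alat X)

/-- The map between tori given by the characters with exponents `b k`. -/
def phi {r : ℕ} (b : Fin r → κ → ℤ) (x : κ → Fˣ) : Fin r → Fˣ := fun k => ch (b k) x

end Field

/-- The coordinate `j` satisfies modulo `I` a polynomial equation of degree at most `D` over the
coordinates in `Q`, with coefficients of degree at most `D` and not all zero modulo `I`. -/
def UA {k κ : Type} [Field k] (D : ℕ) (Q : Finset κ) (j : κ) (I : Ideal (MvPolynomial κ k)) : Prop :=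
  ∃ p : Fin (D + 1) → MvPolynomial Q k, (∀ e, (p e).totalDegree ≤ D) ∧
    (∑ e, rename (Subtype.val : Q → κ) (p e) * X j ^ (e : ℕ)) ∈ I ∧
    ∃ e, rename (Subtype.val : Q → κ) (p e) ∉ I

/-- For irreducible subsets over `k0` of codimension more than `s` and not contained in a proper
special subvariety, the points over `k0` of rank at most `s` are not dense. -/
def NDk (F : Type) [Field F] (k0 : Type) [Field k0] [Algebra k0 F] (s : ℕ) : Prop :=
  ∀ (κ : Type) [Fintype κ] (W : Set (κ → Fˣ)), Irr W → cl k0 W = W →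
    rk W = 0 → td F W + s < Fintype.card κ →
    ∃ q : MvPolynomial κ k0, q ∉ vI k0 W ∧
      ∀ w ∈ W, (∀ i, ∃ c : k0, algebraMap k0 F c = (w i : F)) →
        Fintype.card κ ≤ rk ({w} : Set (κ → Fˣ)) + s → aeval (co w) q = 0

end Pool.Agent.ZPA
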