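import Mathlib
import Pool.Agent.ZPA.Defs
import Pool.Agent.ZPA.A3a

set_option autoImplicit false

namespace Pool.Agent.ZPA

open Pool.Agent.MP_dd1803_nt

/-- a common denominator -/
theorem a3b_den {α : Type} [Fintype α] (q : α → ℚ) :
    ∃ N : ℕ, 0 < N ∧ ∀ a, ∃ z : ℤ, (N : ℚ) * q a = z := by
  classical
  refine ⟨∏ a, (q a).den, Finset.prod_pos fun a _ => (q a).den_pos, fun a => ?_⟩
  refine ⟨(q a).num * ((∏ c ∈ Finset.univ.erase a, (q c).den : ℕ) : ℤ), ?_⟩
  rw [← Finset.mul_prod_erase Finset.univ (fun a => (q a).den) (Finset.mem_univ a)]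
  have h := Rat.mul_den_eq_num (q a)
  push_cast
  rw [← h]
  ring

/-- the logarithmic derivative as a homomorphism -/
def a3b_lg {C F : Type} [Field C] [Field F] [Algebra C F] (δ : Derivation C F F) :
    Fˣ →* Multiplicative F where
  toFun u := Multiplicative.ofAdd (δ (u : F) / (u : F))
  map_one' := by
    show Multiplicative.ofAdd (δ ((1 : Fˣ) : F) / ((1 : Fˣ) : F)) = 1
    rw [Units.val_one, Derivation.map_one_eq_zero, zero_div]
    rfl
  map_mul' u v := by
    show Multiplicative.ofAdd (δ ((u * v : Fˣ) : F) / ((u * v : Fˣ) : F)) =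
      Multiplicative.ofAdd (δ (u : F) / (u : F) + δ (v : F) / (v : F))
    congr 1
    have hu : (u : F) ≠ 0 := u.ne_zero
    have hv : (v : F) ≠ 0 := v.ne_zero
    rw [Units.val_mul, Derivation.leibniz, smul_eq_mul, smul_eq_mul]
    field_simp
    ring

theorem a3b_ch {C F : Type} [Field C] [Field F] [Algebra C F] (δ : Derivation C F F)
    {κ : Type} [Fintype κ] (x : κ → Fˣ) (b : κ → ℤ) :
    δ ((ch b x : Fˣ) : F) / ((ch b x : Fˣ) : F) =
      ∑ j, (b j : F) * (δ (x j : F) / (x j : F)) := by
  have h : a3b_lg δ (ch b x) = ∏ j, a3b_lg δ (x j) ^ b j := by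
    show a3b_lg δ (∏ j, x j ^ b j) = _
    rw [map_prod]
    exact Finset.prod_congr rfl fun j _ => map_zpow _ _ _
  have h2 := congrArg Multiplicative.toAdd h
  rw [toAdd_prod] at h2
  have h3 : Multiplicative.toAdd (a3b_lg δ (ch b x)) =
      δ ((ch b x : Fˣ) : F) / ((ch b x : Fˣ) : F) := rfl
  rw [h3] at h2
  rw [h2]
  apply Finset.sum_congr rfl
  intro j _
  rw [toAdd_zpow]
  show b j • (δ (x j : F) / (x j : F)) = _
  rw [zsmul_eq_mul]

/-- Row A3b. (`ch b x = ∏ j, x j ^ b j`, from `Pool.Agent.MP_dd1803_nt.Lattice`.)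

Proof. Let `W` be the `ℚ`-span of the finitely many elements `μ j` of `C`, and let
`e : Fin p → C` be linearly independent over `ℚ` with span `W` (a basis of `W` composed with the
inclusion). Write `μ j = ∑ i, q j i • e i` with rational `q j i`, and let `N > 0` be a common
denominator, so `N * q j i = b i j` for integers `b i : κ → ℤ`. Put `y i = (ch (b i) x : F)`.
For every `δ : Derivation C F F` one has `δ (y i) / y i = ∑ j, (b i j) * (δ (x j) / x j)`
(logarithmic derivative of a product of integer powers: induction, or `Derivation.leibniz_zpow`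
style; it is a homomorphism from `Fˣ` to the additive group `F`), hence
`∑ i, e i * (δ (y i) / y i) = ∑ j, (∑ i, e i * b i j) * (δ (x j) / x j)
  = N * ∑ j, μ j * (δ (x j) / x j) = 0`.
By `const_of_logder` (Row A3a) every `y i` is in the image of `C`, so each vector
`fun j => (b i j : C)` is in the spanning set, and `μ = ∑ i, (N⁻¹ * e i) • (fun j => (b i j : C))`. -/
theorem lemmaR {C F : Type} [Field C] [Field F] [Algebra C F] [CharZero C]
    (hC : ∀ f : F, IsAlgebraic C f → ∃ c : C, algebraMap C F c = f)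
    {κ : Type} [Fintype κ] (x : κ → Fˣ) (μ : κ → C)
    (h : ∀ δ : Derivation C F F, ∑ j, algebraMap C F (μ j) * (δ (x j : F) / (x j : F)) = 0) :
    μ ∈ Submodule.span C {v : κ → C | ∃ b : κ → ℤ, (∃ c : C, algebraMap C F c = (ch b x : F)) ∧
      v = fun j => ((b j : ℤ) : C)} := by
  classical
  set W : Submodule ℚ C := Submodule.span ℚ (Set.range μ) with hW
  have hfin : FiniteDimensional ℚ W := FiniteDimensional.span_of_finite ℚ (Set.finite_range μ)
  let bs := Module.finBasis ℚ W
  set p := Module.finrank ℚ W with hp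
  let e : Fin p → C := fun i => (bs i : C)
  have he : LinearIndependent ℚ e := bs.linearIndependent.map' W.subtype W.ker_subtype
  have hμW : ∀ j, μ j ∈ W := fun j => Submodule.subset_span ⟨j, rfl⟩
  let q : Fin p × κ → ℚ := fun a => bs.repr ⟨μ a.2, hμW a.2⟩ a.1
  have hq : ∀ j, μ j = ∑ i, ((q (i, j) : ℚ) : C) * e i := by
    intro j
    have h1 := congrArg (fun w : W => (w : C)) (bs.sum_repr ⟨μ j, hμW j⟩)
    simp only [Submodule.coe_sum, Submodule.coe_smul] at h1
    rw [← h1]
    apply Finset.sum_congr rfl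
    intro i _
    rw [Rat.smul_def]
  obtain ⟨N, hN, hz⟩ := a3b_den q
  choose z hz using hz
  have hN' : (N : C) ≠ 0 := by exact_mod_cast hN.ne'
  have hzC : ∀ i j, (N : C) * ((q (i, j) : ℚ) : C) = ((z (i, j) : ℤ) : C) := by
    intro i j
    have := congrArg (fun r : ℚ => (r : C)) (hz (i, j))
    push_cast at this
    exact this
  have hcF : CharZero F := charZero_of_injective_algebraMap (algebraMap C F).injective
  have hy : ∀ δ : Derivation C F F, ∑ i, algebraMap C F (e i) *
      (δ ((ch (fun j => z (i, j)) x : Fˣ) : F) / ((ch (fun j => z (i, j)) x : Fˣ) : F)) = 0 := by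
    intro δ
    have h1 : ∀ i, algebraMap C F (e i) *
        (δ ((ch (fun j => z (i, j)) x : Fˣ) : F) / ((ch (fun j => z (i, j)) x : Fˣ) : F)) =
        ∑ j, algebraMap C F ((N : C) * (((q (i, j) : ℚ) : C) * e i)) *
          (δ (x j : F) / (x j : F)) := by
      intro i
      rw [a3b_ch, Finset.mul_sum]
      apply Finset.sum_congr rfl
      intro j _
      have h2 : ((z (i, j) : ℤ) : F) = algebraMap C F ((z (i, j) : ℤ) : C) := by
        rw [map_intCast]
      rw [h2, ← hzC i j, map_mul, map_mul, map_mul]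
      ring
    rw [Finset.sum_congr rfl fun i _ => h1 i, Finset.sum_comm]
    have h3 : ∀ j, ∑ i, algebraMap C F ((N : C) * (((q (i, j) : ℚ) : C) * e i)) *
          (δ (x j : F) / (x j : F)) =
        (N : F) * (algebraMap C F (μ j) * (δ (x j : F) / (x j : F))) := by
      intro j
      rw [← Finset.sum_mul, ← map_sum, ← Finset.mul_sum, ← hq j, map_mul, map_natCast, mul_assoc]
    rw [Finset.sum_congr rfl fun j _ => h3 j, ← Finset.mul_sum, h δ, mul_zero]
  have hc := const_of_logder hC e he (fun i => ((ch (fun j => z (i, j)) x : Fˣ) : F))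
    (fun i => Units.ne_zero _) hy
  have hμ : μ = ∑ i, ((N : C)⁻¹ * e i) • (fun j => ((z (i, j) : ℤ) : C)) := by
    funext j
    rw [Finset.sum_apply]
    simp only [Pi.smul_apply, smul_eq_mul]
    rw [hq j]
    apply Finset.sum_congr rfl
    intro i _
    rw [← hzC i j]
    field_simp
  rw [hμ]
  exact Submodule.sum_mem _ fun i _ => Submodule.smul_mem _ _
    (Submodule.subset_span ⟨fun j => z (i, j), hc i, rfl⟩)

end Pool.Agent.ZPA
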