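import Mathlib
import Pool.Agent.ZPA.Defs
import Pool.Agent.ZPA.A3b

set_option autoImplicit false

namespace Pool.Agent.ZPA

open Pool.Agent.MP_dd1803_nt

/-- A derivation of `F` which kills `C` as a derivation over `C`. -/
noncomputable def a4_over {F : Type} [Field F] (C : Subfield F) (D : Derivation ℤ F F)
    (h : ∀ f ∈ C, D f = 0) : Derivation C F F :=
  Derivation.mk'
    { toFun := D
      map_add' := fun a b => map_add D a b
      map_smul' := fun c f => by
        have hc : D (c : F) = 0 := h _ c.2
        rw [RingHom.id_apply, Subfield.smul_def, Subfield.smul_def, smul_eq_mul, smul_eq_mul,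
          D.leibniz, hc, smul_zero, add_zero, smul_eq_mul] }
    (fun a b => D.leibniz a b)

theorem a4_over_apply {F : Type} [Field F] (C : Subfield F) (D : Derivation ℤ F F)
    (h : ∀ f ∈ C, D f = 0) (f : F) : a4_over C D h f = D f := rfl

theorem a4_alg {F : Type} [Field F] [CharZero F] (C : Subfield F) {z : ℕ}
    (D : Fin z → Derivation ℤ F F) (hC : ∀ f, f ∈ C ↔ ∀ l, D l f = 0) (f : F)
    (hf : IsAlgebraic C f) : ∃ c : C, algebraMap C F c = f := by
  have hmem : f ∈ C := by
    rw [hC]
    intro l
    have h0 : ∀ g ∈ C, D l g = 0 := fun g hg => (hC g).1 hg l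
    have hint : IsIntegral C f := hf.isIntegral
    have h1 := (a4_over C (D l) h0).map_aeval (minpoly C f) f
    rw [minpoly.aeval, map_zero] at h1
    have h2 : (Polynomial.aeval f) (Polynomial.derivative (minpoly C f)) ≠ 0 :=
      (minpoly.irreducible hint).separable.aeval_derivative_ne_zero (minpoly.aeval C f)
    have h3 := (smul_eq_zero.1 h1.symm).resolve_left h2
    exact h3
  exact ⟨⟨f, hmem⟩, rfl⟩

theorem a4_rank {F : Type} [Field F] (C : Subfield F) {κ : Type} [Fintype κ]
    (Γ : Submodule ℤ (κ → ℤ)) :
    Module.finrank C (Submodule.span C {v : κ → C | ∃ b ∈ Γ, v = fun j => ((b j : ℤ) : C)}) ≤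
      Module.finrank ℤ Γ := by
  classical
  let B := Module.finBasis ℤ Γ
  let w : Fin (Module.finrank ℤ Γ) → (κ → C) := fun i j => (((B i : κ → ℤ) j : ℤ) : C)
  have hle : Submodule.span C {v : κ → C | ∃ b ∈ Γ, v = fun j => ((b j : ℤ) : C)} ≤
      Submodule.span C (Set.range w) := by
    rw [Submodule.span_le]
    rintro v ⟨b, hb, rfl⟩
    have h1 : (⟨b, hb⟩ : Γ) = ∑ i, B.repr ⟨b, hb⟩ i • B i := (B.sum_repr _).symm
    have h2 : b = ∑ i, B.repr ⟨b, hb⟩ i • (B i : κ → ℤ) := by
      have h6 := congrArg Γ.subtype h1
      rw [map_sum] at h6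
      exact h6
    have h3 : (fun j => ((b j : ℤ) : C)) = ∑ i, ((B.repr ⟨b, hb⟩ i : ℤ) : C) • w i := by
      funext j
      have h4 := congrFun h2 j
      rw [Finset.sum_apply] at h4
      rw [Finset.sum_apply, h4, Int.cast_sum]
      refine Finset.sum_congr rfl fun i _ => ?_
      simp [w]
    rw [SetLike.mem_coe, h3]
    exact Submodule.sum_mem _ fun i _ => Submodule.smul_mem _ _ (Submodule.subset_span ⟨i, rfl⟩)
  have h5 : Set.finrank C (Set.range w) ≤ Fintype.card (Fin (Module.finrank ℤ Γ)) :=
    finrank_range_le_card w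
  rw [Fintype.card_fin] at h5
  exact (Submodule.finrank_mono hle).trans h5

/-- Vectors of the span of `lam` which are independent modulo `S`. -/
theorem a4_choose {K V : Type} [Field K] [AddCommGroup V] [Module K V] [FiniteDimensional K V]
    {a : ℕ} (lam : Fin a → V) (hlam : LinearIndependent K lam) (S : Submodule K V) :
    ∃ (p : ℕ) (μ : Fin p → V), (∀ s, μ s ∈ Submodule.span K (Set.range lam)) ∧
      LinearIndependent K (fun s => S.mkQ (μ s)) ∧ a ≤ p + Module.finrank K S := by
  classical
  let L := Submodule.span K (Set.range lam)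
  have hL : Module.finrank K L = a := by
    have := finrank_span_eq_card hlam
    rwa [Fintype.card_fin] at this
  let M := L.map S.mkQ
  let B := Module.finBasis K M
  have hpre : ∀ s, ∃ v ∈ L, S.mkQ v = (B s : V ⧸ S) := fun s => by
    have := (B s).2
    rw [Submodule.mem_map] at this
    exact this
  choose μ hμ hμ' using hpre
  refine ⟨Module.finrank K M, μ, hμ, ?_, ?_⟩
  · have h1 : LinearIndependent K (fun s => ((B s : M) : V ⧸ S)) :=
      B.linearIndependent.map' M.subtype (Submodule.ker_subtype M)
    have h2 : (fun s => S.mkQ (μ s)) = fun s => ((B s : M) : V ⧸ S) := funext hμ'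
    rw [h2]
    exact h1
  · have h1 := LinearMap.finrank_range_add_finrank_ker (S.mkQ.domRestrict L)
    rw [hL] at h1
    have h2 : (S.mkQ.domRestrict L).range = M := by
      rw [LinearMap.range_domRestrict]
    have h3 : Module.finrank K (S.mkQ.domRestrict L).ker ≤ Module.finrank K S := by
      let g : (S.mkQ.domRestrict L).ker →ₗ[K] S :=
        { toFun := fun v => ⟨(v : L).1, by
            have := v.2
            rw [LinearMap.mem_ker, LinearMap.domRestrict_apply, Submodule.mkQ_apply,
              Submodule.Quotient.mk_eq_zero] at this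
            exact this⟩
          map_add' := fun _ _ => rfl
          map_smul' := fun _ _ => rfl }
      refine LinearMap.finrank_le_finrank_of_injective (f := g) ?_
      intro v w h
      apply Subtype.ext
      apply Subtype.ext
      exact congrArg (fun t : S => (t : V)) h
    rw [h2] at h1
    omega

/-- Row A4. The Ax inequality.

Proof. (i) `C` is algebraically closed in `F`: if `f : F` is algebraic over `C` with minimal
polynomial `p`, then applying `D l` to `p(f) = 0` gives `p'(f) * D l f = 0` and `p'(f) ≠ 0` (char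
zero), so `D l f = 0`. This is the hypothesis `hC` of `lemmaR` (Row A3b); `CharZero C` is clear.
(ii) Let `S ⊆ (κ → C)` be the span over `C` of the vectors `fun j => (b j : C)`, `b ∈ Γ`. It is
spanned by the images of a `ℤ`-basis of `Γ` so `finrank C S ≤ finrank ℤ Γ`. By `lemmaR` and `hΓ`:
if `μ : κ → C` satisfies `∑ j, μ j * (δ (x j) / x j) = 0` for all `δ : Derivation C F F` then
`μ ∈ S`.
(iii) Let `Λ` be the span of the `lam s` (dimension `a` over `C`). Choose `p ≥ a - finrank C S` and
`μ : Fin p → κ → C` in `Λ`, linearly independent modulo `S` (i.e. their images in `(κ → C) ⧸ S` are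
linearly independent; take a basis of the image of `Λ` in the quotient; rank-nullity gives
`a ≤ p + finrank C S`).
(iv) For `δ : Derivation C F F` let `v δ = fun j => δ (x j) / x j`, an `F`-linear map
`Derivation C F F → (κ → F)`, and let `V` be its range. Its dimension is at most `Q.card`: by `hQ`
the kernel of `v` contains the kernel of the `F`-linear map `δ ↦ (δ (x q))_{q ∈ Q}` into `Q → F`.
Each `D l` is a derivation over `C` (it kills `C` by `hC`; `Derivation.mk'` or a restatement), so
`v (D l) ∈ V` and these `z` vectors are linearly independent by `hv`.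
(v) Claim: the functionals `v ↦ ∑ j, (μ s j) * v j` on `V` are linearly independent over `F`.
Otherwise the subspace `Rel = {f : Fin p → F | ∀ δ, ∑ s, f s * ∑ j, μ s j * (v δ) j = 0}` is
nonzero. `Rel` is stable under `f ↦ (fun s => D l (f s))`: apply `D l` to the relation. With
`[D l, δ] = D l ∘ δ - δ ∘ D l`, again a derivation over `C` (Mathlib: the Lie bracket of
derivations), `D l (δ (x j) / x j) = [D l, δ] (x j) / x j + δ (D l (x j) / x j)`, and
`∑ s, f s * ∑ j, μ s j * δ (D l (x j) / x j) = ∑ s, f s * δ (∑ j, μ s j * (D l (x j) / x j)) = 0`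
because `μ s ∈ Λ` and `hrel`; `∑ s, f s * ∑ j, μ s j * v [D l, δ] j = 0` as `f ∈ Rel`. So
`∑ s, D l (f s) * ∑ j, μ s j * (v δ) j = 0`. Take a nonzero `f ∈ Rel` with the least number of
nonzero coordinates and normalise one coordinate to be `1`: then `fun s => D l (f s)` is in `Rel` with
fewer nonzero coordinates, hence zero, for every `l`; so all `f s ∈ C`. Then `∑ s, f s • μ s` is a
vector of `κ → C` which satisfies (ii), hence is in `S`: contradiction with the independence of
the `μ s` modulo `S` as `f ≠ 0`.
(vi) The map `V → (Fin p → F)`, `v ↦ (∑ j, μ s j * v j)_s` is surjective by (v) (its range is not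
in the kernel of a nonzero functional), its kernel contains the `z` independent vectors `v (D l)`
(`hrel`), so `z + p ≤ dim V ≤ Q.card` and `a + z ≤ p + finrank C S + z ≤ Q.card + finrank ℤ Γ`. -/
theorem ax {F : Type} [Field F] [CharZero F] {κ : Type} [Fintype κ] {z a : ℕ}
    (D : Fin z → Derivation ℤ F F) (x : κ → Fˣ) (C : Subfield F)
    (hC : ∀ f, f ∈ C ↔ ∀ l, D l f = 0) (Γ : Submodule ℤ (κ → ℤ))
    (hΓ : ∀ b, b ∈ Γ ↔ (ch b x : F) ∈ C)
    (hv : LinearIndependent F (fun l : Fin z => fun j : κ => D l (x j : F) / (x j : F)))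
    (lam : Fin a → κ → C) (hlam : LinearIndependent C lam)
    (hrel : ∀ s l, ∑ j, (lam s j : F) * (D l (x j : F) / (x j : F)) = 0) (Q : Finset κ)
    (hQ : ∀ δ : Derivation C F F, (∀ q ∈ Q, δ (x q : F) = 0) → ∀ j, δ (x j : F) = 0) :
    a + z ≤ Q.card + Module.finrank ℤ Γ := by
  classical
  have h0 : ∀ l, ∀ f ∈ C, D l f = 0 := fun l f hf => (hC f).1 hf l
  let E : Fin z → Derivation C F F := fun l => a4_over C (D l) (h0 l)
  have hE : ∀ l f, E l f = D l f := fun l f => rfl
  have hEC : ∀ f, (∀ l, E l f = 0) → f ∈ C := fun f h => (hC f).2 fun l => h l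
  let S : Submodule C (κ → C) :=
    Submodule.span C {v : κ → C | ∃ b ∈ Γ, v = fun j => ((b j : ℤ) : C)}
  have hS : Module.finrank C S ≤ Module.finrank ℤ Γ := a4_rank C Γ
  have hlem : ∀ μ : κ → C,
      (∀ δ : Derivation C F F, ∑ j, (μ j : F) * (δ (x j : F) / (x j : F)) = 0) → μ ∈ S := by
    intro μ h
    have h1 := lemmaR (C := C) (F := F) (fun f hf => a4_alg C D hC f hf) x μ h
    refine Submodule.span_mono ?_ h1
    rintro v ⟨b, ⟨c, hc⟩, hv'⟩
    refine ⟨b, (hΓ b).2 ?_, hv'⟩
    rw [← hc]
    exact c.2
  obtain ⟨p, μ, hμ, hμi, hap⟩ := a4_choose lam hlam S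
  have hx : ∀ j, (x j : F) ≠ 0 := fun j => (x j).ne_zero
  let v : Derivation C F F →ₗ[F] (κ → F) :=
    { toFun := fun δ j => δ (x j : F) / (x j : F)
      map_add' := fun δ δ' => by
        funext j
        simp only [Derivation.add_apply, Pi.add_apply]
        rw [add_div]
      map_smul' := fun c δ => by
        funext j
        simp only [Derivation.smul_apply, Pi.smul_apply, smul_eq_mul, RingHom.id_apply]
        rw [mul_div_assoc] }
  have hvE : ∀ δ j, v δ j = δ (x j : F) / (x j : F) := fun δ j => rfl
  have hrel' : ∀ l, ∀ m ∈ Submodule.span C (Set.range lam),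
      ∑ j, (m j : F) * (E l (x j : F) / (x j : F)) = 0 := by
    intro l m hm
    refine Submodule.span_induction (p := fun m _ =>
      ∑ j, (m j : F) * (E l (x j : F) / (x j : F)) = 0) ?_ ?_ ?_ ?_ hm
    · rintro m ⟨s, rfl⟩
      exact hrel s l
    · simp
    · intro m m' _ _ h1 h2
      have : ∑ j, (((m + m') j : C) : F) * (E l (x j : F) / (x j : F)) =
          ∑ j, (m j : F) * (E l (x j : F) / (x j : F)) +
          ∑ j, (m' j : F) * (E l (x j : F) / (x j : F)) := by
        rw [← Finset.sum_add_distrib]
        refine Finset.sum_congr rfl fun j _ => ?_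
        rw [Pi.add_apply, Subfield.coe_add, add_mul]
      rw [this, h1, h2, add_zero]
    · intro c m _ h1
      have : ∑ j, (((c • m) j : C) : F) * (E l (x j : F) / (x j : F)) =
          (c : F) * ∑ j, (m j : F) * (E l (x j : F) / (x j : F)) := by
        rw [Finset.mul_sum]
        refine Finset.sum_congr rfl fun j _ => ?_
        rw [Pi.smul_apply, smul_eq_mul, Subfield.coe_mul, mul_assoc]
      rw [this, h1, mul_zero]
  -- the dimension of the range of `v`
  let w : Derivation C F F →ₗ[F] (Q → F) :=
    { toFun := fun δ q => δ (x q : F)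
      map_add' := fun δ δ' => by
        funext j
        simp only [Derivation.add_apply, Pi.add_apply]
      map_smul' := fun c δ => by
        funext j
        simp only [Derivation.smul_apply, Pi.smul_apply, smul_eq_mul, RingHom.id_apply] }
  have hker : w.ker ≤ v.ker := by
    intro δ hδ
    rw [LinearMap.mem_ker] at hδ ⊢
    funext j
    have h1 := hQ δ (fun q hq => congrFun hδ ⟨q, hq⟩) j
    rw [hvE, h1, zero_div]
    rfl
  have hdim : Module.finrank F v.range ≤ Q.card := by
    have e := w.quotKerEquivRange
    have : FiniteDimensional F (Derivation C F F ⧸ w.ker) := Module.Finite.equiv e.symm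
    have h1 := LinearMap.finrank_range_le (w.ker.liftQ v hker)
    rw [Submodule.range_liftQ, e.finrank_eq] at h1
    have h2 : Module.finrank F w.range ≤ Module.finrank F (Q → F) := Submodule.finrank_le _
    rw [Module.finrank_fintype_fun_eq_card, Fintype.card_coe] at h2
    exact h1.trans h2
  -- the functionals
  let Φ : v.range →ₗ[F] (Fin p → F) :=
    { toFun := fun u s => ∑ j, (μ s j : F) * (u : κ → F) j
      map_add' := fun u u' => by
        funext s
        rw [Pi.add_apply, ← Finset.sum_add_distrib]
        refine Finset.sum_congr rfl fun j _ => ?_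
        rw [Submodule.coe_add, Pi.add_apply, mul_add]
      map_smul' := fun c u => by
        funext s
        rw [Pi.smul_apply, smul_eq_mul, RingHom.id_apply, Finset.mul_sum]
        refine Finset.sum_congr rfl fun j _ => ?_
        rw [Submodule.coe_smul, Pi.smul_apply, smul_eq_mul]
        ring }
  have hΦ : ∀ u s, Φ u s = ∑ j, (μ s j : F) * (u : κ → F) j := fun u s => rfl
  -- relations
  have hstab : ∀ f : Fin p → F,
      (∀ δ, ∑ s, f s * ∑ j, (μ s j : F) * v δ j = 0) →
      ∀ l δ, ∑ s, E l (f s) * ∑ j, (μ s j : F) * v δ j = 0 := by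
    intro f hf l δ
    have h1 : E l (∑ s, f s * ∑ j, (μ s j : F) * v δ j) = 0 := by rw [hf δ, map_zero]
    rw [map_sum] at h1
    have h2 : ∀ s, E l (f s * ∑ j, (μ s j : F) * v δ j) =
        f s * (∑ j, (μ s j : F) * v ⁅E l, δ⁆ j) + E l (f s) * ∑ j, (μ s j : F) * v δ j := by
      intro s
      rw [Derivation.leibniz, smul_eq_mul, smul_eq_mul]
      congr 1
      · congr 1
        rw [map_sum]
        have h3 : ∀ j, E l ((μ s j : F) * v δ j) =
            (μ s j : F) * v ⁅E l, δ⁆ j + (μ s j : F) * δ (E l (x j : F) / (x j : F)) := by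
          intro j
          have h4 : E l ((μ s j : F) * v δ j) = (μ s j : F) * E l (v δ j) := by
            have := (E l).map_smul (μ s j) (v δ j)
            rwa [Subfield.smul_def, Subfield.smul_def, smul_eq_mul, smul_eq_mul] at this
          rw [h4, ← mul_add]
          congr 1
          rw [hvE, hvE, Derivation.commutator_apply, Derivation.leibniz_div,
            Derivation.leibniz_div]
          simp only [smul_eq_mul]
          have := hx j
          field_simp
          ring
        rw [Finset.sum_congr rfl (fun j _ => h3 j), Finset.sum_add_distrib]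
        have h5 : ∑ j, (μ s j : F) * δ (E l (x j : F) / (x j : F)) = 0 := by
          have h6 : δ (∑ j, (μ s j : F) * (E l (x j : F) / (x j : F))) = 0 := by
            rw [hrel' l _ (hμ s), map_zero]
          rw [map_sum] at h6
          rw [← h6]
          refine Finset.sum_congr rfl fun j _ => ?_
          have := δ.map_smul (μ s j) (E l (x j : F) / (x j : F))
          rw [Subfield.smul_def, Subfield.smul_def, smul_eq_mul, smul_eq_mul] at this
          exact this.symm
        rw [h5, add_zero]
      · rw [mul_comm]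
    rw [Finset.sum_congr rfl (fun s _ => h2 s), Finset.sum_add_distrib, hf, zero_add] at h1
    exact h1
  have hnorel : ∀ f : Fin p → F,
      (∀ δ, ∑ s, f s * ∑ j, (μ s j : F) * v δ j = 0) → f = 0 := by
    by_contra hcon
    push Not at hcon
    obtain ⟨f0, hf0, hf0'⟩ := hcon
    let P : ℕ → Prop := fun n => ∃ f : Fin p → F,
      (∀ δ, ∑ s, f s * ∑ j, (μ s j : F) * v δ j = 0) ∧ f ≠ 0 ∧
      (Finset.univ.filter fun s => f s ≠ 0).card = n
    have hP : ∃ n, P n := ⟨_, f0, hf0, hf0', rfl⟩
    obtain ⟨f1, hf1, hf1', hcard⟩ := Nat.find_spec hP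
    obtain ⟨s0, hs0⟩ : ∃ s, f1 s ≠ 0 := by
      by_contra h
      push Not at h
      exact hf1' (funext h)
    let f : Fin p → F := fun s => (f1 s0)⁻¹ * f1 s
    have hfrel : ∀ δ, ∑ s, f s * ∑ j, (μ s j : F) * v δ j = 0 := by
      intro δ
      have : ∑ s, f s * ∑ j, (μ s j : F) * v δ j =
          (f1 s0)⁻¹ * ∑ s, f1 s * ∑ j, (μ s j : F) * v δ j := by
        rw [Finset.mul_sum]
        exact Finset.sum_congr rfl fun s _ => mul_assoc _ _ _
      rw [this, hf1, mul_zero]
    have hfs0 : f s0 = 1 := inv_mul_cancel₀ hs0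
    have hfz : ∀ l s, E l (f s) = 0 := by
      intro l
      by_contra hne
      push Not at hne
      obtain ⟨s1, hs1⟩ := hne
      have hnew : P (Finset.univ.filter fun s => E l (f s) ≠ 0).card :=
        ⟨fun s => E l (f s), fun δ => hstab f hfrel l δ, fun h => hs1 (congrFun h s1), rfl⟩
      have hlt : (Finset.univ.filter fun s => E l (f s) ≠ 0).card < Nat.find hP := by
        rw [← hcard]
        apply Finset.card_lt_card
        rw [Finset.ssubset_iff_of_subset]
        · refine ⟨s0, by simp [hs0], ?_⟩
          simp only [Finset.mem_filter, Finset.mem_univ, true_and, not_not]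
          rw [hfs0, Derivation.map_one_eq_zero]
        · intro s hs
          simp only [Finset.mem_filter, Finset.mem_univ, true_and] at hs ⊢
          intro h0'
          apply hs
          show E l ((f1 s0)⁻¹ * f1 s) = 0
          rw [h0', mul_zero, map_zero]
      exact Nat.find_min hP hlt hnew
    have hfC : ∀ s, f s ∈ C := fun s => hEC _ fun l => hfz l s
    let g : Fin p → C := fun s => ⟨f s, hfC s⟩
    have hmem : (∑ s, g s • μ s) ∈ S := by
      apply hlem
      intro δ
      rw [← hfrel δ]
      have h1 : ∀ j, (((∑ s, g s • μ s) j : C) : F) = ∑ s, f s * (μ s j : F) := by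
        intro j
        rw [Finset.sum_apply]
        push_cast
        refine Finset.sum_congr rfl fun s _ => ?_
        rw [Pi.smul_apply, smul_eq_mul, Subfield.coe_mul]
      simp only [h1, Finset.sum_mul, Finset.mul_sum]
      rw [Finset.sum_comm]
      refine Finset.sum_congr rfl fun s _ => Finset.sum_congr rfl fun j _ => ?_
      rw [hvE, mul_assoc]
    have h2 : ∑ s, g s • S.mkQ (μ s) = 0 := by
      rw [← Finset.sum_congr rfl (fun s _ => map_smul S.mkQ (g s) (μ s)), ← map_sum,
        Submodule.mkQ_apply, Submodule.Quotient.mk_eq_zero]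
      exact hmem
    have h3 := Fintype.linearIndependent_iff.1 hμi g h2 s0
    have h4 : f s0 = 0 := congrArg Subtype.val h3
    rw [hfs0] at h4
    exact one_ne_zero h4
  have hsurj : Φ.range = ⊤ := by
    by_contra hne
    obtain ⟨θ, hθ, hθ'⟩ := Submodule.exists_le_ker_of_lt_top _ (lt_top_iff_ne_top.2 hne)
    apply hθ
    have h1 : ∀ y : Fin p → F, θ y = ∑ s, θ (Pi.single s 1) * y s := by
      intro y
      conv_lhs => rw [pi_eq_sum_univ' y]
      rw [map_sum]
      refine Finset.sum_congr rfl fun s _ => ?_
      rw [map_smul, smul_eq_mul, mul_comm]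
    have h2 : (fun s => θ (Pi.single s 1)) = 0 := by
      apply hnorel
      intro δ
      have h3 : θ (Φ ⟨v δ, ⟨δ, rfl⟩⟩) = 0 := hθ' ⟨_, rfl⟩
      rw [h1] at h3
      exact h3
    ext s
    simp only [LinearMap.coe_comp, Function.comp_apply, LinearMap.zero_apply]
    exact congrFun h2 s
  have hkerz : z ≤ Module.finrank F Φ.ker := by
    let u : Fin z → Φ.ker := fun l => ⟨⟨v (E l), ⟨E l, rfl⟩⟩, by
      rw [LinearMap.mem_ker]
      funext s
      exact hrel' l _ (hμ s)⟩
    have hu : LinearIndependent F u := by
      apply LinearIndependent.of_comp (v.range.subtype ∘ₗ Φ.ker.subtype)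
      exact hv
    have := hu.fintype_card_le_finrank
    rwa [Fintype.card_fin] at this
  have hrn := LinearMap.finrank_range_add_finrank_ker Φ
  rw [hsurj, finrank_top, Module.finrank_fintype_fun_eq_card, Fintype.card_fin] at hrn
  omega

end Pool.Agent.ZPA
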