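import Mathlib

set_option autoImplicit false

namespace Pool.Agent.ZPA

/-- the ideal of the ultraproduct -/
def b1_M (𝒰 : Ultrafilter ℕ) (K : ℕ → Type) [∀ i, Field (K i)] : Ideal (∀ i, K i) where
  carrier := {f | ∀ᶠ i in (𝒰 : Filter ℕ), f i = 0}
  zero_mem' := Filter.Eventually.of_forall (fun _ => rfl)
  add_mem' := by
    intro f g hf hg
    filter_upwards [hf, hg] with i h1 h2
    rw [Pi.add_apply, h1, h2, add_zero]
  smul_mem' := by
    intro c f hf
    filter_upwards [hf] with i h1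
    rw [smul_eq_mul, Pi.mul_apply, h1, mul_zero]

theorem b1_mem {𝒰 : Ultrafilter ℕ} {K : ℕ → Type} [∀ i, Field (K i)] {f : ∀ i, K i} :
    f ∈ b1_M 𝒰 K ↔ ∀ᶠ i in (𝒰 : Filter ℕ), f i = 0 := Iff.rfl

theorem b1_max (𝒰 : Ultrafilter ℕ) (K : ℕ → Type) [∀ i, Field (K i)] : (b1_M 𝒰 K).IsMaximal := by
  rw [Ideal.isMaximal_iff]
  constructor
  · intro h
    rw [b1_mem] at h
    have h1 : ∀ᶠ i in (𝒰 : Filter ℕ), False := by
      filter_upwards [h] with i hi
      exact one_ne_zero hi
    rw [Filter.eventually_false_iff_eq_bot] at h1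
    exact 𝒰.neBot.ne h1
  · intro J f hMJ hf hfJ
    rw [b1_mem, ← Ultrafilter.eventually_not] at hf
    have h1 : (1 : ∀ i, K i) - (fun i => (f i)⁻¹) * f ∈ b1_M 𝒰 K := by
      rw [b1_mem]
      filter_upwards [hf] with i hi
      rw [Pi.sub_apply, Pi.one_apply, Pi.mul_apply, inv_mul_cancel₀ hi, sub_self]
    have h2 := J.add_mem (hMJ h1) (J.mul_mem_left (fun i => (f i)⁻¹) hfJ)
    rwa [sub_add_cancel] at h2

/-- the componentwise derivation -/
noncomputable def b1_D (K : ℕ → Type) [∀ i, Field (K i)] (D : ∀ i, Derivation ℤ (K i) (K i)) :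
    Derivation ℤ (∀ i, K i) (∀ i, K i) :=
  Derivation.mk'
    (AddMonoidHom.toIntLinearMap
      { toFun := fun f i => D i (f i)
        map_zero' := by
          funext i
          exact map_zero (D i)
        map_add' := by
          intro f g
          funext i
          exact map_add (D i) (f i) (g i) })
    (by
      intro f g
      funext i
      exact (D i).leibniz (f i) (g i))

theorem b1_D_apply (K : ℕ → Type) [∀ i, Field (K i)] (D : ∀ i, Derivation ℤ (K i) (K i))
    (f : ∀ i, K i) : b1_D K D f = fun i => D i (f i) := rfl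

/-- Row B1. Ultraproducts of fields with derivations.

Proof. In the ring `R = ∀ i, K i` let `M = {f | ∀ᶠ i in 𝒰, f i = 0}`: an ideal, maximal: it is
proper (`1 ∉ M` as `𝒰` is nontrivial), and if `f ∉ M` then by the ultrafilter property
`∀ᶠ i in 𝒰, f i ≠ 0`, and with `g i = (f i)⁻¹` one has `f * g - 1 ∈ M`. Take `L = R ⧸ M` with
`Ideal.Quotient.field M`, `π = Ideal.Quotient.mk M`, and `DL l` the derivation induced by the
componentwise derivation `f ↦ fun i => D i l (f i)` of `R` (it maps `M` into `M`): use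
`Derivation.liftOfSurjective` (see its use in Mathlib `FieldTheory/Differential/Basic`), or
construct it by hand with `Quotient.lift` or with a right inverse of `π` and `Derivation.mk'`. The
field is of characteristic zero: if `(n : L) = 0` then `(n : K i) = 0` for some `i`. -/
theorem exists_uprod (𝒰 : Ultrafilter ℕ) (K : ℕ → Type) [∀ i, Field (K i)] [∀ i, CharZero (K i)]
    (z : ℕ) (D : ∀ i, Fin z → Derivation ℤ (K i) (K i)) :
    ∃ (L : Type) (_ : Field L) (_ : CharZero L) (π : (∀ i, K i) →+* L)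
      (DL : Fin z → Derivation ℤ L L), Function.Surjective π ∧
      (∀ f, π f = 0 ↔ ∀ᶠ i in (𝒰 : Filter ℕ), f i = 0) ∧
      (∀ l f, DL l (π f) = π (fun i => D i l (f i))) := by
  have hmax := b1_max 𝒰 K
  have h0 : ∀ f, Ideal.Quotient.mk (b1_M 𝒰 K) f = 0 ↔ ∀ᶠ i in (𝒰 : Filter ℕ), f i = 0 := by
    intro f
    rw [Ideal.Quotient.eq_zero_iff_mem, b1_mem]
  have hsurj : Function.Surjective (Ideal.Quotient.mk (b1_M 𝒰 K)) := Ideal.Quotient.mk_surjective
  have hD : ∀ l : Fin z, ∀ f, Ideal.Quotient.mk (b1_M 𝒰 K) f = 0 →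
      Ideal.Quotient.mk (b1_M 𝒰 K) (b1_D K (fun i => D i l) f) = 0 := by
    intro l f hf
    rw [h0] at hf ⊢
    filter_upwards [hf] with i hi
    show D i l (f i) = 0
    rw [hi, map_zero]
  refine ⟨(∀ i, K i) ⧸ b1_M 𝒰 K, Ideal.Quotient.field _, ?_, Ideal.Quotient.mk (b1_M 𝒰 K),
    fun l => Derivation.liftOfSurjective (f := (Ideal.Quotient.mk (b1_M 𝒰 K)).toIntAlgHom) hsurj
      (hD l), hsurj, h0, ?_⟩
  · let _ := Ideal.Quotient.field (b1_M 𝒰 K)
    refine charZero_of_inj_zero (fun p h => ?_)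
    by_contra hp
    have h1 : Ideal.Quotient.mk (b1_M 𝒰 K) ((p : ∀ i, K i)) = 0 := by
      rw [map_natCast]
      exact h
    rw [h0] at h1
    have h2 : ∀ᶠ i in (𝒰 : Filter ℕ), False := by
      filter_upwards [h1] with i hi
      rw [Pi.natCast_apply] at hi
      exact hp (Nat.cast_eq_zero.1 hi)
    rw [Filter.eventually_false_iff_eq_bot] at h2
    exact 𝒰.neBot.ne h2
  · intro l f
    exact Derivation.liftOfSurjective_apply (f := (Ideal.Quotient.mk (b1_M 𝒰 K)).toIntAlgHom) hsurj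
      (hD l) f

end Pool.Agent.ZPA
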