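import Mathlib
import Pool.Agent.MP_4aec10_nt.Der

set_option autoImplicit false

open MvPolynomial

namespace Pool.Agent.ZPA

open scoped KaehlerDifferential in
/-- A derivation which kills a transcendence basis is zero. -/
theorem b2_unramified {k K : Type} [Field k] [Field K] [Algebra k K] [CharZero k]
    (B : Set K) (hB : IsTranscendenceBasis k ((↑) : B → K)) (E : Derivation k K K)
    (hE : ∀ t ∈ B, E t = 0) (y : K) : E y = 0 := by
  have h0 : ∀ a ∈ Algebra.adjoin k (Set.range ((↑) : B → K)), E a = 0 := by
    intro a ha
    induction ha using Algebra.adjoin_induction with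
    | mem x hx =>
      obtain ⟨t, rfl⟩ := hx
      exact hE t t.2
    | algebraMap r => exact E.map_algebraMap r
    | add x y _ _ hx hy => rw [map_add, hx, hy, add_zero]
    | mul x y _ _ hx hy => rw [E.leibniz, hx, hy, smul_zero, smul_zero, add_zero]
  have hfe : Algebra.FormallyEtale (Algebra.adjoin k (Set.range ((↑) : B → K))) K :=
    Pool.Agent.MP_4aec10_nt.formallyEtale_adjoin B hB
  let g : K →ₗ[Algebra.adjoin k (Set.range ((↑) : B → K))] K :=
    { toFun := fun y => E y
      map_add' := fun a b => map_add E a b
      map_smul' := fun a b => by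
        rw [Algebra.smul_def, E.leibniz]
        have h1 : E (algebraMap (Algebra.adjoin k (Set.range ((↑) : B → K))) K a) = 0 := h0 a a.2
        rw [h1, smul_zero, add_zero]
        rfl }
  let E' : Derivation (Algebra.adjoin k (Set.range ((↑) : B → K))) K K :=
    Derivation.mk' g (fun a b => E.leibniz a b)
  have hss : Subsingleton Ω[K⁄Algebra.adjoin k (Set.range ((↑) : B → K))] := inferInstance
  have h2 : E' y = E'.liftKaehlerDifferential
      (KaehlerDifferential.D (Algebra.adjoin k (Set.range ((↑) : B → K))) K y) :=
    (E'.liftKaehlerDifferential_comp_D y).symm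
  have h3 : KaehlerDifferential.D (Algebra.adjoin k (Set.range ((↑) : B → K))) K y = 0 :=
    Subsingleton.elim _ _
  rw [h3, map_zero] at h2
  exact h2

theorem b2_const {k K : Type} [Field k] [IsAlgClosed k] [Field K] [Algebra k K] [CharZero k]
    (B : Set K) (hB : IsTranscendenceBasis k ((↑) : B → K)) [Fintype B] [DecidableEq B]
    (D : B → Derivation k K K) (hD : ∀ l m : B, D l (m : K) = if l = m then 1 else 0)
    (f : K) (hf : ∀ l, D l f = 0) : ∃ c : k, algebraMap k K c = f := by
  by_contra hc
  have htr : Transcendental k f := by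
    intro halg
    apply hc
    have h1 : algebraicClosure k K = ⊥ :=
      IntermediateField.eq_bot_of_isAlgClosed_of_isAlgebraic (algebraicClosure k K)
    have h2 : f ∈ algebraicClosure k K := mem_algebraicClosure_iff.2 halg
    rw [h1, IntermediateField.mem_bot] at h2
    exact h2
  have hind : AlgebraicIndepOn k id ({f} : Set K) := by
    have h1 : AlgebraicIndependent k (fun i : ({f} : Set K) => id (i : K)) :=
      algebraicIndependent_unique_type_iff.2 htr
    exact h1
  obtain ⟨B', hfB', hB'⟩ := exists_isTranscendenceBasis_superset hind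
  obtain ⟨D', hD', -⟩ := Pool.Agent.MP_4aec10_nt.exists_derivation B' hB' ⟨f, hfB' rfl⟩
  have key := b2_unramified B hB (D' - ∑ l : B, D' (l : K) • D l) (by
    intro t ht
    rw [Derivation.sub_apply]
    have h1 : (∑ l : B, D' (l : K) • D l) t = D' t := by
      have h2 : (∑ l : B, D' (l : K) • D l) t = ∑ l : B, (D' (l : K) • D l) t := by
        rw [← Derivation.coeFnAddMonoidHom_apply, map_sum, Finset.sum_apply]
        rfl
      rw [h2, Finset.sum_eq_single (⟨t, ht⟩ : B)]
      · rw [Derivation.smul_apply, hD ⟨t, ht⟩ ⟨t, ht⟩, if_pos rfl, smul_eq_mul, mul_one]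
      · intro l _ hl
        rw [Derivation.smul_apply, hD l ⟨t, ht⟩, if_neg hl, smul_zero]
      · intro h
        exact absurd (Finset.mem_univ _) h
    rw [h1, sub_self]) f
  rw [Derivation.sub_apply] at key
  have h2 : (∑ l : B, D' (l : K) • D l) f = ∑ l : B, (D' (l : K) • D l) f := by
    rw [← Derivation.coeFnAddMonoidHom_apply, map_sum, Finset.sum_apply]
    rfl
  rw [h2, Finset.sum_eq_zero, sub_zero] at key
  · have h3 : D' f = 1 := hD'
    rw [h3] at key
    exact one_ne_zero key
  · intro l _
    rw [Derivation.smul_apply, hf l, smul_zero]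

theorem b2_main {k κ : Type} [Field k] [CharZero k] [IsAlgClosed k] [Fintype κ]
    (R : Type) [CommRing R] [IsDomain R] [Algebra k R] (π : MvPolynomial κ k →ₐ[k] R)
    (hπ : Function.Surjective π) (I : Ideal (MvPolynomial κ k)) (hI : ∀ p, π p = 0 ↔ p ∈ I)
    (hX : ∀ j, (X j : MvPolynomial κ k) ∉ I) (z : ℕ) (hz : Cardinal.toNat (Algebra.trdeg k R) = z) :
    ∃ (K : Type) (_ : Field K) (_ : CharZero K) (_ : Algebra k K) (x : κ → Kˣ) (s : Fin z → κ)
      (D : Fin z → Derivation k K K),
      (∀ p : MvPolynomial κ k, aeval (fun j => (x j : K)) p = 0 ↔ p ∈ I) ∧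
      (∀ l m, D l (x (s m) : K) = if l = m then 1 else 0) ∧
      (∀ f : K, (∀ l, D l f = 0) → ∃ c : k, algebraMap k K c = f) := by
  classical
  obtain ⟨K, iK, iA, iA', iT, iF⟩ : ∃ (K : Type) (_ : Field K) (_ : Algebra R K) (_ : Algebra k K)
      (_ : IsScalarTower k R K), IsFractionRing R K :=
    ⟨FractionRing R, inferInstance, inferInstance, inferInstance, inferInstance, inferInstance⟩
  have hinj : Function.Injective (algebraMap R K) := IsFractionRing.injective R K
  have hchar : CharZero K := charZero_of_injective_algebraMap (algebraMap k K).injective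
  have hx0 : ∀ j, algebraMap R K (π (X j)) ≠ 0 := by
    intro j h
    rw [map_eq_zero_iff _ hinj] at h
    exact hX j ((hI _).1 h)
  obtain ⟨x, hx⟩ : ∃ x : κ → Kˣ, ∀ j, (x j : K) = algebraMap R K (π (X j)) :=
    ⟨fun j => Units.mk0 _ (hx0 j), fun j => rfl⟩
  have haeval : ∀ p, aeval (fun j => (x j : K)) p = algebraMap R K (π p) := by
    intro p
    have h1 : aeval (fun j => (x j : K)) = (IsScalarTower.toAlgHom k R K).comp π := by
      apply MvPolynomial.algHom_ext
      intro j
      rw [aeval_X, hx]
      rfl
    rw [h1]
    rfl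
  have hmem : ∀ r : R, algebraMap R K r ∈ Algebra.adjoin k (Set.range fun j => (x j : K)) := by
    intro r
    obtain ⟨p, rfl⟩ := hπ r
    rw [← haeval p, Algebra.adjoin_range_eq_range_aeval]
    exact ⟨p, rfl⟩
  have halg : Algebra.IsAlgebraic (Algebra.adjoin k (Set.range fun j => (x j : K))) K := by
    constructor
    intro a
    obtain ⟨r, s, hs, rfl⟩ := IsFractionRing.div_surjective (A := R) a
    rw [div_eq_mul_inv]
    refine IsAlgebraic.mul ?_ (IsAlgebraic.inv ?_)
    · exact isAlgebraic_algebraMap
        (⟨algebraMap R K r, hmem r⟩ : Algebra.adjoin k (Set.range fun j => (x j : K)))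
    · exact isAlgebraic_algebraMap
        (⟨algebraMap R K s, hmem s⟩ : Algebra.adjoin k (Set.range fun j => (x j : K)))
  obtain ⟨B, hBs, hB⟩ := exists_isTranscendenceBasis_subset (R := k) (Set.range fun j => (x j : K))
  have hfin : Finite B := (Set.finite_range _).subset hBs
  have htr : Algebra.trdeg k K = Algebra.trdeg k R := by
    have hfs1 : FaithfulSMul k R :=
      (faithfulSMul_iff_algebraMap_injective k R).2 (algebraMap k R).injective
    have hfs2 : FaithfulSMul R K := (faithfulSMul_iff_algebraMap_injective R K).2 hinj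
    have halg2 : Algebra.IsAlgebraic R K := IsLocalization.isAlgebraic K (nonZeroDivisors R)
    rw [← trdeg_add_eq k R (A := K), trdeg_eq_zero (R := R) (A := K), add_zero]
  have hcard : Nat.card B = z := by
    rw [← hz, ← htr, ← hB.cardinalMk_eq_trdeg]
    rfl
  let e : B ≃ Fin z := Finite.equivFinOfCardEq hcard
  have hsx : ∀ l : Fin z, ∃ j : κ, (x j : K) = (e.symm l : K) := fun l => hBs (e.symm l).2
  choose s hs using hsx
  have hDex : ∀ b : B, ∃ D : Derivation k K K, ∀ m : B, D (m : K) = if b = m then 1 else 0 := by
    intro b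
    obtain ⟨D, h1, h2⟩ := Pool.Agent.MP_4aec10_nt.exists_derivation B hB b
    refine ⟨D, fun m => ?_⟩
    split_ifs with h
    · rw [← h]
      exact h1
    · exact h2 m (fun h3 => h h3.symm)
  choose D hD using hDex
  have : Fintype B := Fintype.ofFinite B
  refine ⟨K, iK, hchar, iA', x, s, fun l => D (e.symm l), ?_, ?_, ?_⟩
  · intro p
    rw [haeval, map_eq_zero_iff _ hinj]
    exact hI p
  · intro l m
    rw [hs m, hD]
    by_cases h : l = m
    · rw [if_pos (congrArg _ h), if_pos h]
    · rw [if_neg (fun h1 => h (e.symm.injective h1)), if_neg h]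
  · intro f hf
    refine b2_const B hB D hD f (fun b => ?_)
    have h1 : D (e.symm (e b)) f = 0 := hf (e b)
    rwa [Equiv.symm_apply_apply] at h1

/-- Row B2. The function field of an irreducible variety with partial derivatives.

Proof. `R = MvPolynomial κ k ⧸ I` is a domain; `K = FractionRing R` with its `k`-algebra
structure, `x j` the unit given by the nonzero image of `X j`. `aeval (x ·) p` is the image of `p`
in `K`, so it is zero iff `p ∈ I`. The elements `x j` generate the field `K` over `k`, so some
subset of them is a transcendence basis of `K` over `k` (`exists_isTranscendenceBasis_subset` or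
`exists_isTranscendenceBasis_between` applied to the set `Set.range (fun j => (x j : K))`, over
which `K` is algebraic); its cardinality is the transcendence degree of `K`, equal to that of `R`
(the same set of elements of `R` is a transcendence basis of `R`; `Algebra.trdeg` of the fraction
field: look for `Algebra.IsAlgebraic.trdeg_le...`, `trdeg_eq_of_isAlgebraic`,
`IsFractionRing.trdeg_eq`; see also the file `Pool/Agent/MP_dd1803_nt/Dim.lean`, theorem
`exists_basis`, for this argument in `R`), i.e. `z`, which is finite. Enumerate it by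
`s : Fin z → κ`. `Pool.Agent.MP_4aec10_nt.exists_derivation` gives `D l : Derivation k K K` with
`D l (x (s l)) = 1` and `D l (x (s m)) = 0` for `m ≠ l`.
Constants: suppose `D l f = 0` for all `l` and `f` is not in the image of `k`. As `k` is
algebraically closed `f` is transcendental over `k` (`IsAlgClosed.algebraMap_surjective...` on the
algebraic elements), so `{f}` extends to a transcendence basis `B'` and by `exists_derivation`
there is `D' : Derivation k K K` with `D' f = 1`. But `D' = ∑ l, D' (x (s l)) • D l`: the difference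
kills `k` and all `x (s l)`, and `K` is algebraic over `k(x (s l))` so it is zero (an element
algebraic over a subfield killed by a derivation is killed, char zero). So `D' f = 0`,
contradiction. -/
theorem exists_funfield {k κ : Type} [Field k] [CharZero k] [IsAlgClosed k] [Fintype κ]
    (I : Ideal (MvPolynomial κ k)) [hI : I.IsPrime] (hX : ∀ j, (X j : MvPolynomial κ k) ∉ I) (z : ℕ)
    (hz : Cardinal.toNat (Algebra.trdeg k (MvPolynomial κ k ⧸ I)) = z) :
    ∃ (K : Type) (_ : Field K) (_ : CharZero K) (_ : Algebra k K) (x : κ → Kˣ) (s : Fin z → κ)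
      (D : Fin z → Derivation k K K),
      (∀ p : MvPolynomial κ k, aeval (fun j => (x j : K)) p = 0 ↔ p ∈ I) ∧
      (∀ l m, D l (x (s m) : K) = if l = m then 1 else 0) ∧
      (∀ f : K, (∀ l, D l f = 0) → ∃ c : k, algebraMap k K c = f) := by
  classical
  have hdom : IsDomain (MvPolynomial κ k ⧸ I) := Ideal.Quotient.isDomain I
  exact b2_main (MvPolynomial κ k ⧸ I) (Ideal.Quotient.mkₐ k I) (Ideal.Quotient.mkₐ_surjective k I) I
    (fun p => Ideal.Quotient.eq_zero_iff_mem) hX z hz

end Pool.Agent.ZPA
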