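import Mathlib
import Pool.Agent.ZPA.Defs
import Pool.Agent.ZPA.A4
import Pool.Agent.ZPA.B1
import Pool.Agent.ZPA.B2

set_option autoImplicit false

open MvPolynomial

namespace Pool.Agent.ZPA

open Pool.Agent.MP_dd1803_nt

/-- binomial with a constant -/
noncomputable def bc {k κ : Type} [Field k] [Fintype κ] (c : k) (m : κ → ℤ) : MvPolynomial κ k :=
  ∏ i, X i ^ (m i).toNat - C c * ∏ i, X i ^ (-m i).toNat

theorem aeval_bc {k K κ : Type} [Field k] [Field K] [Algebra k K] [Fintype κ] (c : k) (m : κ → ℤ)
    (x : κ → Kˣ) : aeval (fun j => (x j : K)) (bc c m) = 0 ↔ algebraMap k K c = (ch m x : K) := by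
  unfold bc ch
  rw [map_sub, map_mul, map_prod, map_prod, sub_eq_zero, aeval_C]
  simp only [map_pow, aeval_X]
  have h1 : ∀ i, x i ^ m i = x i ^ (m i).toNat * (x i ^ (-m i).toNat)⁻¹ := by
    intro i
    rw [← zpow_natCast, ← zpow_natCast, ← zpow_neg, ← zpow_add]
    congr 1
    rw [Int.toNat_eq_max, Int.toNat_eq_max]
    omega
  have h2 : ∏ i, x i ^ m i = (∏ i, x i ^ (m i).toNat) * (∏ i, x i ^ (-m i).toNat)⁻¹ := by
    rw [← Finset.prod_inv_distrib, ← Finset.prod_mul_distrib]
    exact Finset.prod_congr rfl fun i _ => h1 i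
  have h3 : ((∏ i, x i ^ m i : Kˣ) : K) =
      (∏ i, (x i : K) ^ (m i).toNat) / (∏ i, (x i : K) ^ (-m i).toNat) := by
    rw [h2]
    push_cast
    rw [div_eq_mul_inv]
  have h4 : (∏ i, (x i : K) ^ (-m i).toNat) ≠ 0 :=
    Finset.prod_ne_zero_iff.mpr fun i _ => pow_ne_zero _ (x i).ne_zero
  rw [h3, eq_div_iff h4, eq_comm]

theorem b3_log {K κ : Type} [Field K] [Fintype κ] (D : Derivation ℤ K K) (x : κ → Kˣ)
    (m : κ → ℤ) : D (ch m x : K) / (ch m x : K) = ∑ j, (m j : K) * (D (x j : K) / (x j : K)) := by
  classical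
  let L : Kˣ →* Multiplicative K :=
    { toFun := fun u => Multiplicative.ofAdd (D (u : K) / (u : K))
      map_one' := by simp
      map_mul' := by
        intro u v
        rw [← ofAdd_add]
        congr 1
        rw [Units.val_mul, Derivation.leibniz]
        have h1 := u.ne_zero
        have h2 := v.ne_zero
        simp only [smul_eq_mul]
        field_simp
        ring }
  have h1 : L (ch m x) = ∏ j, L (x j) ^ m j := by
    unfold ch
    rw [map_prod]
    simp only [map_zpow]
  have h2 := congrArg Multiplicative.toAdd h1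
  rw [toAdd_prod] at h2
  have h3 : ∀ j, Multiplicative.toAdd (L (x j) ^ m j) = (m j : K) * (D (x j : K) / (x j : K)) := by
    intro j
    rw [toAdd_zpow, zsmul_eq_mul]
    rfl
  simp only [h3] at h2
  exact h2

theorem b3_alg {k K : Type} [Field k] [Field K] [Algebra k K] [CharZero k] (D : Derivation k K K)
    (y : K) (hy : IsAlgebraic k y) : D y = 0 := by
  have h1 := D.map_aeval (minpoly k y) y
  rw [minpoly.aeval, map_zero] at h1
  have h2 : (minpoly k y).Separable := (minpoly.irreducible hy.isIntegral).separable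
  have h3 := h2.aeval_derivative_ne_zero (minpoly.aeval k y)
  rw [smul_eq_mul] at h1
  exact (mul_eq_zero.mp h1.symm).resolve_left h3

/-- A root of a nonzero polynomial with coefficients killed by a derivation is killed. -/
theorem b3_alg' {C K : Type} [Field C] [Field K] [Algebra C K] [CharZero K] (δ : Derivation C K K)
    {n : ℕ} (c : Fin n → K) (hc : ∀ e, δ (c e) = 0) (y : K) (h : ∑ e, c e * y ^ (e : ℕ) = 0)
    (hne : ∃ e, c e ≠ 0) : δ y = 0 := by
  classical
  let S : Subfield K :=
    { carrier := {f | δ f = 0}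
      mul_mem' := by
        intro a b ha hb
        simp only [Set.mem_ofPred_eq] at *
        rw [Derivation.leibniz, ha, hb, smul_zero, smul_zero, add_zero]
      one_mem' := by simp
      add_mem' := by
        intro a b ha hb
        simp only [Set.mem_ofPred_eq] at *
        rw [map_add, ha, hb, add_zero]
      zero_mem' := by simp
      neg_mem' := by
        intro a ha
        simp only [Set.mem_ofPred_eq] at *
        rw [map_neg, ha, neg_zero]
      inv_mem' := by
        intro a ha
        simp only [Set.mem_ofPred_eq] at *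
        rw [Derivation.leibniz_inv, ha, smul_zero] }
  have hS : ∀ f, f ∈ S ↔ δ f = 0 := fun f => Iff.rfl
  let δ' : Derivation S K K :=
    Derivation.mk'
      { toFun := δ
        map_add' := map_add δ
        map_smul' := by
          intro s f
          have h1 : s • f = (s : K) * f := rfl
          rw [h1, Derivation.leibniz, (hS _).mp s.2, smul_zero, add_zero]
          rfl } (by
      intro a b
      exact δ.leibniz a b)
  have h2 : IsAlgebraic S y := by
    refine ⟨∑ e : Fin n, Polynomial.C (⟨c e, (hS _).mpr (hc e)⟩ : S) * Polynomial.X ^ (e : ℕ), ?_, ?_⟩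
    · obtain ⟨e, he⟩ := hne
      intro h0
      apply he
      have h3 := congrArg (fun p => Polynomial.coeff p (e : ℕ)) h0
      simp only [Polynomial.finsetSum_coeff, Polynomial.coeff_C_mul, Polynomial.coeff_X_pow,
        Polynomial.coeff_zero] at h3
      rw [Finset.sum_eq_single e] at h3
      · rw [if_pos rfl, mul_one] at h3
        exact congrArg Subtype.val h3
      · intro e' _ hne'
        rw [if_neg, mul_zero]
        intro h4
        exact hne' (Fin.ext h4.symm)
      · intro h4
        exact absurd (Finset.mem_univ e) h4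
    · rw [map_sum]
      simp only [map_mul, Polynomial.aeval_C, map_pow, Polynomial.aeval_X]
      exact h
  have : CharZero S := by
    constructor
    intro a b hab
    have := congrArg Subtype.val hab
    push_cast at this
    exact_mod_cast this
  exact b3_alg δ' y h2

theorem b3_pigeon {α : Type} [Finite α] (𝒰 : Ultrafilter ℕ) (f : ℕ → α) :
    ∃ a, ∀ᶠ i in (𝒰 : Filter ℕ), f i = a := by
  obtain ⟨a, ha⟩ := (𝒰.map f).eq_pure_of_finite
  refine ⟨a, ?_⟩
  have h1 : ({a} : Set α) ∈ 𝒰.map f := by
    rw [ha]
    exact Filter.mem_pure.mpr rfl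
  exact h1

/-- Expansion of a polynomial of bounded degree. -/
theorem b3_expand {k K ι : Type} [Field k] [Field K] [Algebra k K] [Fintype ι] [DecidableEq ι] (D : ℕ)
    (p : MvPolynomial ι k) (hp : p.totalDegree ≤ D) (y : ι → K) :
    aeval y p = ∑ d : ι → Fin (D + 1), algebraMap k K (coeff (Finsupp.equivFunOnFinite.symm
      (fun j => (d j : ℕ))) p) * ∏ j, y j ^ (d j : ℕ) := by
  classical
  rw [aeval_def, eval₂_eq']
  let f : (ι → Fin (D + 1)) → (ι →₀ ℕ) := fun d => Finsupp.equivFunOnFinite.symm (fun j => (d j : ℕ))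
  have hf : Function.Injective f := by
    intro d d' h
    funext j
    have := DFunLike.congr_fun h j
    exact Fin.ext this
  have h1 : p.support ⊆ Finset.univ.image f := by
    intro d hd
    rw [Finset.mem_image]
    have h2 : ∀ j, d j ≤ D := by
      intro j
      have h3 := le_totalDegree hd
      have h4 : d j ≤ d.sum fun _ e => e := by
        by_cases h5 : j ∈ d.support
        · exact Finset.single_le_sum (f := fun i => d i) (fun i _ => Nat.zero_le _) h5
        · rw [Finsupp.notMem_support_iff.mp h5]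
          exact Nat.zero_le _
      omega
    refine ⟨fun j => ⟨d j, by have := h2 j; omega⟩, Finset.mem_univ _, ?_⟩
    ext j
    rfl
  rw [Finset.sum_subset h1, Finset.sum_image (fun a _ b _ h => hf h)]
  · rfl
  · intro d _ hd
    rw [notMem_support_iff.mp hd, map_zero, zero_mul]

theorem b3_minor {κ : Type} [Fintype κ] (A : Submodule ℤ (κ → ℤ)) (a : ℕ)
    (ha : Module.finrank ℤ A = a) : ∃ (b : Fin a → κ → ℤ) (t : Fin a → κ), (∀ s, b s ∈ A) ∧
      (Matrix.of fun s s' => b s (t s')).det ≠ 0 := by
  classical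
  let B : Module.Basis (Fin a) ℤ A := Module.finBasisOfFinrankEq ℤ A ha
  let b : Fin a → κ → ℤ := fun s => (B s : κ → ℤ)
  have hb : LinearIndependent ℤ b := by
    have := B.linearIndependent.map' A.subtype (Submodule.ker_subtype A)
    exact this
  let M : Matrix (Fin a) κ ℚ := fun s j => (b s j : ℚ)
  have hM : LinearIndependent ℚ M.row := by
    rw [← LinearIndependent.iff_fractionRing ℤ ℚ]
    let f : (κ → ℤ) →ₗ[ℤ] (κ → ℚ) :=
      LinearMap.pi fun j => ((Int.castAddHom ℚ).toIntLinearMap).comp (LinearMap.proj j)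
    have hf : LinearMap.ker f = ⊥ := by
      rw [LinearMap.ker_eq_bot]
      intro u v huv
      funext j
      have := congrFun huv j
      simp only [f, LinearMap.pi_apply, LinearMap.comp_apply, LinearMap.proj_apply] at this
      exact Int.cast_injective this
    exact hb.map' f hf
  have hr : M.rank = a := by
    rw [LinearIndependent.rank_matrix hM, Fintype.card_fin]
  rw [Matrix.rank_eq_finrank_span_cols] at hr
  obtain ⟨f, hf1, _, hf3⟩ := Submodule.exists_fun_fin_finrank_span_eq ℚ (Set.range M.col)
  choose t ht using hf1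
  let t' : Fin a → κ := fun s => t (Fin.cast hr.symm s)
  refine ⟨b, t', fun s => (B s).2, ?_⟩
  let N : Matrix (Fin a) (Fin a) ℚ := fun s s' => M s (t' s')
  have hN : LinearIndependent ℚ N.col := by
    have h1 : N.col = f ∘ Fin.cast hr.symm := by
      funext s
      exact ht _
    rw [h1]
    exact hf3.comp _ (Fin.cast_injective _)
  rw [Matrix.linearIndependent_cols_iff_isUnit, Matrix.isUnit_iff_isUnit_det, isUnit_iff_ne_zero] at hN
  intro h0
  apply hN
  have h2 : N = (Matrix.of fun s s' => b s (t' s')).map (Int.castRingHom ℚ) := rfl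
  rw [h2, ← RingHom.mapMatrix_apply, ← RingHom.map_det, h0, map_zero]

theorem uax_aux {k κ : Type} [Field k] [CharZero k] [IsAlgClosed k] [Fintype κ] (𝒰 : Ultrafilter ℕ)
    (I : ℕ → Ideal (MvPolynomial κ k)) (hI : ∀ i, (I i).IsPrime)
    (hX : ∀ i j, (X j : MvPolynomial κ k) ∉ I i) (A : ℕ → Submodule ℤ (κ → ℤ))
    (hA : ∀ i b, b ∈ A i ↔ ∃ c : k, c ≠ 0 ∧ bc c b ∈ I i) (z a : ℕ)
    (hz : ∀ i, Cardinal.toNat (Algebra.trdeg k (MvPolynomial κ k ⧸ I i)) = z)
    (ha : ∀ i, Module.finrank ℤ (A i) = a) (Γ : Submodule ℤ (κ → ℤ))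
    (hΓ : ∀ b, b ∈ Γ ↔ ∀ᶠ i in (𝒰 : Filter ℕ), b ∈ A i) (Q : Finset κ) (D : ℕ)
    (hUA : ∀ i, ∀ j, UA D Q j (I i)) :
    a + z ≤ Q.card + Module.finrank ℤ Γ := by
  classical
  choose K fK cK aK x s Dv h1 h2 h3 using fun i => exists_funfield (hI := hI i) (I i) (hX i) z (hz i)
  obtain ⟨L, fL, cL, π, DL, hπ, hπ0, hD⟩ :=
    exists_uprod 𝒰 K z (fun i l => (Dv i l).restrictScalars ℤ)
  have hD' : ∀ l (f : ∀ i, K i), DL l (π f) = π (fun i => Dv i l (f i)) := hD
  have hπe : ∀ f g : ∀ i, K i, π f = π g ↔ ∀ᶠ i in (𝒰 : Filter ℕ), f i = g i := by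
    intro f g
    rw [← sub_eq_zero, ← map_sub, hπ0]
    simp only [Pi.sub_apply, sub_eq_zero]
  -- the constants
  let C : Subfield L :=
    { carrier := {f | ∀ l, DL l f = 0}
      mul_mem' := by
        intro a b ha hb l
        rw [Derivation.leibniz, ha l, hb l, smul_zero, smul_zero, add_zero]
      one_mem' := by intro l; simp
      add_mem' := by
        intro a b ha hb l
        rw [map_add, ha l, hb l, add_zero]
      zero_mem' := by intro l; simp
      neg_mem' := by
        intro a ha l
        rw [map_neg, ha l, neg_zero]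
      inv_mem' := by
        intro a ha l
        rw [Derivation.leibniz_inv, ha l, smul_zero] }
  have hC : ∀ f, f ∈ C ↔ ∀ l, DL l f = 0 := fun f => Iff.rfl
  have hCπ : ∀ g : ∀ i, K i, π g ∈ C ↔ ∀ᶠ i in (𝒰 : Filter ℕ), ∃ c : k, algebraMap k (K i) c = g i := by
    intro g
    rw [hC]
    simp only [hD', hπ0]
    rw [← Filter.eventually_all]
    apply Filter.eventually_congr
    filter_upwards with i
    constructor
    · intro h
      exact h3 i (g i) h
    · rintro ⟨c, hc⟩ l
      rw [← hc, Derivation.map_algebraMap]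
  -- the point
  let U : κ → (∀ i, K i)ˣ := fun j =>
    { val := fun i => (x i j : K i)
      inv := fun i => ((x i j)⁻¹ : (K i)ˣ)
      val_inv := by funext i; simp
      inv_val := by funext i; simp }
  let xs : κ → Lˣ := fun j => Units.map π.toMonoidHom (U j)
  have hxs : ∀ j, (xs j : L) = π (fun i => (x i j : K i)) := fun j => rfl
  have hch : ∀ b : κ → ℤ, (ch b xs : L) = π (fun i => (ch b (x i) : K i)) := by
    intro b
    have e1 : ch b xs = Units.map π.toMonoidHom (∏ j, U j ^ b j) := by
      unfold ch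
      rw [map_prod]
      simp only [map_zpow]
      rfl
    rw [e1]
    show π (((∏ j, U j ^ b j : (∀ i, K i)ˣ)) : ∀ i, K i) = _
    congr 1
    funext i
    have e2 : Units.map (Pi.evalRingHom K i).toMonoidHom (∏ j, U j ^ b j) = ch b (x i) := by
      unfold ch
      rw [map_prod]
      simp only [map_zpow]
      apply Finset.prod_congr rfl
      intro j _
      exact congrArg (fun u => u ^ b j) (Units.ext rfl)
    have e3 := congrArg Units.val e2
    exact e3
  have hAx : ∀ i b, b ∈ A i ↔ ∃ c : k, algebraMap k (K i) c = (ch b (x i) : K i) := by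
    intro i b
    rw [hA]
    constructor
    · rintro ⟨c, _, hc⟩
      exact ⟨c, (aeval_bc c b (x i)).mp ((h1 i _).mpr hc)⟩
    · rintro ⟨c, hc⟩
      refine ⟨c, ?_, (h1 i _).mp ((aeval_bc c b (x i)).mpr hc)⟩
      rintro rfl
      rw [map_zero] at hc
      exact (ch b (x i)).ne_zero hc.symm
  have hΓx : ∀ b, b ∈ Γ ↔ (ch b xs : L) ∈ C := by
    intro b
    rw [hΓ, hch, hCπ]
    simp only [hAx]
  -- the vectors
  obtain ⟨s0, hs0⟩ := b3_pigeon 𝒰 s
  have hv : LinearIndependent L (fun l : Fin z => fun j : κ => DL l (xs j : L) / (xs j : L)) := by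
    rw [Fintype.linearIndependent_iff]
    intro g hg m
    have e1 := congrFun hg (s0 m)
    simp only [Finset.sum_apply, Pi.smul_apply, smul_eq_mul, Pi.zero_apply] at e1
    have e2 : ∀ l, DL l (xs (s0 m) : L) = if l = m then 1 else 0 := by
      intro l
      rw [hxs, hD']
      have e3 : π (fun i => Dv i l (x i (s0 m) : K i)) = π (fun i => (if l = m then 1 else 0 : K i)) := by
        rw [hπe]
        filter_upwards [hs0] with i hi
        rw [← hi]
        exact h2 i l m
      rw [e3]
      split_ifs
      · exact map_one π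
      · exact map_zero π
    simp only [e2] at e1
    rw [Finset.sum_eq_single m] at e1
    · rw [if_pos rfl] at e1
      exact (mul_eq_zero.mp e1).resolve_right (by
        rw [one_div]
        exact inv_ne_zero (xs (s0 m)).ne_zero)
    · intro l _ hl
      rw [if_neg hl, zero_div, mul_zero]
    · intro h
      exact absurd (Finset.mem_univ m) h
  -- the relations
  choose b t hb hdet using fun i => b3_minor (A i) a (ha i)
  obtain ⟨t0, ht0⟩ := b3_pigeon 𝒰 t
  let lam : Fin a → κ → C := fun s j => ⟨π (fun i => ((b i s j : ℤ) : K i)), by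
    rw [hCπ]
    filter_upwards with i
    exact ⟨((b i s j : ℤ) : k), by simp⟩⟩
  have hlam : LinearIndependent C lam := by
    let N : Matrix (Fin a) (Fin a) C := fun s s' => lam s (t0 s')
    have hN : LinearIndependent C N.row := by
      rw [Matrix.linearIndependent_rows_iff_isUnit, Matrix.isUnit_iff_isUnit_det,
        isUnit_iff_ne_zero]
      intro h0
      let R : Matrix (Fin a) (Fin a) (∀ i, K i) := fun s s' => fun i => ((b i s (t0 s') : ℤ) : K i)
      have e1 : N.map C.subtype = R.map π := rfl
      have e2 : C.subtype N.det = π R.det := by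
        rw [RingHom.map_det, RingHom.map_det]
        exact congrArg Matrix.det e1
      rw [h0, map_zero, eq_comm, hπ0] at e2
      obtain ⟨i, hi1, hi2⟩ := (e2.and ht0).exists
      apply hdet i
      rw [hi2]
      have e3 : R.det i = ((Matrix.of fun s s' => b i s (t0 s')).det : K i) := by
        have e4 : (Pi.evalRingHom K i) R.det = (Int.castRingHom (K i))
            (Matrix.of fun s s' => b i s (t0 s')).det := by
          rw [RingHom.map_det, RingHom.map_det]
          rfl
        exact e4
      rw [e3] at hi1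
      exact_mod_cast hi1
    have e5 : N.row = (LinearMap.funLeft C C t0) ∘ lam := rfl
    rw [e5] at hN
    exact LinearIndependent.of_comp _ hN
  have hrel : ∀ s l, ∑ j, (lam s j : L) * (DL l (xs j : L) / (xs j : L)) = 0 := by
    intro s' l
    have e1 : ∀ j, (xs j : L)⁻¹ = π (fun i => (x i j : K i)⁻¹) := by
      intro j
      apply inv_eq_of_mul_eq_one_right
      rw [hxs, ← map_mul, ← map_one π]
      congr 1
      funext i
      exact mul_inv_cancel₀ (x i j).ne_zero
    have e2 : ∑ j, (lam s' j : L) * (DL l (xs j : L) / (xs j : L)) =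
        π (fun i => ∑ j, ((b i s' j : ℤ) : K i) * (Dv i l (x i j : K i) / (x i j : K i))) := by
      have e3 : (fun i => ∑ j, ((b i s' j : ℤ) : K i) * (Dv i l (x i j : K i) / (x i j : K i))) =
          ∑ j, (fun i => ((b i s' j : ℤ) : K i)) * ((fun i => Dv i l (x i j : K i)) *
            (fun i => (x i j : K i)⁻¹)) := by
        funext i
        rw [Finset.sum_apply]
        apply Finset.sum_congr rfl
        intro j _
        rw [div_eq_mul_inv]
        rfl
      rw [e3, map_sum]
      apply Finset.sum_congr rfl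
      intro j _
      rw [map_mul, map_mul, ← e1, ← hD', ← hxs, div_eq_mul_inv]
    rw [e2, hπ0]
    filter_upwards with i
    obtain ⟨c, hc⟩ := (hAx i (b i s')).mp (hb i s')
    have e4 := b3_log ((Dv i l).restrictScalars ℤ) (x i) (b i s')
    have e5 : ((Dv i l).restrictScalars ℤ) (ch (b i s') (x i) : K i) = 0 := by
      rw [← hc]
      exact Derivation.map_algebraMap _ _
    rw [e5, zero_div] at e4
    exact e4.symm
  have hQ : ∀ δ : Derivation C L L, (∀ q ∈ Q, δ (xs q : L) = 0) → ∀ j, δ (xs j : L) = 0 := by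
    intro δ hδ j
    choose p hp1 hp2 e0 hp3 using fun i => hUA i j
    obtain ⟨e1, he1⟩ := b3_pigeon 𝒰 e0
    let c : Fin (D + 1) → L := fun e => π (fun i => aeval (fun q : Q => (x i q : K i)) (p i e))
    apply b3_alg' δ c _ (xs j : L)
    · have e2 : ∑ e, c e * (xs j : L) ^ (e : ℕ) =
          π (fun i => aeval (fun j => (x i j : K i)) (∑ e, rename (Subtype.val : Q → κ) (p i e) *
            X j ^ (e : ℕ))) := by
        have e3 : (fun i => aeval (fun j => (x i j : K i)) (∑ e, rename (Subtype.val : Q → κ) (p i e) *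
            X j ^ (e : ℕ))) = ∑ e : Fin (D + 1), (fun i => aeval (fun q : Q => (x i q : K i)) (p i e)) *
              (fun i => (x i j : K i)) ^ (e : ℕ) := by
          funext i
          rw [Finset.sum_apply, map_sum]
          apply Finset.sum_congr rfl
          intro e _
          rw [map_mul, aeval_rename, map_pow, aeval_X]
          rfl
        rw [e3, map_sum]
        apply Finset.sum_congr rfl
        intro e _
        rw [map_mul, map_pow]
        rfl
      rw [e2, hπ0]
      filter_upwards with i
      exact (h1 i _).mpr (hp2 i)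
    · refine ⟨e1, ?_⟩
      intro h0
      have e4 := (hπ0 _).mp h0
      obtain ⟨i, hi1, hi2⟩ := (e4.and he1).exists
      apply hp3 i
      rw [hi2]
      apply (h1 i _).mp
      rw [aeval_rename]
      exact hi1
    · intro e
      have e5 : c e = ∑ d : Q → Fin (D + 1), π (fun i => algebraMap k (K i)
          (coeff (Finsupp.equivFunOnFinite.symm (fun j => (d j : ℕ))) (p i e))) *
            ∏ q : Q, (xs q : L) ^ (d q : ℕ) := by
        have e6 : (fun i => aeval (fun q : Q => (x i q : K i)) (p i e)) =
            ∑ d : Q → Fin (D + 1), (fun i => algebraMap k (K i)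
          (coeff (Finsupp.equivFunOnFinite.symm (fun j => (d j : ℕ))) (p i e))) *
            ∏ q : Q, (fun i => (x i q : K i)) ^ (d q : ℕ) := by
          funext i
          rw [b3_expand D (p i e) (hp1 i e), Finset.sum_apply]
          apply Finset.sum_congr rfl
          intro d _
          rw [Pi.mul_apply, Finset.prod_apply]
          rfl
        show π (fun i => aeval (fun q : Q => (x i q : K i)) (p i e)) = _
        rw [e6, map_sum]
        apply Finset.sum_congr rfl
        intro d _
        rw [map_mul, map_prod]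
        simp only [map_pow]
        rfl
      rw [e5, map_sum]
      apply Finset.sum_eq_zero
      intro d _
      rw [Derivation.leibniz]
      have e7 : δ (π (fun i => algebraMap k (K i)
          (coeff (Finsupp.equivFunOnFinite.symm (fun j => (d j : ℕ))) (p i e)))) = 0 := by
        have e8 : π (fun i => algebraMap k (K i)
          (coeff (Finsupp.equivFunOnFinite.symm (fun j => (d j : ℕ))) (p i e))) ∈ C := by
          rw [hCπ]
          filter_upwards with i
          exact ⟨_, rfl⟩
        exact δ.map_algebraMap ⟨_, e8⟩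
      have e9 : δ (∏ q : Q, (xs q : L) ^ (d q : ℕ)) = 0 := by
        apply Finset.prod_induction (fun q : Q => (xs q : L) ^ (d q : ℕ)) (fun f => δ f = 0)
        · intro u v hu hv'
          rw [Derivation.leibniz, hu, hv', smul_zero, smul_zero, add_zero]
        · exact δ.map_one_eq_zero
        · intro q _
          rw [Derivation.leibniz_pow, hδ q q.2, smul_zero, smul_zero]
      rw [e7, e9, smul_zero, smul_zero, add_zero]
  exact ax DL xs C hC Γ hΓx hv lam hlam hrel Q hQ

/-- The uniform Ax inequality for families of irreducible varieties. -/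
theorem uax {k κ : Type} [Field k] [CharZero k] [IsAlgClosed k] [Fintype κ] (𝒰 : Ultrafilter ℕ)
    (I : ℕ → Ideal (MvPolynomial κ k)) (hI : ∀ i, (I i).IsPrime)
    (hX : ∀ i j, (X j : MvPolynomial κ k) ∉ I i) (A : ℕ → Submodule ℤ (κ → ℤ))
    (hA : ∀ i b, b ∈ A i ↔ ∃ c : k, c ≠ 0 ∧ bc c b ∈ I i) (z a : ℕ)
    (hz : ∀ᶠ i in (𝒰 : Filter ℕ), Cardinal.toNat (Algebra.trdeg k (MvPolynomial κ k ⧸ I i)) = z)
    (ha : ∀ᶠ i in (𝒰 : Filter ℕ), Module.finrank ℤ (A i) = a) (Γ : Submodule ℤ (κ → ℤ))
    (hΓ : ∀ b, b ∈ Γ ↔ ∀ᶠ i in (𝒰 : Filter ℕ), b ∈ A i) (Q : Finset κ) (D : ℕ)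
    (hUA : ∀ᶠ i in (𝒰 : Filter ℕ), ∀ j, UA D Q j (I i)) :
    a + z ≤ Q.card + Module.finrank ℤ Γ := by
  classical
  have hall := (hz.and ha).and hUA
  obtain ⟨i0, hi0⟩ := hall.exists
  let P : ℕ → Prop := fun i => (Cardinal.toNat (Algebra.trdeg k (MvPolynomial κ k ⧸ I i)) = z ∧
    Module.finrank ℤ (A i) = a) ∧ ∀ j, UA D Q j (I i)
  let g : ℕ → ℕ := fun i => if P i then i else i0
  have hg : ∀ i, P (g i) := by
    intro i
    by_cases h : P i
    · have : g i = i := if_pos h
      rw [this]
      exact h
    · have : g i = i0 := if_neg h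
      rw [this]
      exact hi0
  have hge : ∀ᶠ i in (𝒰 : Filter ℕ), g i = i := by
    filter_upwards [hall] with i hi
    exact if_pos hi
  apply uax_aux 𝒰 (fun i => I (g i)) (fun i => hI (g i)) (fun i => hX (g i)) (fun i => A (g i))
    (fun i => hA (g i)) z a (fun i => (hg i).1.1) (fun i => (hg i).1.2) Γ _ Q D (fun i => (hg i).2)
  intro b
  rw [hΓ]
  apply Filter.eventually_congr
  filter_upwards [hge] with i hi
  rw [hi]

end Pool.Agent.ZPA
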