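import Mathlib
import Pool.Agent.ZPA.Defs

set_option autoImplicit false

open MvPolynomial

namespace Pool.Agent.ZPA

open Pool.Agent.MP_dd1803_nt

theorem c1_poly {k A ι : Type} [Field k] [CommRing A] [Algebra k A] (g : ι → A) {a : A}
    (ha : IsAlgebraic (Algebra.adjoin k (Set.range g)) a) :
    ∃ (D : ℕ) (G : Fin (D + 1) → MvPolynomial ι k), ∑ e, aeval g (G e) * a ^ (e : ℕ) = 0 ∧
      ∃ e, aeval g (G e) ≠ 0 := by
  obtain ⟨P, hP0, hPa⟩ := ha
  have hmem : ∀ c : A, c ∈ Algebra.adjoin k (Set.range g) → ∃ G : MvPolynomial ι k, aeval g G = c := by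
    intro c hc
    rw [Algebra.adjoin_range_eq_range_aeval] at hc
    exact hc
  have hex : ∀ e : Fin (P.natDegree + 1), ∃ G : MvPolynomial ι k, aeval g G = (P.coeff e : A) :=
    fun e => hmem _ (P.coeff e).2
  choose G hG using hex
  refine ⟨P.natDegree, G, ?_, ⟨P.natDegree, Nat.lt_succ_self _⟩, ?_⟩
  · rw [← hPa, Polynomial.aeval_eq_sum_range, Finset.sum_range]
    refine Finset.sum_congr rfl fun e _ => ?_
    rw [hG, Algebra.smul_def]
    rfl
  · rw [hG]
    intro h
    apply hP0
    rw [← Polynomial.leadingCoeff_eq_zero]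
    exact Subtype.ext h

theorem c1_alg {k A κ : Type} [Field k] [CommRing A] [IsDomain A] [Algebra k A] [Fintype κ] {r : ℕ}
    (gl : κ → A) (gr : Fin r → A) (s1 : Set (Fin r))
    (hind : AlgebraicIndependent k (fun i : s1 => gr (i : Fin r)))
    (hA : Algebra.IsAlgebraic (Algebra.adjoin k (Set.range gl)) A) :
    ∃ Q : Finset κ, Q.card + s1.ncard = Cardinal.toNat (Algebra.trdeg k A) ∧
      ∀ a : A, IsAlgebraic (Algebra.adjoin k
        (Set.range (Sum.elim (fun q : Q => gl (q : κ)) gr))) a := by
  classical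
  obtain ⟨S1, hS1⟩ : ∃ S1, S1 = Set.range (fun i : s1 => gr (i : Fin r)) := ⟨_, rfl⟩
  have hS1i : AlgebraicIndepOn k id S1 := by
    have h1 := hind.to_subtype_range
    rw [← hS1] at h1
    exact h1
  have hT : Algebra.IsAlgebraic (Algebra.adjoin k (S1 ∪ Set.range gl)) A := by
    constructor
    intro a
    refine IsAlgebraic.adjoin_of_forall_isAlgebraic (s := Set.range gl) ?_ (hA.isAlgebraic a)
    rintro x ⟨h1, h2⟩
    exact absurd (Or.inr h1) h2
  obtain ⟨U, hU1, hU2, hU⟩ := exists_isTranscendenceBasis_between S1 (S1 ∪ Set.range gl)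
    Set.subset_union_left hS1i
  have hfin : U.Finite := by
    refine Set.Finite.subset ?_ hU2
    rw [hS1]
    exact (Set.finite_range _).union (Set.finite_range _)
  have hsub : U \ S1 ⊆ gl '' Set.univ := by
    rintro x ⟨h1, h2⟩
    rcases hU2 h1 with h3 | ⟨j, rfl⟩
    · exact absurd h3 h2
    · exact ⟨j, trivial, rfl⟩
  obtain ⟨Q, -, hbij⟩ := (Set.surjOn_image gl Set.univ).mono le_rfl hsub |>.exists_bijOn_subset
  refine ⟨Q.toFinset, ?_, ?_⟩
  · have h1 : Set.ncard U = Cardinal.toNat (Algebra.trdeg k A) := by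
      rw [← hU.cardinalMk_eq_trdeg]
      rfl
    have h2 : S1.ncard = s1.ncard := by
      have h3 : S1 = gr '' s1 := by
        rw [hS1]
        ext x
        simp
      have h4 : Set.InjOn gr s1 := by
        intro a ha b hb hab
        have := hind.injective (a₁ := ⟨a, ha⟩) (a₂ := ⟨b, hb⟩) hab
        exact congrArg Subtype.val this
      rw [h3, h4.ncard_image]
    have h3 : Q.toFinset.card = (U \ S1).ncard := by
      rw [← hbij.image_eq, hbij.injOn.ncard_image, Set.ncard_eq_toFinset_card']
    rw [h3, ← h2, ← h1]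
    exact Set.ncard_sdiff_add_ncard_of_subset hU1 hfin
  · intro a
    have h1 : IsAlgebraic (Algebra.adjoin k U) a := by
      have h2 := hU.isAlgebraic
      rw [Subtype.range_coe] at h2
      exact h2.isAlgebraic a
    refine IsAlgebraic.adjoin_of_forall_isAlgebraic (s := U) ?_ h1
    rintro x ⟨hx, hx2⟩
    exfalso
    apply hx2
    by_cases hxS : x ∈ S1
    · rw [hS1] at hxS
      obtain ⟨i, rfl⟩ := hxS
      exact ⟨Sum.inr i, rfl⟩
    · obtain ⟨q, hq, rfl⟩ := hbij.surjOn ⟨hx, hxS⟩
      exact ⟨Sum.inl ⟨q, Set.mem_toFinset.2 hq⟩, rfl⟩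

/-- Row C1. Algebraic relations of the coordinates over a monomial map.

Proof. Let `u = phi b`, a rational map (`ratMap_mono`, `phi b x = mono b 1 x`), and let
`X' = gr u '' Y` (`gr u x = Sum.elim x (u x)`, file `Mono.lean`), irreducible (`PIrr.image`,
`RatMap.gr`), a subset of the torus with index set `κ ⊕ Fin r`. In the domain
`A = MvPolynomial (κ ⊕ Fin r) k ⧸ vI k X'` (`vI_isPrime`) with generators `gen k X' i`:
* every `gen k X' (inr n)` is algebraic over the subalgebra generated by the `gen k X' (inl j)`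
  (it satisfies the equation `w * ∏ x_j ^ (-b n j)^+ = ∏ x_j ^ (b n j)^+`, `gen_ne_zero`), so the
  set `G1 = range (gen k X' ∘ inl)` has `A` algebraic over its adjoin; cf. `exists_basis` in
  `Dim.lean` for the argument that all of `A` is algebraic as soon as all generators are.
* `td k X' = td k Y`: `≤` is what is needed. By `exists_basis` with `s0 = range inl` there is an
  independent set `s ⊆ range inl` with `s.ncard = td k X'`; it is independent on
  `pull inl '' X' = Y` (`pull_inl_gr`, `IndF.image`, see `td_le_pull` in `Push.lean` which may give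
  this directly: `td_le_pull hX' Sum.inl_injective (range inl) halg`).
* Let `s1 : Set (Fin r)` with `Ind k (phi b '' Y) s1` and `s1.ncard = td k (phi b '' Y)`
  (`exists_basis'`). The elements `gen k X' (inr n)`, `n ∈ s1` are algebraically independent
  (`pull_inr_gr`). Extend the set of these elements by elements of `G1` to a transcendence basis of
  `A` over `k` (`exists_isTranscendenceBasis_between` or `AlgebraicIndependent.matroid` tools):
  its cardinality is `td k X'`, so the added part is the image of a finset `Q` of `κ`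
  (choose preimages, injectively) with `Q.card + s1.ncard ≤ td k X' ≤ td k Y`.
* Every `gen k X' (inl j)` is algebraic over `Algebra.adjoin k (basis)`: there is a nonzero
  polynomial over this subalgebra killing it; its coefficients are `aeval` of polynomials
  `G e : MvPolynomial (Q ⊕ Fin r) k` at the generators (`Algebra.adjoin_range_eq_range_aeval` or
  `Algebra.adjoin_le` with the range of `aeval`), `e ≤ D = degree`. A polynomial expression in the
  generators is zero in `A` iff it vanishes at all points of `X'` (`mem_vI`,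
  `Ideal.Quotient.eq_zero_iff_mem`), i.e. at all `Sum.elim x (phi b x)`, `x ∈ Y`. -/
theorem fibre_rel {F : Type} [Field F] {k : Type} [Field k] [Algebra k F] {κ : Type} [Fintype κ]
    {Y : Set (κ → Fˣ)} (hY : PIrr Y) {r : ℕ} (b : Fin r → κ → ℤ) :
    ∃ Q : Finset κ, Q.card + td k (phi b '' Y) ≤ td k Y ∧
      ∀ j, ∃ (D : ℕ) (G : Fin (D + 1) → MvPolynomial (Q ⊕ Fin r) k),
        (∀ x ∈ Y, ∑ e, aeval (Sum.elim (fun q : Q => (x q : F)) (fun n => (phi b x n : F))) (G e) *
          (x j : F) ^ (e : ℕ) = 0) ∧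
        ∃ e, ∃ x ∈ Y, aeval (Sum.elim (fun q : Q => (x q : F)) (fun n => (phi b x n : F))) (G e) ≠ 0 := by
  classical
  have hX' : PIrr (gr (phi b) '' Y) := by
    apply hY.image
    have h1 : phi b = mono b (1 : Fin r → Fˣ) := by
      funext x i
      simp [phi, mono]
    rw [h1]
    exact (ratMap_mono Y b 1).gr
  obtain ⟨X', hXX⟩ : ∃ X', X' = gr (phi b) '' Y := ⟨_, rfl⟩
  rw [← hXX] at hX'
  have hP := vI_isPrime (k := k) hX'
  have hdom : IsDomain (MvPolynomial (κ ⊕ Fin r) k ⧸ vI k X') := Ideal.Quotient.isDomain _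
  -- generators
  have halg : ∀ i, IsAlgebraic (Algebra.adjoin k (gen k X' '' Set.range Sum.inl)) (gen k X' i) := by
    rintro (j | n)
    · exact isAlgebraic_algebraMap (⟨gen k X' (Sum.inl j), Algebra.subset_adjoin ⟨_, ⟨j, rfl⟩, rfl⟩⟩ :
        Algebra.adjoin k (gen k X' '' Set.range Sum.inl))
    · have hm : (inrM (Pi.single n 1) - inlM (b n) : κ ⊕ Fin r → ℤ) ∈ Lam X' := by
        rw [mem_Lam]
        refine ⟨1, one_pos, ?_⟩
        intro x hx
        rw [hXX] at hx
        obtain ⟨y, hy, rfl⟩ := hx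
        rw [pow_one, sub_eq_add_neg, ch_add, ch_neg, ch_inlM, ch_inrM, ch_single, zpow_one]
        have h1 : (gr (phi b) y ∘ Sum.inr) n = ch (b n) y := rfl
        have h2 : gr (phi b) y ∘ Sum.inl = y := rfl
        rw [h1, h2, mul_inv_cancel]
      refine gen_alg_of_torsion hX' hm (i0 := Sum.inr n) ?_ _ ?_
      · simp [inrM, inlM]
      · rintro (j | n') h1 h2
        · exact ⟨j, rfl⟩
        · exfalso
          apply h2
          have h3 : n' ≠ n := fun h => h1 (congrArg Sum.inr h)
          show (Pi.single n 1 : Fin r → ℤ) n' - 0 = 0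
          rw [Pi.single_eq_of_ne h3, sub_zero]
  have htd : td k X' ≤ td k Y := by
    have h1 := td_le_pull (k := k) hX' (e := (Sum.inl : κ → κ ⊕ Fin r)) Sum.inl_injective
      (Set.range Sum.inl) halg
    rw [Set.sdiff_self, Set.ncard_empty, add_zero, hXX, pull_inl_gr] at h1
    rw [hXX]
    exact h1
  have hY' : PIrr (phi b '' Y) := by
    have h1 := hX'.pull (Sum.inr : Fin r → κ ⊕ Fin r)
    rwa [hXX, pull_inr_gr] at h1
  obtain ⟨s1, hs1, hc1⟩ := exists_basis' (k := k) hY'
  have hind : AlgebraicIndependent k (fun i : s1 => gen k X' (Sum.inr (i : Fin r))) := by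
    have h1 : IndF k X' (fun i : s1 => (Sum.inr (i : Fin r) : κ ⊕ Fin r)) := by
      intro p hp
      rw [ind_iff_indF] at hs1
      apply hs1
      rintro _ ⟨y, hy, rfl⟩
      exact hp (gr (phi b) y) (by rw [hXX]; exact ⟨y, hy, rfl⟩)
    exact indF_iff.1 h1
  have halg2 : Algebra.IsAlgebraic (Algebra.adjoin k (Set.range fun j => gen k X' (Sum.inl j)))
      (MvPolynomial (κ ⊕ Fin r) k ⧸ vI k X') := by
    have h1 : gen k X' '' Set.range Sum.inl = Set.range fun j => gen k X' (Sum.inl j) := by
      rw [← Set.range_comp]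
      rfl
    rw [h1] at halg
    constructor
    intro a
    obtain ⟨p, rfl⟩ := Ideal.Quotient.mk_surjective a
    induction p using MvPolynomial.induction_on with
    | C c =>
      exact isAlgebraic_algebraMap
        (⟨algebraMap k _ c, Subalgebra.algebraMap_mem _ c⟩ :
          Algebra.adjoin k (Set.range fun j => gen k X' (Sum.inl j)))
    | add p q hp hq =>
      rw [map_add]
      exact hp.add hq
    | mul_X p i hp =>
      rw [map_mul]
      exact hp.mul (halg i)
  obtain ⟨Q, hQ, hQa⟩ := c1_alg (fun j => gen k X' (Sum.inl j)) (fun n => gen k X' (Sum.inr n)) s1 hind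
    halg2
  refine ⟨Q, ?_, ?_⟩
  · rw [← hc1, hQ]
    exact htd
  intro j
  obtain ⟨D, G, h1, e, h2⟩ := c1_poly _ (hQa (gen k X' (Sum.inl j)))
  have key : ∀ p : MvPolynomial (Q ⊕ Fin r) k,
      aeval (Sum.elim (fun q : Q => gen k X' (Sum.inl (q : κ))) (fun n => gen k X' (Sum.inr n))) p =
        Ideal.Quotient.mkₐ k (vI k X') (rename (Sum.map (fun q : Q => (q : κ)) id) p) := by
    intro p
    rw [MvPolynomial.rename_eq_aeval, MvPolynomial.comp_aeval_apply]
    congr 2
    funext i
    rcases i with i | i <;> rfl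
  have key2 : ∀ (p : MvPolynomial (Q ⊕ Fin r) k) (x : κ → Fˣ),
      aeval (co (gr (phi b) x)) (rename (Sum.map (fun q : Q => (q : κ)) id) p) =
        aeval (Sum.elim (fun q : Q => (x q : F)) (fun n => (phi b x n : F))) p := by
    intro p x
    rw [aeval_rename]
    congr 2
    funext i
    rcases i with i | i <;> rfl
  refine ⟨D, G, ?_, e, ?_⟩
  · intro x hx
    have h3 : (∑ e, rename (Sum.map (fun q : Q => (q : κ)) id) (G e) * X (Sum.inl j) ^ (e : ℕ)) ∈
        vI k X' := by
      rw [← Ideal.Quotient.eq_zero_iff_mem]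
      change Ideal.Quotient.mkₐ k (vI k X') _ = 0
      rw [map_sum, ← h1]
      refine Finset.sum_congr rfl fun e _ => ?_
      rw [map_mul, map_pow, key]
      rfl
    rw [mem_vI] at h3
    have h4 := h3 (gr (phi b) x) (by rw [hXX]; exact ⟨x, hx, rfl⟩)
    rw [map_sum] at h4
    rw [← h4]
    refine Finset.sum_congr rfl fun e _ => ?_
    rw [map_mul, map_pow, aeval_X, key2]
    rfl
  · by_contra hcon
    push Not at hcon
    apply h2
    rw [key]
    change Ideal.Quotient.mk (vI k X') _ = 0
    rw [Ideal.Quotient.eq_zero_iff_mem, mem_vI, hXX]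
    rintro _ ⟨x, hx, rfl⟩
    rw [key2]
    exact hcon x hx

end Pool.Agent.ZPA
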