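import Mathlib
import Pool.Agent.ZPA.Defs
import Pool.Agent.ZPA.C1

set_option autoImplicit false

open MvPolynomial

namespace Pool.Agent.ZPA

open Pool.Agent.MP_dd1803_nt

theorem c2_ch {F : Type} [Field F] {κ : Type} [Fintype κ] (m : κ → ℤ) (x : κ → Fˣ) :
    (ch m x : F) * ∏ i, (x i : F) ^ (-m i).toNat = ∏ i, (x i : F) ^ (m i).toNat := by
  unfold ch
  rw [Units.coe_prod, ← Finset.prod_mul_distrib]
  apply Finset.prod_congr rfl
  intro i _
  have h1 : x i ^ m i * x i ^ (-m i).toNat = x i ^ (m i).toNat := by
    rw [← zpow_natCast, ← zpow_natCast, ← zpow_add]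
    congr 1
    rw [Int.toNat_eq_max, Int.toNat_eq_max]
    omega
  have h2 := congrArg (Units.val) h1
  push_cast at h2
  rw [Units.val_zpow_eq_zpow_val]
  exact h2

theorem c2_clear {F : Type} [Field F] {k : Type} [Field k] [Algebra k F] {κ : Type} [Fintype κ]
    {r : ℕ} (b : Fin r → κ → ℤ) (Q : Finset κ) (H : MvPolynomial (Q ⊕ Fin r) k) :
    ∃ h m : MvPolynomial κ k, (∀ x : κ → Fˣ, aeval (co x) m ≠ 0) ∧
      ∀ x : κ → Fˣ, aeval (co x) h = aeval (co x) m *
        aeval (Sum.elim (fun q : Q => (x q : F)) (fun n => (phi b x n : F))) H := by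
  induction H using MvPolynomial.induction_on with
  | C a =>
    refine ⟨C a, 1, fun x => by simp, fun x => ?_⟩
    rw [map_one, one_mul, aeval_C, aeval_C]
  | add p q hp hq =>
    obtain ⟨h1, m1, hm1, e1⟩ := hp
    obtain ⟨h2, m2, hm2, e2⟩ := hq
    refine ⟨h1 * m2 + h2 * m1, m1 * m2, fun x => ?_, fun x => ?_⟩
    · rw [map_mul]
      exact mul_ne_zero (hm1 x) (hm2 x)
    · rw [map_add, map_mul, map_mul, map_mul, map_add, e1 x, e2 x]
      ring
  | mul_X p i hp =>
    obtain ⟨h1, m1, hm1, e1⟩ := hp
    rcases i with q | n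
    · refine ⟨h1 * X (q : κ), m1, hm1, fun x => ?_⟩
      rw [map_mul, map_mul, e1 x, aeval_X, aeval_X, Sum.elim_inl, co_apply]
      ring
    · refine ⟨h1 * ∏ i, X i ^ (b n i).toNat, m1 * ∏ i, X i ^ (-b n i).toNat, fun x => ?_,
        fun x => ?_⟩
      · rw [map_mul, map_prod]
        apply mul_ne_zero (hm1 x)
        apply Finset.prod_ne_zero_iff.mpr
        intro i _
        rw [map_pow, aeval_X]
        exact pow_ne_zero _ (co_ne_zero x i)
      · rw [map_mul, map_mul, map_mul, map_prod, map_prod, e1 x, aeval_X, Sum.elim_inr]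
        simp only [map_pow, aeval_X, co_apply]
        have h2 := c2_ch (F := F) (b n) x
        rw [← h2]
        unfold phi
        ring

theorem c2_deg {k : Type} [Field k] {σ τ : Type} (f : σ → MvPolynomial τ k)
    (hf : ∀ i, (f i).totalDegree ≤ 1) (p : MvPolynomial σ k) :
    (aeval f p).totalDegree ≤ p.totalDegree := by
  rw [aeval_def, eval₂_eq]
  apply totalDegree_finsetSum_le
  intro d hd
  refine (totalDegree_mul _ _).trans ?_
  rw [MvPolynomial.algebraMap_eq, totalDegree_C, zero_add]
  refine (totalDegree_finsetProd _ _).trans ?_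
  refine le_trans ?_ (le_totalDegree hd)
  rw [Finsupp.sum]
  apply Finset.sum_le_sum
  intro i _
  refine (totalDegree_pow _ _).trans ?_
  calc d i * (f i).totalDegree ≤ d i * 1 := Nat.mul_le_mul_left _ (hf i)
    _ = d i := mul_one _

/-- Row C2. Uniform algebraicity on the fibres of a monomial map.

Proof. Take `Q` and, for every `j`, the data `D j`, `G j : Fin (D j + 1) → ..`, `e j`, from Row C1
(`fibre_rel`). Clearing denominators: for a polynomial `H : MvPolynomial (Q ⊕ Fin r) k` there are
a polynomial `h : MvPolynomial κ k` and a monomial `m : MvPolynomial κ k` (a product of powers of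
the `X i`) with `aeval (co x) h = aeval (co x) m * aeval (Sum.elim (x q) (phi b x n)) H` for all
points `x` of the torus (induction on `H`; `phi b x n = ∏ x_i ^ (b n i)` is the quotient of the two
monomials with exponents `(b n i).toNat` and `(- b n i).toNat`, see `aeval_bn` and `ratOn_ch` in
`Lattice.lean`). Let `h j` be the polynomial so obtained from `G j (e j)`; it is not in `vI k Y`
(`mem_vI`, it does not vanish at the point given by C1; monomials do not vanish on the torus), and
let `l = ∏ j, h j`, not in the prime ideal `vI k Y` (`vI_isPrime`).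
Now let `Z ⊆ Y`, `l ∉ vI k Z`, and `ch (b n) x = algebraMap k F (c n)` on `Z`. For each `j` let
`p e = aeval (Sum.elim X (fun n => C (c n))) (G j e) : MvPolynomial Q k` (substitute constants for
the second kind of variables), so that for `x ∈ Z`,
`aeval (x q) (p e) = aeval (Sum.elim (x q) (phi b x n)) (G j e)`. Then
`∑ e, rename _ (p e) * X j ^ e` vanishes on `Z`, and `rename _ (p (e j))` does not vanish on all of
`Z` because `l`, hence `h j`, does not (`vI k Z` prime, `h j ∉ vI k Z`). The total degree of `p e`
is at most that of `G j e`, independent of `Z`: let `D` be the maximum over all `j` and `e` of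
`D j` and `(G j e).totalDegree`; extend `p` by zero from `Fin (D j + 1)` to `Fin (D + 1)`. -/
theorem fibre {F : Type} [Field F] {k : Type} [Field k] [Algebra k F] {κ : Type} [Fintype κ]
    {Y : Set (κ → Fˣ)} (hY : PIrr Y) {r : ℕ} (b : Fin r → κ → ℤ) :
    ∃ (Q : Finset κ) (D : ℕ) (l : MvPolynomial κ k), Q.card + td k (phi b '' Y) ≤ td k Y ∧
      l ∉ vI k Y ∧ ∀ Z ⊆ Y, PIrr Z → l ∉ vI k Z →
        (∀ n, ∃ c : k, ∀ x ∈ Z, (ch (b n) x : F) = algebraMap k F c) → ∀ j, UA D Q j (vI k Z) := by
  classical
  obtain ⟨Q, hQ, hj⟩ := fibre_rel (F := F) (k := k) hY b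
  choose D G hG e x0 hx0 hne using hj
  choose h m hm hh using fun j => c2_clear (F := F) (k := k) b Q (G j (e j))
  refine ⟨Q, (∑ j, D j) + ∑ j, ∑ e, (G j e).totalDegree, ∏ j, h j, hQ, ?_, ?_⟩
  · intro hmem
    have hp := vI_isPrime (k := k) hY
    rw [Ideal.IsPrime.prod_mem_iff] at hmem
    obtain ⟨j, _, hj⟩ := hmem
    have h1 := mem_vI.mp hj (x0 j) (hx0 j)
    rw [hh j] at h1
    exact mul_ne_zero (hm j _) (hne j) h1
  · intro Z hZY hZ hl hc j
    choose c hc using hc
    have hDj : D j ≤ ∑ j, D j := Finset.single_le_sum (f := D) (fun _ _ => Nat.zero_le _)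
      (Finset.mem_univ j)
    have hGj : ∀ e, (G j e).totalDegree ≤ ∑ j, ∑ e, (G j e).totalDegree := by
      intro e
      refine le_trans ?_ (Finset.single_le_sum (f := fun j => ∑ e, (G j e).totalDegree)
        (fun _ _ => Nat.zero_le _) (Finset.mem_univ j))
      exact Finset.single_le_sum (f := fun e => (G j e).totalDegree) (fun _ _ => Nat.zero_le _)
        (Finset.mem_univ e)
    set DD := (∑ j, D j) + ∑ j, ∑ e, (G j e).totalDegree with hDD
    let sub : Q ⊕ Fin r → MvPolynomial Q k := Sum.elim X (fun n => C (c n))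
    have hsub : ∀ i, (sub i).totalDegree ≤ 1 := by
      rintro (q | n)
      · exact (totalDegree_X (R := k) q).le
      · change (C (c n) : MvPolynomial Q k).totalDegree ≤ 1
        rw [totalDegree_C]
        exact Nat.zero_le _
    let P : ℕ → MvPolynomial Q k := fun i => if hi : i < D j + 1 then aeval sub (G j ⟨i, hi⟩) else 0
    have hP : ∀ i : Fin (D j + 1), P i = aeval sub (G j i) := by
      intro i
      simp only [P, dif_pos i.isLt]
    have hev : ∀ x ∈ Z, ∀ e, aeval (co x) (rename (Subtype.val : Q → κ) (aeval sub (G j e))) =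
        aeval (Sum.elim (fun q : Q => (x q : F)) (fun n => (phi b x n : F))) (G j e) := by
      intro x hx e
      rw [aeval_rename, comp_aeval_apply]
      congr 1
      apply congrArg
      funext i
      rcases i with q | n
      · change aeval _ (X q : MvPolynomial Q k) = _
        rw [aeval_X]
        rfl
      · change aeval _ (C (c n) : MvPolynomial Q k) = _
        rw [aeval_C, ← hc n x hx]
        rfl
    refine ⟨fun e => P e, ?_, ?_, ?_⟩
    · intro e
      by_cases hi : (e : ℕ) < D j + 1
      · simp only [P, dif_pos hi]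
        refine (c2_deg sub hsub _).trans ((hGj _).trans ?_)
        exact Nat.le_add_left _ _
      · simp only [P, dif_neg hi, totalDegree_zero]
        exact Nat.zero_le _
    · have hsum : (∑ e : Fin (DD + 1), rename (Subtype.val : Q → κ) (P e) * X j ^ (e : ℕ)) =
          ∑ e : Fin (D j + 1), rename (Subtype.val : Q → κ) (aeval sub (G j e)) * X j ^ (e : ℕ) := by
        rw [← Finset.sum_range (fun i => rename (Subtype.val : Q → κ) (P i) *
          (X j : MvPolynomial κ k) ^ i)]
        rw [← Finset.sum_subset (s₁ := Finset.range (D j + 1))]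
        · rw [Finset.sum_range]
          apply Finset.sum_congr rfl
          intro i _
          rw [hP i]
        · intro i hi
          rw [Finset.mem_range] at *
          omega
        · intro i _ hi
          rw [Finset.mem_range] at hi
          simp only [P, dif_neg hi, map_zero, zero_mul]
      rw [hsum, mem_vI]
      intro x hx
      rw [map_sum]
      simp only [map_mul, map_pow, aeval_X, hev x hx, co_apply]
      exact hG j x (hZY hx)
    · refine ⟨⟨e j, by omega⟩, ?_⟩
      intro hmem
      apply hl
      have h1 : h j ∈ vI k Z := by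
        rw [mem_vI]
        intro x hx
        have h2 := mem_vI.mp hmem x hx
        change aeval (co x) (rename (Subtype.val : Q → κ) (P (e j : ℕ))) = 0 at h2
        rw [hP (e j), hev x hx] at h2
        rw [hh j, h2, mul_zero]
      exact Ideal.prod_mem (I := vI k Z) (Finset.mem_univ j) h1

end Pool.Agent.ZPA
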