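import Mathlib
import Pool.Agent.ZPA.Defs
import Pool.Agent.ZPA.B3
import Pool.Agent.ZPA.C2

set_option autoImplicit false

open MvPolynomial

namespace Pool.Agent.ZPA

open Pool.Agent.MP_dd1803_nt

/-- rank inequality for a linear map and a submodule of the target -/
theorem d1_rank {R M N : Type} [CommRing R] [IsDomain R] [IsNoetherianRing R] [AddCommGroup M]
    [AddCommGroup N] [Module R M] [Module R N] [Module.Finite R M] [Module.Finite R N]
    (g : M →ₗ[R] N) (N' : Submodule R N) :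
    Module.finrank R M + Module.finrank R N' ≤
      Module.finrank R (N'.comap g) + Module.finrank R N := by
  have h1 := finrank_le_ker_add (N'.mkQ.comp g)
  have h2 : LinearMap.ker (N'.mkQ.comp g) = N'.comap g := by
    rw [LinearMap.ker_comp, Submodule.ker_mkQ]
  rw [h2] at h1
  have h3 := Submodule.finrank_le (LinearMap.range (N'.mkQ.comp g))
  have h4 := Submodule.finrank_quotient_add_finrank N'
  omega

/-- a basis of a lattice modulo a saturated sublattice -/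
theorem d1_basis {κ : Type} [Fintype κ] (Λ Γ : Submodule ℤ (κ → ℤ)) (hle : Λ ≤ Γ)
    (hsat : ∀ (n : ℤ) (m : κ → ℤ), n ≠ 0 → n • m ∈ Λ → m ∈ Λ) :
    ∃ (r : ℕ) (b : Fin r → κ → ℤ), (∀ k, b k ∈ Γ) ∧
      Module.finrank ℤ Γ = Module.finrank ℤ Λ + r ∧
      ∀ c : Fin r → ℤ, ∑ k, c k • b k ∈ Λ → c = 0 := by
  classical
  let Λ' : Submodule ℤ Γ := Λ.comap Γ.subtype
  have htf : Module.IsTorsionFree ℤ (Γ ⧸ Λ') := by
    apply Module.IsTorsionFree.of_smul_eq_zero
    intro n m hnm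
    obtain ⟨v, rfl⟩ := Submodule.mkQ_surjective Λ' m
    by_contra hcon
    push Not at hcon
    apply hcon.2
    rw [Submodule.mkQ_apply, Submodule.Quotient.mk_eq_zero]
    rw [← map_smul, Submodule.mkQ_apply, Submodule.Quotient.mk_eq_zero] at hnm
    exact hsat n v hcon.1 hnm
  have hfree : Module.Free ℤ (Γ ⧸ Λ') := inferInstance
  let B := Module.finBasis ℤ (Γ ⧸ Λ')
  choose g hg using fun k => Submodule.mkQ_surjective Λ' (B k)
  refine ⟨Module.finrank ℤ (Γ ⧸ Λ'), fun k => (g k : κ → ℤ), fun k => (g k).2, ?_, ?_⟩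
  · have h1 := Submodule.finrank_quotient_add_finrank Λ'
    have e : Λ' ≃ₗ[ℤ] Λ := Submodule.comapSubtypeEquivOfLe hle
    rw [e.finrank_eq] at h1
    omega
  · intro c hc
    have h1 : (∑ k, c k • g k) ∈ Λ' := by
      show Γ.subtype (∑ k, c k • g k) ∈ Λ
      rw [map_sum]
      simpa using hc
    have h2 : Λ'.mkQ (∑ k, c k • g k) = 0 := by
      rw [Submodule.mkQ_apply]
      exact (Submodule.Quotient.mk_eq_zero _).mpr h1
    rw [map_sum] at h2
    simp only [map_smul, hg] at h2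
    have h3 := Fintype.linearIndependent_iff.mp B.linearIndependent c h2
    funext k
    exact h3 k

/-- clearing denominators -/
theorem d1_clear {F k κ : Type} [Field F] [Field k] [Algebra k F] [Fintype κ] {r : ℕ}
    (b : Fin r → κ → ℤ) (H : MvPolynomial (Fin r) k) :
    ∃ h m : MvPolynomial κ k, ∀ x : κ → Fˣ, aeval (co x) m ≠ 0 ∧
      aeval (co x) h = aeval (co x) m * aeval (co (phi b x)) H := by
  classical
  induction H using MvPolynomial.induction_on with
  | C c => exact ⟨C c, 1, fun x => ⟨by rw [map_one]; exact one_ne_zero, by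
      rw [map_one, one_mul, aeval_C, aeval_C]⟩⟩
  | add p q hp hq =>
    obtain ⟨h1, m1, hh1⟩ := hp
    obtain ⟨h2, m2, hh2⟩ := hq
    refine ⟨h1 * m2 + h2 * m1, m1 * m2, fun x => ?_⟩
    obtain ⟨e1, e2⟩ := hh1 x
    obtain ⟨e3, e4⟩ := hh2 x
    refine ⟨by rw [map_mul]; exact mul_ne_zero e1 e3, ?_⟩
    rw [map_add, map_mul, map_mul, e2, e4, map_mul, map_add]
    ring
  | mul_X p i hp =>
    obtain ⟨h1, m1, hh1⟩ := hp
    refine ⟨h1 * ∏ j, X j ^ (b i j).toNat, m1 * ∏ j, X j ^ (-b i j).toNat, fun x => ?_⟩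
    obtain ⟨e1, e2⟩ := hh1 x
    have e3 : aeval (co x) (∏ j, X j ^ (-b i j).toNat : MvPolynomial κ k) ≠ 0 := by
      rw [map_prod]
      simp only [map_pow, aeval_X]
      exact Finset.prod_ne_zero_iff.mpr fun j _ => pow_ne_zero _ (co_ne_zero x j)
    refine ⟨by rw [map_mul]; exact mul_ne_zero e1 e3, ?_⟩
    have e4 : aeval (co x) (∏ j, X j ^ (b i j).toNat : MvPolynomial κ k) =
        aeval (co x) (∏ j, X j ^ (-b i j).toNat : MvPolynomial κ k) * co (phi b x) i := by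
      rw [map_prod, map_prod]
      simp only [map_pow, aeval_X]
      show _ = _ * (ch (b i) x : F)
      have h2 : ch (b i) x * (∏ j, x j ^ (-b i j).toNat) = ∏ j, x j ^ (b i j).toNat := by
        unfold ch
        rw [← Finset.prod_mul_distrib]
        apply Finset.prod_congr rfl
        intro j _
        rw [← zpow_natCast, ← zpow_natCast, ← zpow_add]
        congr 1
        rw [Int.toNat_eq_max, Int.toNat_eq_max]
        omega
      have h3 := congrArg Units.val h2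
      push_cast at h3
      rw [mul_comm]
      exact h3.symm
    rw [map_mul, e2, e4, map_mul, map_mul, aeval_X]
    ring

/-- characters of the image under a monomial map -/
theorem d1_ch {F κ : Type} [Field F] [Fintype κ] {r : ℕ} (b : Fin r → κ → ℤ) (c : Fin r → ℤ)
    (x : κ → Fˣ) : ch c (phi b x) = ch (∑ k, c k • b k) x := by
  rw [ch_finset_sum]
  simp only [ch_zsmul]
  rfl

theorem d1_ratMap {F κ : Type} [Field F] [Fintype κ] (S : Set (κ → Fˣ)) {r : ℕ}
    (b : Fin r → κ → ℤ) : RatMap S (phi b) := by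
  intro k
  exact ratOn_ch S (b k)

section

variable {F : Type} [Field F] [CharZero F] {κ : Type} [Fintype κ]

theorem d1_lam_le {X : Set (κ → Fˣ)} (hX : PIrr X) : Lam X ≤ Alat X := by
  intro m hm
  obtain ⟨c, ⟨N, hN, hc⟩, h⟩ := Lam_const hX hm
  refine ⟨c, ?_, h⟩
  rw [mem_acl]
  apply IsAlgebraic.of_pow hN
  rw [← Units.val_pow_eq_pow_val, hc, Units.val_one]
  exact isAlgebraic_one

theorem d1_mem {X : Set (κ → Fˣ)} (hX : X.Nonempty) (b : κ → ℤ) :
    b ∈ Alat X ↔ ∃ c : acl (∅ : Set F), c ≠ 0 ∧ bc c b ∈ vI (acl (∅ : Set F)) X := by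
  have h1 : ∀ (c : acl (∅ : Set F)) (x : κ → Fˣ), aeval (co x) (bc c b) = 0 ↔
      algebraMap (acl (∅ : Set F)) F c = (ch b x : F) := fun c x => aeval_bc c b x
  constructor
  · rintro ⟨c, hc, h⟩
    refine ⟨⟨c, hc⟩, ?_, ?_⟩
    · intro h0
      exact c.ne_zero (congrArg Subtype.val h0)
    · rw [mem_vI]
      intro x hx
      rw [h1, h x hx]
      rfl
  · rintro ⟨c, hc, h⟩
    rw [mem_vI] at h
    obtain ⟨x0, hx0⟩ := hX
    refine ⟨ch b x0, ?_, ?_⟩
    · rw [← (h1 c x0).mp (h x0 hx0)]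
      exact c.2
    · intro x hx
      apply Units.ext
      rw [← (h1 c x0).mp (h x0 hx0), ← (h1 c x).mp (h x hx)]

theorem d1_point {Z : Set (κ → Fˣ)} (hZ : PIrr Z) {r : ℕ} (b : Fin r → κ → ℤ)
    (hb : ∀ k, b k ∈ Alat Z) {x0 : κ → Fˣ} (hx0 : x0 ∈ Z) :
    r + rk Z ≤ rk ({phi b x0} : Set (Fin r → Fˣ)) + ar Z := by
  let g : (Fin r → ℤ) →ₗ[ℤ] Alat Z :=
    { toFun := fun c => ⟨∑ k, c k • b k, Submodule.sum_mem _ fun k _ => Submodule.smul_mem _ _ (hb k)⟩
      map_add' := by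
        intro c d
        apply Subtype.ext
        simp only [Pi.add_apply, add_smul, Finset.sum_add_distrib]
        rfl
      map_smul' := by
        intro n c
        apply Subtype.ext
        simp only [Pi.smul_apply, smul_eq_mul, mul_smul, ← Finset.smul_sum]
        rfl }
  have h1 := d1_rank g ((Lam Z).comap (Alat Z).subtype)
  have e : ((Lam Z).comap (Alat Z).subtype) ≃ₗ[ℤ] Lam Z :=
    Submodule.comapSubtypeEquivOfLe (d1_lam_le hZ)
  rw [e.finrank_eq] at h1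
  have h2 : ((Lam Z).comap (Alat Z).subtype).comap g ≤ Lam ({phi b x0} : Set (Fin r → Fˣ)) := by
    intro c hc
    have hc' : ∑ k, c k • b k ∈ Lam Z := hc
    obtain ⟨N, hN, h⟩ := hc'
    refine ⟨N, hN, ?_⟩
    intro y hy
    rw [Set.mem_singleton_iff.mp hy, d1_ch]
    exact h x0 hx0
  have h3 := Submodule.finrank_mono h2
  rw [Module.finrank_fin_fun] at h1
  unfold rk ar
  omega

end

theorem d1_key {F : Type} [Field F] [IsAlgClosed F] [CharZero F] {κ : Type} [Fintype κ] (s : ℕ)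
    (h : ∀ s' ≤ s, NDk F (acl (∅ : Set F)) s') {Y : Set (κ → Fˣ)} (hY : Irr Y)
    (β : Σ r : ℕ, (Fin r → κ → ℤ)) :
    ∃ (l : MvPolynomial κ (acl (∅ : Set F))) (Q : Finset κ) (D : ℕ),
      l ∉ vI (acl (∅ : Set F)) Y ∧
      Q.card + td (acl (∅ : Set F)) (phi β.2 '' Y) ≤ td (acl (∅ : Set F)) Y ∧
      ∀ Z ⊆ Y, PIrr Z → l ∉ vI (acl (∅ : Set F)) Z → (∀ n, β.2 n ∈ Alat Z) →
        (∀ j, UA D Q j (vI (acl (∅ : Set F)) Z)) ∧
        ∀ s' ≤ s, rk (phi β.2 '' Y) = 0 → td (acl (∅ : Set F)) (phi β.2 '' Y) + s' < β.1 →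
          ∀ x0 ∈ Z, ¬ β.1 ≤ rk ({phi β.2 x0} : Set (Fin β.1 → Fˣ)) + s' := by
  classical
  have hac := isAlgClosed_acl (∅ : Set F)
  have hprime := vI_isPrime (k := acl (∅ : Set F)) hY.pirr
  obtain ⟨r, b⟩ := β
  simp only
  obtain ⟨Q, D, l0, hQ, hl0, hUA⟩ := fibre (k := acl (∅ : Set F)) hY.pirr b
  have hs : ∀ s' : ℕ, ∃ g : MvPolynomial κ (acl (∅ : Set F)), g ∉ vI (acl (∅ : Set F)) Y ∧
      (s' ≤ s → rk (phi b '' Y) = 0 → td (acl (∅ : Set F)) (phi b '' Y) + s' < r →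
        ∀ Z ⊆ Y, (∀ n, b n ∈ Alat Z) → ∀ x0 ∈ Z,
          r ≤ rk ({phi b x0} : Set (Fin r → Fˣ)) + s' → g ∈ vI (acl (∅ : Set F)) Z) := by
    intro s'
    by_cases hcond : s' ≤ s ∧ rk (phi b '' Y) = 0 ∧ td (acl (∅ : Set F)) (phi b '' Y) + s' < r
    · obtain ⟨hs', hrk, htd⟩ := hcond
      have hpi : PIrr (phi b '' Y) := hY.pirr.image (d1_ratMap _ _)
      obtain ⟨q, hq, hqz⟩ := h s' hs' (Fin r) (cl (acl (∅ : Set F)) (phi b '' Y)) (irr_cl hpi)
        (cl_idem _) (by rw [rk_cl]; exact hrk) (by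
          rw [td_cl_eq hpi, Fintype.card_fin]
          exact htd)
      rw [vI_cl] at hq
      obtain ⟨g, m, hgm⟩ := d1_clear (F := F) b q
      refine ⟨g, ?_, ?_⟩
      · intro hg
        apply hq
        rw [mem_vI]
        rintro _ ⟨x, hx, rfl⟩
        have e1 := mem_vI.mp hg x hx
        rw [(hgm x).2] at e1
        exact (mul_eq_zero.mp e1).resolve_left (hgm x).1
      · intro _ _ _ Z hZY hb x0 hx0 hr
        rw [mem_vI]
        intro x hx
        rw [(hgm x).2]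
        have e1 : phi b x = phi b x0 := by
          funext n
          obtain ⟨c, _, hc⟩ := hb n
          show ch (b n) x = ch (b n) x0
          rw [hc x hx, hc x0 hx0]
        rw [e1, hqz (phi b x0) (subset_cl _ ⟨x0, hZY hx0, rfl⟩), mul_zero]
        · intro n
          obtain ⟨c, hc0, hc⟩ := hb n
          refine ⟨⟨c, hc0⟩, ?_⟩
          show (c : F) = (ch (b n) x0 : F)
          rw [hc x0 hx0]
        · rw [Fintype.card_fin]
          exact hr
    · refine ⟨1, ?_, ?_⟩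
      · intro h1
        exact hprime.ne_top (Ideal.eq_top_iff_one _ |>.mpr h1)
      · intro h1 h2 h3
        exact absurd ⟨h1, h2, h3⟩ hcond
  choose g hg1 hg2 using hs
  refine ⟨l0 * ∏ s' ∈ Finset.range (s + 1), g s', Q, D, ?_, hQ, ?_⟩
  · intro hmem
    rcases hprime.mem_or_mem hmem with h1 | h1
    · exact hl0 h1
    · rw [Ideal.IsPrime.prod_mem_iff] at h1
      obtain ⟨s', _, h2⟩ := h1
      exact hg1 s' h2
  · intro Z hZY hZ hl hb
    constructor
    · apply hUA Z hZY hZ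
      · intro h1
        exact hl (Ideal.mul_mem_right _ _ h1)
      · intro n
        obtain ⟨c, hc0, hc⟩ := hb n
        refine ⟨⟨c, hc0⟩, fun x hx => ?_⟩
        rw [hc x hx]
        rfl
    · intro s' hs' hrk htd x0 hx0 hr
      apply hl
      apply Ideal.mul_mem_left
      have h1 := hg2 s' hs' hrk htd Z hZY hb x0 hx0 hr
      exact Ideal.mem_of_dvd _ (Finset.dvd_prod_of_mem g (Finset.mem_range.mpr (by omega))) h1

/-- The main step: sets of smaller defect and small algebraic rank are not dense. -/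
theorem nd_main {F : Type} [Field F] [IsAlgClosed F] [CharZero F] {κ : Type} [Fintype κ] (s : ℕ)
    (h : ∀ s' ≤ s, NDk F (acl (∅ : Set F)) s') {Y : Set (κ → Fˣ)} (hY : Irr Y)
    (hYc : cl (acl (∅ : Set F)) Y = Y) :
    ∃ l : MvPolynomial κ (acl (∅ : Set F)), l ∉ vI (acl (∅ : Set F)) Y ∧
      ∀ Z, Irr Z → cl (acl (∅ : Set F)) Z = Z → Z ⊆ Y → ar Z ≤ rk Z + s →
        rk Y + td F Y < rk Z + td F Z → l ∈ vI (acl (∅ : Set F)) Z := by
  classical
  have hac := isAlgClosed_acl (∅ : Set F)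
  have hprime := vI_isPrime (k := acl (∅ : Set F)) hY.pirr
  by_contra hcon
  push Not at hcon
  choose L Q D hL hQ hLZ using fun β : Σ r : ℕ, (Fin r → κ → ℤ) => d1_key s h hY β
  have hne : Nonempty (Σ r : ℕ, (Fin r → κ → ℤ)) := ⟨⟨0, Fin.elim0⟩⟩
  obtain ⟨en, hen⟩ := exists_surjective_nat (Σ r : ℕ, (Fin r → κ → ℤ))
  have hP : ∀ N : ℕ, (∏ m ∈ Finset.range (N + 1), L (en m)) ∉ vI (acl (∅ : Set F)) Y := by
    intro N h1
    rw [Ideal.IsPrime.prod_mem_iff] at h1
    obtain ⟨m, _, h2⟩ := h1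
    exact hL (en m) h2
  choose Z hZi hZc hZY hZar hZlt hZP using fun N : ℕ => hcon _ (hP N)
  let 𝒰 : Ultrafilter ℕ := Filter.hyperfilter ℕ
  have hLU : ∀ β, ∀ᶠ N in (𝒰 : Filter ℕ), L β ∉ vI (acl (∅ : Set F)) (Z N) := by
    intro β
    obtain ⟨m, rfl⟩ := hen β
    have h1 : ∀ᶠ N in (𝒰 : Filter ℕ), m ≤ N :=
      Filter.Eventually.filter_mono Nat.hyperfilter_le_atTop (Filter.eventually_ge_atTop m)
    filter_upwards [h1] with N hN h2
    exact hZP N (Ideal.mem_of_dvd _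
      (Finset.dvd_prod_of_mem (fun m => L (en m)) (Finset.mem_range.mpr (by omega))) h2)
  obtain ⟨z, hz⟩ := b3_pigeon 𝒰 (fun N => (⟨td F (Z N), Nat.lt_succ_of_le
    (td_le_card (k := F) (hZi N).pirr)⟩ : Fin (Nat.card κ + 1)))
  have har : ∀ N, ar (Z N) ≤ Fintype.card κ := by
    intro N
    have h1 := Submodule.finrank_le (Alat (Z N))
    rwa [Module.finrank_fintype_fun_eq_card] at h1
  obtain ⟨a, ha⟩ := b3_pigeon 𝒰 (fun N => (⟨ar (Z N), Nat.lt_succ_of_le (har N)⟩ :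
    Fin (Fintype.card κ + 1)))
  let Γ : Submodule ℤ (κ → ℤ) :=
    { carrier := {m | ∀ᶠ N in (𝒰 : Filter ℕ), m ∈ Alat (Z N)}
      zero_mem' := Filter.Eventually.of_forall fun N => Submodule.zero_mem _
      add_mem' := by
        intro m n hm hn
        filter_upwards [hm, hn] with N h1 h2
        exact Submodule.add_mem _ h1 h2
      smul_mem' := by
        intro c m hm
        filter_upwards [hm] with N h1
        exact Submodule.smul_mem _ c h1 }
  have hΓ : ∀ m, m ∈ Γ ↔ ∀ᶠ N in (𝒰 : Filter ℕ), m ∈ Alat (Z N) := fun m => Iff.rfl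
  have hle : Lam Y ≤ Γ := by
    intro m hm
    rw [hΓ]
    apply Filter.Eventually.of_forall
    intro N
    exact d1_lam_le (hZi N).pirr (Lam_anti (hZY N) hm)
  obtain ⟨r, b, hb, hr, hind⟩ := d1_basis (Lam Y) Γ hle (fun n m hn hm => Lam_sat hn hm)
  have hbU : ∀ᶠ N in (𝒰 : Filter ℕ), ∀ n, b n ∈ Alat (Z N) := by
    rw [Filter.eventually_all]
    exact hb
  have hrk0 : rk (phi b '' Y) = 0 := by
    have h1 : Lam (phi b '' Y) = ⊥ := by
      rw [eq_bot_iff]
      rintro c ⟨N, hN, hc⟩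
      rw [Submodule.mem_bot]
      apply hind
      refine ⟨N, hN, fun x hx => ?_⟩
      rw [← d1_ch]
      exact hc _ ⟨x, hx, rfl⟩
    unfold rk
    rw [h1]
    exact finrank_bot ℤ _
  have hall := hLU ⟨r, b⟩
  have hUA : ∀ᶠ N in (𝒰 : Filter ℕ), ∀ j, UA (D ⟨r, b⟩) (Q ⟨r, b⟩) j (vI (acl (∅ : Set F)) (Z N)) := by
    filter_upwards [hall, hbU] with N h1 h2
    exact (hLZ ⟨r, b⟩ (Z N) (hZY N) (hZi N).pirr h1 h2).1
  have htd : ∀ N, td (acl (∅ : Set F)) (Z N) = td F (Z N) := by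
    intro N
    rw [← td_cl_eq (hZi N).pirr, hZc N]
  have hfin := uax 𝒰 (fun N => vI (acl (∅ : Set F)) (Z N)) (fun N => vI_isPrime (hZi N).pirr)
    (fun N j => X_not_mem_vI (hZi N).nonempty j) (fun N => Alat (Z N))
    (fun N m => d1_mem (hZi N).nonempty m) z a (by
      filter_upwards [hz] with N hN
      have h1 : td F (Z N) = z := congrArg Fin.val hN
      rw [← h1, ← htd N]
      rfl) (by
      filter_upwards [ha] with N hN
      exact congrArg Fin.val hN) Γ hΓ (Q ⟨r, b⟩) (D ⟨r, b⟩) hUA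
  obtain ⟨N, ⟨⟨hN1, hN2⟩, hN3⟩, hN4⟩ := (((hz.and ha).and hall).and hbU).exists
  have hz' : td F (Z N) = z := congrArg Fin.val hN1
  have ha' : ar (Z N) = a := congrArg Fin.val hN2
  have hQ' := hQ ⟨r, b⟩
  simp only at hQ'
  have htY : td (acl (∅ : Set F)) Y = td F Y := by
    rw [← td_cl_eq hY.pirr, hYc]
  have hlt := hZlt N
  have hars := hZar N
  have hrkar : rk (Z N) ≤ ar (Z N) := Submodule.finrank_mono (d1_lam_le (hZi N).pirr)
  have hrkY : Module.finrank ℤ (Lam Y) = rk Y := rfl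
  obtain ⟨x0, hx0⟩ := (hZi N).nonempty
  have hpt := d1_point (hZi N).pirr b hN4 hx0
  refine (hLZ ⟨r, b⟩ (Z N) (hZY N) (hZi N).pirr hN3 hN4).2 (ar (Z N) - rk (Z N)) (by omega) hrk0
    ?_ x0 hx0 ?_
  · simp only
    omega
  · simp only
    omega

end Pool.Agent.ZPA
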