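import Mathlib
import Pool.Agent.ZPA.Defs

set_option autoImplicit false

open MvPolynomial

namespace Pool.Agent.ZPA

open Pool.Agent.MP_dd1803_nt

/-- The maximal irreducible closed subsets of `V` of defect less than `e` whose closure over `k0`
satisfies `P`. -/
def MaxP (k0 : Type) [Field k0] {F : Type} [Field F] [Algebra k0 F] {κ : Type} [Fintype κ]
    (P : Set (κ → Fˣ) → Prop) (e : ℕ) (V : Set (κ → Fˣ)) : Set (Set (κ → Fˣ)) :=
  {X | Maximal (fun X => Irr X ∧ X ⊆ V ∧ Fintype.card κ < cd X + e ∧ P (cl k0 X)) X}

section MaxP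

variable {F : Type} [Field F] [IsAlgClosed F] {κ : Type} [Fintype κ]

omit [IsAlgClosed F] in
theorem mem_maxP {k0 : Type} [Field k0] [Algebra k0 F] {P : Set (κ → Fˣ) → Prop} {e : ℕ} {V X : Set (κ → Fˣ)} :
    X ∈ MaxP k0 P e V ↔ Maximal (fun X => Irr X ∧ X ⊆ V ∧ Fintype.card κ < cd X + e ∧
      P (cl k0 X)) X := by
  unfold MaxP
  rw [Set.mem_ofPred_eq]

variable {k0 : Type} [Field k0] [Algebra k0 F]

theorem exists_maxP {P : Set (κ → Fˣ) → Prop} {e : ℕ} {V X : Set (κ → Fˣ)} (hX : Irr X) (hXV : X ⊆ V)
    (hd : Fintype.card κ < cd X + e) (hd' : P (cl k0 X)) :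
    ∃ Y ∈ MaxP k0 P e V, X ⊆ Y := by
  obtain ⟨Y, hY, hXY⟩ := exists_max_irr (P := fun X => Irr X ∧ X ⊆ V ∧ Fintype.card κ < cd X + e ∧
      P (cl k0 X)) (fun X hX => hX.1) ⟨hX, hXV, hd, hd'⟩
  exact ⟨Y, mem_maxP.mpr hY, hXY⟩

omit [IsAlgClosed F] in
theorem MaxP.irr {P : Set (κ → Fˣ) → Prop} {e : ℕ} {V X : Set (κ → Fˣ)} (h : X ∈ MaxP k0 P e V) : Irr X :=
  (mem_maxP.mp h).prop.1

omit [IsAlgClosed F] in
theorem MaxP.subset {P : Set (κ → Fˣ) → Prop} {e : ℕ} {V X : Set (κ → Fˣ)} (h : X ∈ MaxP k0 P e V) : X ⊆ V :=
  (mem_maxP.mp h).prop.2.1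

omit [IsAlgClosed F] in
theorem MaxP.lt {P : Set (κ → Fˣ) → Prop} {e : ℕ} {V X : Set (κ → Fˣ)} (h : X ∈ MaxP k0 P e V) :
    Fintype.card κ < cd X + e := (mem_maxP.mp h).prop.2.2.1

omit [IsAlgClosed F] in
theorem MaxP.prop {P : Set (κ → Fˣ) → Prop} {e : ℕ} {V X : Set (κ → Fˣ)} (h : X ∈ MaxP k0 P e V) :
    P (cl k0 X) := (mem_maxP.mp h).prop.2.2.2

omit [IsAlgClosed F] in
theorem MaxP.eq {P : Set (κ → Fˣ) → Prop} {e : ℕ} {V X Y : Set (κ → Fˣ)} (h : X ∈ MaxP k0 P e V) (hY : Irr Y) (hYV : Y ⊆ V)
    (hd : Fintype.card κ < cd Y + e) (hd' : P (cl k0 Y)) (hXY : X ⊆ Y) :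
    X = Y :=
  Maximal.eq_of_subset (mem_maxP.mp h) ⟨hY, hYV, hd, hd'⟩ hXY

omit [IsAlgClosed F] in
theorem MaxP.of_subset {P : Set (κ → Fˣ) → Prop} {e : ℕ} {V W X : Set (κ → Fˣ)} (h : X ∈ MaxP k0 P e V) (hXW : X ⊆ W)
    (hWV : W ⊆ V) : X ∈ MaxP k0 P e W := by
  rw [mem_maxP]
  refine ⟨⟨MaxP.irr h, hXW, MaxP.lt h, MaxP.prop h⟩, ?_⟩
  rintro Y ⟨hY, hYW, hd, hd'⟩ hXY
  exact (MaxP.eq h hY (hYW.trans hWV) hd hd' hXY).ge

/-- Maximal elements in a set defined over `k` are defined over `k`. -/
theorem MaxP.closed {k : Type} [Field k] [Algebra k F] [Algebra k0 k] [IsScalarTower k0 k F]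
    [IsAlgClosed k] {P : Set (κ → Fˣ) → Prop} {e : ℕ} {V X : Set (κ → Fˣ)} (h : X ∈ MaxP k0 P e V) (hV : cl k V = V) :
    cl k X = X := by
  symm
  apply MaxP.eq h (irr_cl (MaxP.irr h).pirr)
  · exact cl_subset_of_closed (MaxP.subset h) hV
  · have h1 := cd_le_cd_cl (k := k) (MaxP.irr h).pirr
    have h2 := MaxP.lt h
    omega
  · rw [cl_cl k0 k]
    exact MaxP.prop h
  · exact subset_cl X

/-- The step from `k` to an extension `k'` of transcendence degree at most one. -/
theorem maxP_step {k k' : Type} [Field k] [Field k'] [Algebra k F] [Algebra k' F] [Algebra k k']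
    [IsScalarTower k k' F] [Algebra k0 k] [Algebra k0 k'] [IsScalarTower k0 k F]
    [IsScalarTower k0 k' F] [IsAlgClosed k] [IsAlgClosed k'] (a : k')
    [Algebra.IsAlgebraic (Algebra.adjoin k {a}) k'] (P : Set (κ → Fˣ) → Prop)
    (H : ∀ V : Set (κ → Fˣ), cl k V = V → ∀ e, (MaxP k0 P e V).Finite)
    (V : Set (κ → Fˣ)) (hV : cl k' V = V) : ∀ e, (MaxP k0 P e V).Finite := by
  classical
  have key : ∀ V : Set (κ → Fˣ), ZClosed V → (cl k' V = V → ∀ e, (MaxP k0 P e V).Finite) := by
    apply closed_induction
    intro V hVc IH hV e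
    by_cases hirr : Irr V
    · by_cases hcond : Fintype.card κ < cd V + e ∧ P (cl k0 V)
      · apply (Set.finite_singleton V).subset
        intro X hX
        exact MaxP.eq hX hirr le_rfl hcond.1 hcond.2 (MaxP.subset hX)
      · by_cases hk : cl k V = V
        · exact H V hk e
        · -- the part defined over k
          have hcore : (MaxP k0 P e (core k V)).Finite := by
            have h1 : core k V ⊂ V := by
              refine ⟨core_subset hVc, ?_⟩
              intro h2
              apply hk
              have h3 : core k V = V := Set.Subset.antisymm (core_subset hVc) h2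
              rw [← h3]
              exact cl_core V
            apply IH _ (zclosed_core V) h1
            apply Set.Subset.antisymm _ (subset_cl _)
            have h4 := cl_tower k k' (core k V)
            rwa [cl_core] at h4
          have hVk : cl k (cl k V) = cl k V := cl_idem V
          have hfin : (⋃ Z ∈ MaxP k0 P (e - 1) (cl k V),
              (if V ⊆ Z then ∅ else MaxP k0 P e (V ∩ Z))).Finite := by
            apply (H (cl k V) hVk (e - 1)).biUnion
            intro Z hZ
            split_ifs with hVZ
            · exact Set.finite_empty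
            · have hZk : cl k Z = Z := MaxP.closed hZ hVk
              have h1 : V ∩ Z ⊂ V := ⟨Set.inter_subset_left, fun h => hVZ (h.trans Set.inter_subset_right)⟩
              apply IH _ (hVc.inter (MaxP.irr hZ).closed) h1
              apply Set.Subset.antisymm _ (subset_cl _)
              apply Set.subset_inter
              · exact cl_subset_of_closed Set.inter_subset_left hV
              · have h4 := (cl_tower k k' (V ∩ Z)).trans
                  (cl_subset_of_closed (k := k) Set.inter_subset_right hZk)
                exact h4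
          apply (hcore.union hfin).subset
          intro X hX
          have hXi := MaxP.irr hX
          have hXk' : cl k' X = X := MaxP.closed hX hV
          by_cases hXk : cl k X = X
          · left
            apply MaxP.of_subset hX _ (core_subset hVc)
            apply subset_core hXi.pirr
            rw [hXk]
            exact MaxP.subset hX
          · right
            have hXk2 : Irr (cl k X) := irr_cl hXi.pirr
            have hss : X ⊂ cl k X := LE.le.ssubset_of_ne (subset_cl X) (Ne.symm hXk)
            have h1 := td_lt hXi hXk2 hss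
            have h2 : td F (cl k X) = td k X := td_cl_eq hXi.pirr
            have h3 : td F X = td k' X := by
              conv_lhs => rw [← hXk']
              exact td_cl_eq hXi.pirr
            have h4 := td_tower_le_add_one (k := k) (k' := k') hXi.pirr a
            have h5 : rk (cl k X) = rk X := rk_cl X
            have h6 := MaxP.lt hX
            have h7 := cd_le_card hXi.pirr
            obtain ⟨Z, hZ, hXZ⟩ := exists_maxP (k0 := k0) (P := P) (e := e - 1) hXk2
              (cl_mono (MaxP.subset hX)) (by
              unfold cd at *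
              omega) (by
              rw [cl_cl k0 k]
              exact MaxP.prop hX)
            rw [Set.mem_iUnion₂]
            refine ⟨Z, hZ, ?_⟩
            have hVZ : ¬ V ⊆ Z := by
              intro h
              have hZk : cl k Z = Z := MaxP.closed hZ hVk
              have h8 : cl k V = Z := by
                apply Set.Subset.antisymm _ (MaxP.subset hZ)
                exact cl_subset_of_closed h hZk
              have h9 := MaxP.lt hZ
              have h10 := MaxP.prop hZ
              rw [← h8] at h9 h10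
              rw [cl_cl k0 k] at h10
              apply hcond
              refine ⟨?_, h10⟩
              have h11 : cd (cl k V) = rk V + td k V := cd_cl_eq hirr.pirr
              have h12 := td_tower_le_add_one (k := k) (k' := k') hirr.pirr a
              have h13 : td F V = td k' V := by
                conv_lhs => rw [← hV]
                exact td_cl_eq hirr.pirr
              unfold cd at *
              omega
            rw [if_neg hVZ]
            exact MaxP.of_subset hX (Set.subset_inter (MaxP.subset hX) ((subset_cl X).trans hXZ))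
              Set.inter_subset_left
    · have hfin : (⋃ Y ∈ {Y | Comp V Y}, MaxP k0 P e Y).Finite := by
        apply (finite_comp hVc).biUnion
        intro Y hY
        have hY' : Comp V Y := hY
        have h1 : Y ⊂ V := by
          refine LE.le.ssubset_of_ne hY'.subset ?_
          rintro rfl
          exact hirr hY'.irr
        exact IH Y hY'.irr.closed h1 (Comp.cl hV hY') e
      apply hfin.subset
      intro X hX
      obtain ⟨Y, hY, hXY⟩ := exists_comp hVc (MaxP.irr hX) (MaxP.subset hX)
      rw [Set.mem_iUnion₂]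
      exact ⟨Y, hY, MaxP.of_subset hX hXY hY.subset⟩
  exact key V (closed_of_cl hV) hV

/-- Maximal elements in a set defined over `k0` are defined over `k0`. -/
theorem MaxP.closed0 [IsAlgClosed k0] {P : Set (κ → Fˣ) → Prop} {e : ℕ} {V X : Set (κ → Fˣ)}
    (h : X ∈ MaxP k0 P e V) (hV : cl k0 V = V) : cl k0 X = X :=
  MaxP.closed (k0 := k0) (k := k0) h hV

end MaxP

section ChainP

variable {F : Type} [Field F] [CharZero F] [IsAlgClosed F] {κ : Type} [Fintype κ]

theorem maxP_step_inc {K0 K L : IntermediateField ℚ F} (h0 : K0 ≤ K) (h : K ≤ L)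
    [IsAlgClosed K] [IsAlgClosed L] (a : L)
    (halg : ∀ x ∈ L, IsAlgebraic (Algebra.adjoin K {(a : F)}) x) (P : Set (κ → Fˣ) → Prop)
    (H : ∀ V : Set (κ → Fˣ), cl K V = V → ∀ e, (MaxP K0 P e V).Finite)
    (V : Set (κ → Fˣ)) (hV : cl L V = V) : ∀ e, (MaxP K0 P e V).Finite := by
  let i1 := incAlgebra h
  let i2 := incAlgebra h0
  let i3 := incAlgebra (h0.trans h)
  have t1 := incTower h
  have t2 := incTower h0
  have t3 := incTower (h0.trans h)
  have halg' := isAlgebraic_inc h a halg
  exact maxP_step (k0 := K0) (k := K) (k' := L) a P H V hV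

end ChainP

/-- Row E1. Transfer from the algebraic numbers to all closed sets.

Proof. Copy `Pool/Agent/MP_dd1803_nt/Transfer.lean` (section MaxB without `maxB_base`) and
`Pool/Agent/MP_dd1803_nt/Chain.lean` (`maxB_step_inc`, `maxB_all`), replacing the condition
`Fintype.card κ < cd (cl k0 X) + c` everywhere by `P (cl k0 X)` for the arbitrary predicate `P`
(names `MaxP`, `mem_maxP`, `exists_maxP`, `MaxP.irr`, ..., `maxP_step`, `maxP_step_inc`). The
condition is used only through `cl_cl k0 k X : cl k0 (cl k X) = cl k0 X`, so nothing else changes.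
The base case is the hypothesis `H`. Do not import anything new; do not restate lemmas of
`Transfer.lean` which do not mention `MaxB` (`exists_max_irr`, `cd_cl_eq`, `cd_le_cd_cl`,
`closed_of_cl`, `Comp.cl` are available). Also deliver (needed in Row F1):
`theorem MaxP.closed0 : X ∈ MaxP k0 P e V → cl k0 V = V → cl k0 X = X` (for `IsAlgClosed k0`),
`MaxP.irr`, `MaxP.subset`, `MaxP.lt`, `MaxP.prop`, `MaxP.eq`, `MaxP.of_subset`. -/
theorem maxP_all {F : Type} [Field F] [IsAlgClosed F] [CharZero F] {κ : Type} [Fintype κ]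
    (P : Set (κ → Fˣ) → Prop)
    (H : ∀ V : Set (κ → Fˣ), cl (acl (∅ : Set F)) V = V → ∀ e,
      (MaxP (acl (∅ : Set F)) P e V).Finite)
    {V : Set (κ → Fˣ)} (hV : ZClosed V) (e : ℕ) : (MaxP (acl (∅ : Set F)) P e V).Finite := by
  obtain ⟨A, hA, hAV⟩ := exists_field_of_def hV
  have key : ∀ V : Set (κ → Fˣ), cl (acl A) V = V → ∀ e, (MaxP (acl (∅ : Set F)) P e V).Finite := by
    clear hAV hV V e
    induction A, hA using Set.Finite.induction_on with
    | empty => exact fun V hV e => H V hV e
    | @insert a A _ _ ih =>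
      have h1 := isAlgClosed_acl A
      have h2 := isAlgClosed_acl (insert a A)
      exact maxP_step_inc (K0 := acl ∅) (K := acl A) (L := acl (insert a A))
        (acl_mono (Set.empty_subset A)) (acl_mono (Set.subset_insert a A))
        ⟨a, subset_acl _ (Set.mem_insert a A)⟩ (fun x hx => alg_of_mem_acl_insert hx) P ih
  exact key V (hAV (acl A) (subset_acl A)) e

end Pool.Agent.ZPA
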