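import Mathlib
import Pool.Agent.ZPA.Defs
import Pool.Agent.ZPA.D1
import Pool.Agent.ZPA.E1

set_option autoImplicit false

open MvPolynomial

namespace Pool.Agent.ZPA

open Pool.Agent.MP_dd1803_nt

section F1

variable {F : Type} [Field F] {κ : Type} [Fintype κ]

theorem f1_mem {k0 : Type} [Field k0] [Algebra k0 F] {P : Set (κ → Fˣ) → Prop} {e : ℕ}
    {V X : Set (κ → Fˣ)} : X ∈ MaxP k0 P e V ↔
      Maximal (fun X => Irr X ∧ X ⊆ V ∧ Fintype.card κ < cd X + e ∧ P (cl k0 X)) X := by
  unfold MaxP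
  rw [Set.mem_ofPred_eq]

theorem f1_irr {k0 : Type} [Field k0] [Algebra k0 F] {P : Set (κ → Fˣ) → Prop} {e : ℕ}
    {V X : Set (κ → Fˣ)} (h : X ∈ MaxP k0 P e V) : Irr X := (f1_mem.mp h).prop.1

theorem f1_subset {k0 : Type} [Field k0] [Algebra k0 F] {P : Set (κ → Fˣ) → Prop} {e : ℕ}
    {V X : Set (κ → Fˣ)} (h : X ∈ MaxP k0 P e V) : X ⊆ V := (f1_mem.mp h).prop.2.1

theorem f1_lt {k0 : Type} [Field k0] [Algebra k0 F] {P : Set (κ → Fˣ) → Prop} {e : ℕ}
    {V X : Set (κ → Fˣ)} (h : X ∈ MaxP k0 P e V) : Fintype.card κ < cd X + e :=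
  (f1_mem.mp h).prop.2.2.1

theorem f1_prop {k0 : Type} [Field k0] [Algebra k0 F] {P : Set (κ → Fˣ) → Prop} {e : ℕ}
    {V X : Set (κ → Fˣ)} (h : X ∈ MaxP k0 P e V) : P (cl k0 X) :=
  (f1_mem.mp h).prop.2.2.2

theorem f1_eq {k0 : Type} [Field k0] [Algebra k0 F] {P : Set (κ → Fˣ) → Prop} {e : ℕ}
    {V X Y : Set (κ → Fˣ)} (h : X ∈ MaxP k0 P e V) (hY : Irr Y) (hYV : Y ⊆ V)
    (hd : Fintype.card κ < cd Y + e) (hd' : P (cl k0 Y)) (hXY : X ⊆ Y) : X = Y :=
  Maximal.eq_of_subset (f1_mem.mp h) ⟨hY, hYV, hd, hd'⟩ hXY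

theorem f1_of_subset {k0 : Type} [Field k0] [Algebra k0 F] {P : Set (κ → Fˣ) → Prop} {e : ℕ}
    {V W X : Set (κ → Fˣ)} (h : X ∈ MaxP k0 P e V) (hXW : X ⊆ W) (hWV : W ⊆ V) :
    X ∈ MaxP k0 P e W := by
  rw [f1_mem]
  refine ⟨⟨f1_irr h, hXW, f1_lt h, f1_prop h⟩, ?_⟩
  rintro Y ⟨hY, hYW, hd, hd'⟩ hXY
  exact (f1_eq h hY (hYW.trans hWV) hd hd' hXY).ge

theorem f1_closed0 [IsAlgClosed F] {k0 : Type} [Field k0] [Algebra k0 F] [IsAlgClosed k0]
    {P : Set (κ → Fˣ) → Prop} {e : ℕ} {V X : Set (κ → Fˣ)} (h : X ∈ MaxP k0 P e V)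
    (hV : cl k0 V = V) : cl k0 X = X := by
  symm
  apply f1_eq h (irr_cl (f1_irr h).pirr)
  · exact cl_subset_of_closed (f1_subset h) hV
  · have h1 := cd_le_cd_cl (k := k0) (f1_irr h).pirr
    have h2 := f1_lt h
    omega
  · rw [cl_idem]
    exact f1_prop h
  · exact subset_cl X

theorem f1_finrank (A B : Submodule ℤ (κ → ℤ)) :
    Module.finrank ℤ (A ⊔ B : Submodule ℤ (κ → ℤ)) + Module.finrank ℤ (A ⊓ B : Submodule ℤ (κ → ℤ)) =
      Module.finrank ℤ A + Module.finrank ℤ B := by
  have h := Submodule.rank_sup_add_rank_inf_eq A B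
  rw [← Module.finrank_eq_rank ℤ (A ⊔ B : Submodule ℤ (κ → ℤ)),
    ← Module.finrank_eq_rank ℤ (A ⊓ B : Submodule ℤ (κ → ℤ)),
    ← Module.finrank_eq_rank ℤ A, ← Module.finrank_eq_rank ℤ B] at h
  exact_mod_cast h

variable [CharZero F]

theorem f1_root {c : Fˣ} {N : ℕ} (hN : 0 < N) (hc : c ^ N = 1) : (c : F) ∈ acl (∅ : Set F) := by
  rw [mem_acl]
  refine IsAlgebraic.of_pow hN ?_
  have h1 : (c : F) ^ N = 1 := by
    rw [← Units.val_pow_eq_pow_val, hc, Units.val_one]
  rw [h1]
  exact isAlgebraic_one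

theorem f1_Lam_le {X : Set (κ → Fˣ)} (hX : PIrr X) : Lam X ≤ Alat X := by
  intro m hm
  obtain ⟨c, ⟨N, hN, hc⟩, h⟩ := Lam_const hX hm
  exact ⟨c, f1_root hN hc, h⟩

theorem f1_Alat_anti {X Y : Set (κ → Fˣ)} (h : X ⊆ Y) : Alat Y ≤ Alat X := by
  rintro m ⟨c, hc, hm⟩
  exact ⟨c, hc, fun x hx => hm x (h hx)⟩

theorem f1_ar {V X : Set (κ → Fˣ)} (hX : PIrr X) (h : X ⊆ V) : ar V + rk X ≤ ar X + rk V := by
  have h1 := f1_finrank (Alat V) (Lam X)
  have h2 : Module.finrank ℤ (Alat V ⊔ Lam X : Submodule ℤ (κ → ℤ)) ≤ Module.finrank ℤ (Alat X) :=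
    Submodule.finrank_mono (sup_le (f1_Alat_anti h) (f1_Lam_le hX))
  have h3 : Module.finrank ℤ (Alat V ⊓ Lam X : Submodule ℤ (κ → ℤ)) ≤ Module.finrank ℤ (Lam V) := by
    refine Submodule.finrank_mono ?_
    intro m hm
    rw [Submodule.mem_inf] at hm
    obtain ⟨⟨c, hc, hm1⟩, N, hN, hm2⟩ := hm
    refine ⟨N, hN, fun x hx => ?_⟩
    obtain ⟨y, hy⟩ := hX.nonempty
    have h4 := hm2 y hy
    rw [hm1 y (h hy)] at h4
    rw [hm1 x hx, h4]
  unfold ar rk
  omega

end F1

/-- Row F1. The base case.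

Proof. Write `k0 = acl ∅`, `P Z = (ar Z ≤ rk Z + s)`. Noetherian induction (`closed_induction`) on
`V` with `cl k0 V = V`, all `e`, as in `maxP_step` / `maxB_step`.
* `V` not irreducible: the components are finitely many (`finite_comp`), defined over `k0`
  (`Comp.cl`) and smaller; each `X ∈ MaxP k0 P e V` lies in one and is in `MaxP` of it.
* `V` irreducible. Every `X ∈ MaxP k0 P e V` is irreducible with `cl k0 X = X` (`MaxP.closed0`), so
  `P X` holds.
  If `¬ P V` the set is empty: for irreducible `X ⊆ V`, `ar V + rk X ≤ ar X + rk V`, because the map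
  `Alat V ⧸ Lam V → Alat X ⧸ Lam X` is injective: if `m ∈ Alat V` is in `Lam X` then its constant
  value on `V` is a root of unity and `m ∈ Lam V` (and `Lam V ≤ Alat V`, `Lam X ≤ Alat X` by
  `Lam_const` for irreducible sets, roots of unity being in `acl ∅`;
  `Submodule.finrank_quotient_add_finrank`, `LinearMap.finrank_le_finrank_of_injective`).
  If `P V` and `Fintype.card κ < cd V + e`: `V` itself is admissible, so the set is contained in
  `{V}` (`MaxP.eq`).
  Otherwise `cd V + e ≤ Fintype.card κ`, so for `X ∈ MaxP k0 P e V`, `cd V < cd X`, that is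
  `rk V + td F V < rk X + td F X`, and `nd_main` (Row D1) gives `l ∉ vI k0 V` with `l ∈ vI k0 X`
  for all these `X`. The set `V' = V ∩ zl k0 {l}` satisfies `cl k0 V' = V'`, is closed and strictly
  smaller than `V`, and contains all these `X`, which are in `MaxP k0 P e V'`
  (`MaxP.of_subset`). Use the induction hypothesis. -/
theorem maxP_base {F : Type} [Field F] [IsAlgClosed F] [CharZero F] {κ : Type} [Fintype κ] (s : ℕ)
    (h : ∀ s' ≤ s, NDk F (acl (∅ : Set F)) s') (V : Set (κ → Fˣ))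
    (hV : cl (acl (∅ : Set F)) V = V) (e : ℕ) :
    (MaxP (acl (∅ : Set F)) (fun Z => ar Z ≤ rk Z + s) e V).Finite := by
  classical
  have hac : IsAlgClosed (acl (∅ : Set F)) := isAlgClosed_acl _
  have key : ∀ V : Set (κ → Fˣ), ZClosed V → (cl (acl (∅ : Set F)) V = V → ∀ e,
      (MaxP (acl (∅ : Set F)) (fun Z => ar Z ≤ rk Z + s) e V).Finite) := by
    apply closed_induction
    intro V hVc IH hV e
    by_cases hirr : Irr V
    · by_cases hP : ar V ≤ rk V + s
      · by_cases hcond : Fintype.card κ < cd V + e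
        · apply (Set.finite_singleton V).subset
          intro X hX
          refine f1_eq hX hirr le_rfl hcond ?_ (f1_subset hX)
          rw [hV]
          exact hP
        · obtain ⟨l, hl, hl'⟩ := nd_main s h hirr hV
          have hclV' : cl (acl (∅ : Set F)) (V ∩ zl (acl (∅ : Set F)) {l}) =
              V ∩ zl (acl (∅ : Set F)) {l} := by
            apply Set.Subset.antisymm _ (subset_cl _)
            apply Set.subset_inter
            · exact cl_subset_of_closed Set.inter_subset_left hV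
            · exact cl_subset_of_closed Set.inter_subset_right (cl_zl _)
          have hss : V ∩ zl (acl (∅ : Set F)) {l} ⊂ V := by
            refine ⟨Set.inter_subset_left, fun hsub => hl ?_⟩
            have h1 : V ⊆ zl (acl (∅ : Set F)) {l} := hsub.trans Set.inter_subset_right
            rw [subset_zl_iff, Set.singleton_subset_iff] at h1
            exact h1
          apply (IH _ (hVc.inter (zclosed_zl _)) hss hclV' e).subset
          intro X hX
          have hXc := f1_closed0 hX hV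
          have hXP := f1_prop hX
          rw [hXc] at hXP
          have h1 := f1_lt hX
          have h2 : l ∈ vI (acl (∅ : Set F)) X := by
            apply hl' X (f1_irr hX) hXc (f1_subset hX) hXP
            unfold cd at h1 hcond
            omega
          refine f1_of_subset hX (Set.subset_inter (f1_subset hX) ?_) Set.inter_subset_left
          rw [subset_zl_iff, Set.singleton_subset_iff]
          exact h2
      · apply Set.finite_empty.subset
        intro X hX
        exfalso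
        have hXc := f1_closed0 hX hV
        have hXP := f1_prop hX
        rw [hXc] at hXP
        have h1 := f1_ar (f1_irr hX).pirr (f1_subset hX)
        have h2 : ar X ≤ rk X + s := hXP
        omega
    · have hfin : (⋃ Y ∈ {Y | Comp V Y},
          MaxP (acl (∅ : Set F)) (fun Z => ar Z ≤ rk Z + s) e Y).Finite := by
        apply (finite_comp hVc).biUnion
        intro Y hY
        have hY' : Comp V Y := hY
        have h1 : Y ⊂ V := by
          refine LE.le.ssubset_of_ne hY'.subset ?_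
          rintro rfl
          exact hirr hY'.irr
        exact IH Y hY'.irr.closed h1 (Comp.cl hV hY') e
      apply hfin.subset
      intro X hX
      obtain ⟨Y, hY, hXY⟩ := exists_comp hVc (f1_irr hX) (f1_subset hX)
      rw [Set.mem_iUnion₂]
      exact ⟨Y, hY, f1_of_subset hX hXY hY.subset⟩
  exact key V (closed_of_cl hV) hV e

end Pool.Agent.ZPA
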