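import Mathlib
import Pool.Agent.ZPA.Defs

set_option autoImplicit false

namespace Pool.Agent.ZPA

open Pool.Agent.MP_dd1803_nt

variable {F : Type} [Field F] [CharZero F] {κ : Type} [Fintype κ]

/-- The algebraic numbers which are constant values on `X` of monomials in the coordinates
generate a group of rank at most `s`: any `s + 1` such monomials satisfy on `X` a nontrivial
multiplicative relation up to roots of unity. -/
def ARank (s : ℕ) (X : Set (κ → Fˣ)) : Prop :=
  ∀ m : Fin (s + 1) → κ → ℤ,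
    (∀ i, ∃ c : F, IsAlgebraic ℚ c ∧ ∀ x ∈ X, ∏ j, (x j : F) ^ m i j = c) →
    ∃ e : Fin (s + 1) → ℤ, e ≠ 0 ∧ ∃ N : ℕ, 0 < N ∧
      ∀ x ∈ X, (∏ i, (∏ j, (x j : F) ^ m i j) ^ e i) ^ N = 1

/-- The points with algebraic coordinates lying in a special subvariety of dimension at
most `s`. -/
def LowRank (s : ℕ) : Set (κ → Fˣ) :=
  {x | (∀ i, IsAlgebraic ℚ (x i : F)) ∧ ∃ T, Special T ∧ x ∈ T ∧ dm T ≤ (s : WithBot ℕ∞)}

/-- Points of rank at most `s` are not dense in an irreducible closed set of codimension more than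
`s` which is not contained in a proper special subvariety. -/
def ND (F : Type) [Field F] [CharZero F] (s : ℕ) : Prop :=
  ∀ (κ : Type) [Fintype κ] (W : Set (κ → Fˣ)), Irr W →
    (∀ T, Special T → W ⊆ T → T = Set.univ) →
    dm W + (s : WithBot ℕ∞) < dm (Set.univ : Set (κ → Fˣ)) →
    ∃ A, ZClosed A ∧ W ∩ LowRank s ⊆ A ∧ ¬ W ⊆ A

end Pool.Agent.ZPA
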