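import Mathlib
import Pool.Agent.ZPA.G0

set_option autoImplicit false

open MvPolynomial

namespace Pool.Agent.ZPA

open Pool.Agent.MP_dd1803_nt

/-- Membership in the algebraic closure of the prime field (see `isAlgebraic_int_acl` and the
argument in `td_acl_ge`, file `R4.lean`). -/
theorem mem_acl_empty {F : Type} [Field F] [CharZero F] {x : F} :
    x ∈ acl (∅ : Set F) ↔ IsAlgebraic ℚ x := by
  rw [mem_acl, IntermediateField.adjoin_empty]
  constructor
  · intro h
    have : Algebra.IsAlgebraic ℚ (⊥ : IntermediateField ℚ F) :=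
      Algebra.IsAlgebraic.of_finite ℚ _
    exact h.restrictScalars ℚ
  · intro h
    exact h.tower_top _

/-- A closed set `A` not containing `W` can be replaced by a polynomial over `k0`, as far as
points over `k0` are concerned.

Proof. Let `p ∈ vI F A`, `p ∉ vI F W` (if `vI F A ≤ vI F W` then `W ⊆ A` as `A` is closed:
`zclosed_iff`, `subset_zl_iff`). As `W = cl k0 W`, `mem_vI_cl` (file `Ext.lean`) gives
`φ : F →ₗ[k0] k0` with `cmpl φ p ∉ vI k0 W`. If `w ∈ A` has all coordinates in `k0`,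
`aeval (co w) p = 0` and `aeval_cmpl` give `aeval (co w) (cmpl φ p) = algebraMap (aeval y (cmpl φ p)) =
algebraMap (φ (aeval (co w) p)) = 0`, where `y i` is the element of `k0` with image `w i`. -/
theorem poly_of_closed {F : Type} [Field F] [IsAlgClosed F] {k0 : Type} [Field k0] [Algebra k0 F]
    [IsAlgClosed k0] {κ : Type} [Finite κ] {W A : Set (κ → Fˣ)} (hW : Irr W)
    (hWc : cl k0 W = W) (hA : ZClosed A) (hWA : ¬ W ⊆ A) :
    ∃ q : MvPolynomial κ k0, q ∉ vI k0 W ∧
      ∀ w ∈ A, (∀ i, ∃ c : k0, algebraMap k0 F c = (w i : F)) → aeval (co w) q = 0 := by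
  rw [← zclosed_iff.mp hA, subset_zl_iff, Set.not_subset] at hWA
  obtain ⟨p, hp, hpW⟩ := hWA
  rw [SetLike.mem_coe] at hp hpW
  have h1 : ¬ ∀ φ : F →ₗ[k0] k0, cmpl φ p ∈ vI k0 W := by
    intro h2
    rw [← mem_vI_cl hW.pirr, hWc] at h2
    exact hpW h2
  push Not at h1
  obtain ⟨φ, hφ⟩ := h1
  refine ⟨cmpl φ p, hφ, fun w hw hc => ?_⟩
  choose y hy using hc
  have h3 : co w = fun i => algebraMap k0 F (y i) := by
    funext i
    rw [hy i, co_apply]
  have h4 : aeval (fun i => algebraMap k0 F (y i)) (cmpl φ p)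
      = algebraMap k0 F (aeval y (cmpl φ p)) :=
    MvPolynomial.aeval_algebraMap_apply F y (cmpl φ p)
  have h5 : aeval (fun i => algebraMap k0 F (y i)) p = 0 := by
    rw [← h3]
    exact mem_vI.mp hp w hw
  rw [h3, h4, aeval_cmpl, h5, map_zero, map_zero]

/-- Row G1.

Proof. Let `W` be irreducible with `cl k0 W = W`, `k0 = acl ∅`, `rk W = 0`, `td F W + s < card κ`.
For a special `T ⊇ W`, `rk T ≤ rk W = 0` (`rk_anti`) and `Special.cd : cd T = card κ`, so
`td F T = card κ` and `T = univ` (`eq_of_td_le`, `irr_univ`, `td_univ`). With `dm_irr`, `dm_univ`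
the hypotheses of `ND` hold (casts: `exact_mod_cast`). So there is a closed `A` with
`W ∩ LowRank s ⊆ A`, `¬ W ⊆ A`; take `q` from `poly_of_closed`. If `w ∈ W` has all coordinates in
`k0` and `card κ ≤ rk {w} + s`, then by `exists_special (irr_singleton w)` (file `Interface.lean`)
there is a special `T ∋ w` with `td F T + rk {w} ≤ card κ`, so `td F T ≤ s`, `dm T ≤ s` (`dm_irr`),
and `w ∈ LowRank s` (`mem_acl_empty`), so `w ∈ A`. -/
theorem ndk_of_nd {F : Type} [Field F] [IsAlgClosed F] [CharZero F] {s : ℕ} (h : ND F s) :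
    NDk F (acl (∅ : Set F)) s := by
  intro κ _ W hW hWc hrk htd
  have hac := isAlgClosed_acl (∅ : Set F)
  have h1 : ∀ T, Special T → W ⊆ T → T = Set.univ := by
    intro T hT hWT
    have h2 : rk T ≤ rk W := rk_anti hWT
    have h3 := hT.cd
    unfold cd at h3
    apply eq_of_td_le hT.irr irr_univ (Set.subset_univ _)
    rw [td_univ]
    omega
  have h2 : dm W + (s : WithBot ℕ∞) < dm (Set.univ : Set (κ → Fˣ)) := by
    rw [dm_irr hW, dm_univ]
    exact_mod_cast htd
  obtain ⟨A, hA, hWA, hnA⟩ := h κ W hW h1 h2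
  obtain ⟨q, hq, hqA⟩ := poly_of_closed hW hWc hA hnA
  refine ⟨q, hq, fun w hw hc hr => ?_⟩
  apply hqA w (hWA ⟨hw, ?_⟩) hc
  refine ⟨fun i => ?_, ?_⟩
  · obtain ⟨c, hci⟩ := hc i
    rw [← hci, ← mem_acl_empty]
    exact c.2
  · obtain ⟨T, hT, hwT, hdT⟩ := exists_special (irr_singleton w)
    refine ⟨T, hT, hwT rfl, ?_⟩
    rw [dm_irr hT.irr]
    have h3 : td F T ≤ s := by omega
    exact_mod_cast h3

/-- Row G1, the case `s = 0` (Manin-Mumford, `mm_alg` in `TheoremU.lean`).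

Proof. `W` irreducible, `cl k0 W = W`, `rk W = 0`, `td F W < card κ`. `mm_alg W hW 1 le_rfl` says
`(MaxE 1 W).Finite`. Let `A` be the union of the elements of `MaxE 1 W`: closed
(`ZClosed.finset_biUnion`), and `¬ W ⊆ A`: otherwise `W ⊆ X` for some `X ∈ MaxE 1 W`
(`Irr.subset_of_finset`), so `X = W`, but `card κ < cd X + 1` (`MaxE.lt`, `cd W = rk W + td F W`).
Use `poly_of_closed`. If `w ∈ W` and `card κ ≤ rk {w} + 0` then `card κ < cd {w} + 1` and
`exists_maxE` (file `Mono.lean`) gives `X ∈ MaxE 1 W` with `{w} ⊆ X`, so `w ∈ A`. -/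
theorem ndk_zero {F : Type} [Field F] [IsAlgClosed F] [CharZero F] :
    NDk F (acl (∅ : Set F)) 0 := by
  classical
  intro κ _ W hW hWc hrk htd
  have hac := isAlgClosed_acl (∅ : Set F)
  have hfin := mm_alg W hWc 1 le_rfl
  have hcl : ZClosed (⋃ Z ∈ hfin.toFinset, Z) :=
    ZClosed.finset_biUnion hfin.toFinset (X := fun Z => Z)
      (fun Z hZ => (MaxE.irr (hfin.mem_toFinset.mp hZ)).closed)
  have hnA : ¬ W ⊆ ⋃ Z ∈ hfin.toFinset, Z := by
    intro h1
    obtain ⟨Z, hZ, hWZ⟩ := hW.subset_of_finset hfin.toFinset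
      (fun Z hZ => (MaxE.irr (hfin.mem_toFinset.mp hZ)).closed) h1
    have hZ' := hfin.mem_toFinset.mp hZ
    have h2 : Z = W := Set.Subset.antisymm (MaxE.subset hZ') hWZ
    have h3 := MaxE.lt hZ'
    rw [h2] at h3
    unfold cd at h3
    omega
  obtain ⟨q, hq, hqA⟩ := poly_of_closed hW hWc hcl hnA
  refine ⟨q, hq, fun w hw hc hr => ?_⟩
  apply hqA w _ hc
  have h4 : Fintype.card κ < cd ({w} : Set (κ → Fˣ)) + 1 := by
    unfold cd
    omega
  obtain ⟨Y, hY, hwY⟩ := exists_maxE (irr_singleton w) (Set.singleton_subset_iff.mpr hw) h4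
  rw [Set.mem_iUnion₂]
  exact ⟨Y, hfin.mem_toFinset.mpr hY, hwY rfl⟩

end Pool.Agent.ZPA
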