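import Mathlib
import Pool.Agent.ZPA.G0

set_option autoImplicit false

open MvPolynomial

namespace Pool.Agent.ZPA

open Pool.Agent.MP_dd1803_nt

theorem g2_dep {F : Type} [Field F] {κ : Type} [Fintype κ] {x : κ → Fˣ} {s : ℕ}
    (hs : Fintype.card κ ≤ rk ({x} : Set (κ → Fˣ)) + s) (m : Fin (s + 1) → κ → ℤ) :
    ∃ e : Fin (s + 1) → ℤ, e ≠ 0 ∧ ∑ i, e i • m i ∈ Lam ({x} : Set (κ → Fˣ)) := by
  have h1 : Module.finrank ℤ ((κ → ℤ) ⧸ Lam ({x} : Set (κ → Fˣ))) ≤ s := by
    have h2 := Submodule.finrank_quotient_add_finrank (Lam ({x} : Set (κ → Fˣ)))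
    rw [Module.finrank_fintype_fun_eq_card] at h2
    unfold rk at hs
    omega
  have h2 : ¬ LinearIndependent ℤ (fun i => (Lam ({x} : Set (κ → Fˣ))).mkQ (m i)) := by
    intro h3
    have h4 := h3.fintype_card_le_finrank
    rw [Fintype.card_fin] at h4
    omega
  rw [Fintype.not_linearIndependent_iff] at h2
  obtain ⟨e, he, i, hi⟩ := h2
  refine ⟨e, fun h => hi (congrFun h i), ?_⟩
  have h3 : (Lam ({x} : Set (κ → Fˣ))).mkQ (∑ i, e i • m i) = 0 := by
    rw [map_sum, ← he]
    refine Finset.sum_congr rfl fun i _ => ?_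
    rw [map_smul]
  rwa [Submodule.mkQ_apply, Submodule.Quotient.mk_eq_zero] at h3

theorem g2_arank {F : Type} [Field F] [CharZero F] {κ : Type} [Fintype κ] {X : Set (κ → Fˣ)}
    {x : κ → Fˣ} (hx : x ∈ X) {s : ℕ} (hs : Fintype.card κ ≤ rk ({x} : Set (κ → Fˣ)) + s) :
    ARank s X := by
  intro m hm
  obtain ⟨e, he, hL⟩ := g2_dep hs m
  obtain ⟨N, hN, h1⟩ := hL
  refine ⟨e, he, N, hN, ?_⟩
  intro y hy
  have h2 := h1 x rfl
  have h3 : ((ch (∑ i, e i • m i) x : Fˣ) : F) = ∏ i, (∏ j, (x j : F) ^ m i j) ^ e i := by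
    rw [ch_finset_sum, Units.coe_prod]
    refine Finset.prod_congr rfl fun i _ => ?_
    rw [ch_zsmul, Units.val_zpow_eq_zpow_val]
    unfold ch
    rw [Units.coe_prod]
    congr 1
    refine Finset.prod_congr rfl fun j _ => ?_
    rw [Units.val_zpow_eq_zpow_val]
  have h4 : ∏ i, (∏ j, (y j : F) ^ m i j) ^ e i = ∏ i, (∏ j, (x j : F) ^ m i j) ^ e i := by
    refine Finset.prod_congr rfl fun i _ => ?_
    obtain ⟨c, -, hc⟩ := hm i
    rw [hc y hy, hc x hx]
  rw [h4, ← h3, ← Units.val_pow_eq_pow_val, h2, Units.val_one]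

/-- Row G2. The converse.

Proof. Let `s' ≤ s`, `W` irreducible, contained in no special set except `univ`, with
`dm W + s' < dm univ`. Let `d = td F W`, `n = card κ`; `dm W = d` (`dm_irr`), `dm univ = n`
(`dm_univ`), so `d + s' < n`. By `exists_special hW` there is a special `T ⊇ W` with
`td F T + rk W ≤ n`; `T = univ` and `td_univ` give `rk W = 0`, so `cd W = d`.
The set `M = {X | Maximal (Atypical W) X ∧ ARank s X}` is finite by hypothesis; its elements are
irreducible closed, and by `maximal_atypical_iff` (file `Interface.lean`) they lie in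
`MaxE (n - d) W`. Let `A` be their union: closed (`ZClosed.finset_biUnion`), and `¬ W ⊆ A`: else
`W ⊆ X` for one of them (`Irr.subset_of_finset`), so `W = X`, but `n < cd X + (n - d)` by
`MaxE.lt` says `d < cd W = d`.
Let `x ∈ W ∩ LowRank s'`: `x ∈ T`, `T` special, `td F T ≤ s'`. `Special.cd` gives
`rk T = n - td F T`, so `rk {x} ≥ rk T ≥ n - s'` (`rk_anti`), `cd {x} ≥ n - s' > d`. By
`exists_maxE` there is `X ∈ MaxE (n - d) W` with `x ∈ X`, so `Maximal (Atypical W) X`. It remains
to see `ARank s X`: let `m i`, `i : Fin (s + 1)`, be characters constant on `X` (values `c i`). The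
quotient of `κ → ℤ` by `Lam {x}` has rank `≤ s' ≤ s` and is torsion free (`Lam_sat`), so there is
`e ≠ 0` with `∑ i, e i • m i ∈ Lam {x}` (`s + 1` vectors in a `ℤ`-module of rank at most `s` are
linearly dependent: for instance `LinearIndependent.fintype_card_le_finrank` for the family of
images in the quotient, contrapositive with `Fintype.linearIndependent_iff`). So
`(∏ i, c i ^ e i) ^ N = 1` for some `N > 0`, and this is the value of the monomial at every point of
`X`. -/
theorem converse {F : Type} [Field F] [IsAlgClosed F] [CharZero F] (s : ℕ)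
    (h : ∀ (κ : Type) [Fintype κ] (V : Set (κ → Fˣ)), ZClosed V →
      {X | Maximal (Atypical V) X ∧ ARank s X}.Finite) {s' : ℕ} (hs : s' ≤ s) : ND F s' := by
  classical
  intro κ _ W hW hWT hdm
  have hn : td F W + s' < Fintype.card κ := by
    rw [dm_irr hW, dm_univ] at hdm
    exact_mod_cast hdm
  obtain ⟨T, hT, hWT', hTle⟩ := exists_special hW
  have hTu := hWT T hT hWT'
  have hrk : rk W = 0 := by
    rw [hTu, td_univ] at hTle
    omega
  have hM := h κ W hW.closed
  have hMax : ∀ X, Maximal (Atypical W) X ↔ X ∈ MaxE (Fintype.card κ - td F W) W := fun X =>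
    maximal_atypical_iff hW.closed (dm_irr hW) (by omega) X
  have hmem : ∀ Z ∈ hM.toFinset, Z ∈ MaxE (Fintype.card κ - td F W) W := by
    intro Z hZ
    rw [Set.Finite.mem_toFinset] at hZ
    exact (hMax Z).1 hZ.1
  refine ⟨⋃ Z ∈ hM.toFinset, Z, ?_, ?_, ?_⟩
  · exact ZClosed.finset_biUnion hM.toFinset (X := fun Z => Z) fun Z hZ => (MaxE.irr (hmem Z hZ)).closed
  · rintro x ⟨hxW, halg, T', hT', hxT', hdT'⟩
    have htd : td F T' ≤ s' := by
      rw [dm_irr hT'.irr] at hdT'
      exact_mod_cast hdT'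
    have h1 := hT'.cd
    have h2 : rk T' ≤ rk ({x} : Set (κ → Fˣ)) := rk_anti (Set.singleton_subset_iff.2 hxT')
    have h3 : Fintype.card κ ≤ rk ({x} : Set (κ → Fˣ)) + s' := by
      unfold cd at h1
      omega
    obtain ⟨X, hX, hxX⟩ := exists_maxE (e := Fintype.card κ - td F W) (irr_singleton x)
      (Set.singleton_subset_iff.2 hxW) (by unfold cd; omega)
    have hxX' : x ∈ X := hxX rfl
    rw [Set.mem_iUnion₂]
    refine ⟨X, ?_, hxX'⟩
    rw [Set.Finite.mem_toFinset]
    exact ⟨(hMax X).2 hX, g2_arank hxX' (by omega)⟩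
  · intro hcon
    obtain ⟨Z, hZ, hWZ⟩ := hW.subset_of_finset hM.toFinset (fun Z hZ => (MaxE.irr (hmem Z hZ)).closed) hcon
    have hZ' := hmem Z hZ
    have h1 : Z = W := Set.Subset.antisymm (MaxE.subset hZ') hWZ
    have h2 := MaxE.lt hZ'
    rw [h1] at h2
    unfold cd at h2
    omega

end Pool.Agent.ZPA
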