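import Mathlib
import Pool.Agent.ZPA.G0
import Pool.Agent.ZPA.G1

set_option autoImplicit false

open MvPolynomial

namespace Pool.Agent.ZPA

open Pool.Agent.MP_dd1803_nt

/-- The lattice of an irreducible set is contained in the lattice of characters with constant
algebraic value: `Lam_const` (file `Lattice.lean`); roots of unity are algebraic. -/
theorem Lam_le_Alat {F : Type} [Field F] [CharZero F] {κ : Type} [Fintype κ]
    {X : Set (κ → Fˣ)} (hX : PIrr X) : Lam X ≤ Alat X := by
  intro m hm
  obtain ⟨c, ⟨N, hN, hc⟩, h⟩ := Lam_const hX hm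
  refine ⟨c, ?_, h⟩
  rw [mem_acl]
  refine IsAlgebraic.of_pow hN ?_
  have h1 : (c : F) ^ N = 1 := by
    rw [← Units.val_pow_eq_pow_val, hc, Units.val_one]
  rw [h1]
  exact isAlgebraic_one

/-- the binomial of a character with a constant -/
noncomputable def g3_bn {F k : Type} [Field F] [Field k] {κ : Type} [Fintype κ] (m : κ → ℤ) (c : k) :
    MvPolynomial κ k :=
  ∏ i, X i ^ (m i).toNat - C c * ∏ i, X i ^ (-m i).toNat

theorem g3_aeval {F k : Type} [Field F] [Field k] [Algebra k F] {κ : Type} [Fintype κ] (m : κ → ℤ)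
    (c : k) (u : Fˣ) (hu : algebraMap k F c = (u : F)) (x : κ → Fˣ) :
    aeval (co x) (g3_bn (F := F) m c) = 0 ↔ ch m x = u := by
  unfold g3_bn ch
  rw [map_sub, map_mul, map_prod, map_prod, sub_eq_zero]
  simp only [map_pow, aeval_X, aeval_C]
  rw [hu]
  have h1 : ∀ i, x i ^ m i = x i ^ (m i).toNat * (x i ^ (-m i).toNat)⁻¹ := by
    intro i
    rw [← zpow_natCast, ← zpow_natCast, ← zpow_neg, ← zpow_add]
    congr 1
    rw [Int.toNat_eq_max, Int.toNat_eq_max]
    omega
  have h2 : ∏ i, x i ^ m i = (∏ i, x i ^ (m i).toNat) * (∏ i, x i ^ (-m i).toNat)⁻¹ := by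
    rw [← Finset.prod_inv_distrib, ← Finset.prod_mul_distrib]
    exact Finset.prod_congr rfl fun i _ => h1 i
  rw [h2, mul_inv_eq_iff_eq_mul]
  constructor
  · intro h
    apply Units.ext
    push_cast
    exact h
  · intro h
    have := congrArg (Units.val) h
    push_cast at this
    exact this

theorem g3_ch_sum {F : Type} [Field F] {κ : Type} [Fintype κ] {ι : Type} (S : Finset ι)
    (e : ι → ℤ) (m : ι → κ → ℤ) (x : κ → Fˣ) :
    ch (∑ i ∈ S, e i • m i) x = ∏ i ∈ S, ch (m i) x ^ e i := by
  classical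
  induction S using Finset.induction_on with
  | empty => rw [Finset.sum_empty, Finset.prod_empty, ch_zero]
  | insert a S ha ih => rw [Finset.sum_insert ha, Finset.prod_insert ha, ch_add, ch_zsmul, ih]

theorem g3_val {F : Type} [Field F] {κ : Type} [Fintype κ] (m : κ → ℤ) (x : κ → Fˣ) :
    ((ch m x : Fˣ) : F) = ∏ j, (x j : F) ^ m j := by
  unfold ch
  rw [Units.coe_prod]
  exact Finset.prod_congr rfl (fun i _ => Units.val_zpow_eq_zpow_val _ _)

/-- The lattice `Alat` does not change under closure over the algebraic numbers.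

Proof. `≤` for subsets is clear from `subset_cl`. If `ch m x = c` on `X` with `c ∈ acl ∅`, then the
polynomial `∏ X i ^ (m i).toNat - C c * ∏ X i ^ (-m i).toNat` over `acl ∅` vanishes on `X`, hence
on the closure, and this is equivalent to `ch m x = c` there (as in `aeval_bn`). -/
theorem Alat_cl {F : Type} [Field F] [CharZero F] {κ : Type} [Fintype κ] (X : Set (κ → Fˣ)) :
    Alat (cl (acl (∅ : Set F)) X) = Alat X := by
  apply le_antisymm
  · rintro m ⟨c, hc, hm⟩
    exact ⟨c, hc, fun x hx => hm x (subset_cl X hx)⟩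
  · rintro m ⟨c, hc, hm⟩
    refine ⟨c, hc, fun x hx => ?_⟩
    rw [← g3_aeval (k := acl (∅ : Set F)) m ⟨(c : F), hc⟩ c rfl x]
    apply hx
    rw [SetLike.mem_coe, mem_vI]
    intro y hy
    rw [g3_aeval (k := acl (∅ : Set F)) m ⟨(c : F), hc⟩ c rfl y]
    exact hm y hy

/-- Row G3.

Proof. `m i ∈ Alat X` is the condition in `ARank` (`mem_acl_empty`; `ch (m i) x = ∏ j, x j ^ m i j`,
the constant value is nonzero as `X` is nonempty). Suppose `rk X + s < ar X`. The quotient
`Alat X ⧸ (Lam X)` (`Lam X` as a submodule of `Alat X`, `Submodule.comap (Alat X).subtype`) has rank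
`> s` so it contains `s + 1` elements independent over `ℤ`
(`exists_linearIndependent_of_le_finrank` or similar); lift them to `m i ∈ Alat X`. A relation as
in `ARank` with `e ≠ 0` says `N • ∑ i, e i • m i ∈ Lam X` up to sign, indeed
`∑ i, e i • m i ∈ Lam X` by definition of `Lam`: contradiction with independence. -/
theorem ar_le_of_arank {F : Type} [Field F] [CharZero F] {κ : Type} [Fintype κ] {s : ℕ}
    {X : Set (κ → Fˣ)} (hX : PIrr X) (h : ARank s X) : ar X ≤ rk X + s := by
  by_contra hcon
  push Not at hcon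
  have hle := Lam_le_Alat hX
  have h1 := Submodule.finrank_quotient_add_finrank ((Lam X).comap (Alat X).subtype)
  have e : (Lam X).comap (Alat X).subtype ≃ₗ[ℤ] Lam X := Submodule.comapSubtypeEquivOfLe hle
  rw [e.finrank_eq] at h1
  unfold ar rk at hcon
  obtain ⟨f, hf⟩ := exists_linearIndependent_of_le_finrank
    (R := ℤ) (M := Alat X ⧸ (Lam X).comap (Alat X).subtype) (n := s + 1) (by omega)
  have hl : ∀ i, ∃ m : Alat X, Submodule.Quotient.mk m = f i := fun i =>
    Submodule.Quotient.mk_surjective _ (f i)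
  choose m hm using hl
  obtain ⟨d, hd, N, hN, hrel⟩ := h (fun i => (m i : κ → ℤ)) (by
    intro i
    obtain ⟨c, hc, hc'⟩ := mem_Alat.1 (m i).2
    refine ⟨c, mem_acl_empty.1 hc, fun x hx => ?_⟩
    rw [← g3_val, hc' x hx])
  apply hd
  have h2 : ∑ i, d i • (m i : κ → ℤ) ∈ Lam X := by
    refine ⟨N, hN, fun x hx => ?_⟩
    rw [g3_ch_sum]
    apply Units.ext
    rw [Units.val_pow_eq_pow_val, Units.coe_prod, Units.val_one, ← hrel x hx]
    congr 1
    refine Finset.prod_congr rfl (fun i _ => ?_)
    rw [Units.val_zpow_eq_zpow_val, g3_val]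
  have h3 : ∑ i, d i • f i = 0 := by
    have h4 : ∑ i, d i • f i = (Submodule.Quotient.mk (∑ i, d i • m i) :
        Alat X ⧸ (Lam X).comap (Alat X).subtype) := by
      rw [← Submodule.mkQ_apply, map_sum]
      refine Finset.sum_congr rfl (fun i _ => ?_)
      rw [map_smul, Submodule.mkQ_apply, hm]
    rw [h4, Submodule.Quotient.mk_eq_zero, Submodule.mem_comap, map_sum]
    exact h2
  funext i
  exact Fintype.linearIndependent_iff.1 hf d h3 i

end Pool.Agent.ZPA
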