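import Mathlib
import Pool.Agent.ZPA.F1
import Pool.Agent.ZPA.G1
import Pool.Agent.ZPA.G2
import Pool.Agent.ZPA.G3

set_option autoImplicit false

open MvPolynomial

namespace Pool.Agent.ZPA

open Pool.Agent.MP_dd1803_nt

theorem finite_arank {F : Type} [Field F] [IsAlgClosed F] [CharZero F] {κ : Type} [Fintype κ]
    (s : ℕ) (h : ∀ s' ≤ s, NDk F (acl (∅ : Set F)) s') {V : Set (κ → Fˣ)} (hV : ZClosed V) :
    {X | Maximal (Atypical V) X ∧ ARank s X}.Finite := by
  by_cases hne : V.Nonempty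
  · obtain ⟨d, hd, hdle, _, _⟩ := exists_dm hne
    apply (maxP_all (fun Z => ar Z ≤ rk Z + s) (fun V hV e => maxP_base s h V hV e) hV
      (Fintype.card κ - d)).subset
    rintro X ⟨hX, har⟩
    rw [maximal_atypical_iff hV hd hdle X] at hX
    have hX' := hX
    rw [mem_maxE] at hX'
    have hirr := MaxE.irr hX
    unfold MaxP
    rw [Set.mem_ofPred_eq]
    refine ⟨⟨hirr, MaxE.subset hX, MaxE.lt hX, ?_⟩, ?_⟩
    · have h1 := ar_le_of_arank hirr.pirr har
      show ar (cl (acl (∅ : Set F)) X) ≤ rk (cl (acl (∅ : Set F)) X) + s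
      unfold ar at *
      rw [Alat_cl, rk_cl]
      exact h1
    · rintro Y ⟨hY, hYV, hlt, _⟩ hXY
      exact (MaxE.eq hX hY hYV hlt hXY).ge
  · convert Set.finite_empty
    ext X
    simp only [Set.mem_ofPred_eq, Set.mem_empty_iff_false, iff_false]
    rintro ⟨hX, _⟩
    obtain ⟨T, _, hX', _⟩ := hX.prop
    obtain ⟨x, hx⟩ := hX'.irr.nonempty
    exact hne ⟨x, (hX'.subset hx).1⟩

theorem main_iff {F : Type} [Field F] [IsAlgClosed F] [CharZero F] (s : ℕ) :
    (∀ s', 1 ≤ s' → s' ≤ s → ND F s') ↔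
    ∀ (κ : Type) [Fintype κ] (V : Set (κ → Fˣ)), ZClosed V →
      {X | Maximal (Atypical V) X ∧ ARank s X}.Finite := by
  constructor
  · intro h κ _ V hV
    apply finite_arank s _ hV
    intro s' hs'
    rcases Nat.eq_zero_or_pos s' with rfl | hpos
    · exact ndk_zero
    · exact ndk_of_nd (h s' hpos hs')
  · intro h s' _ hs'
    exact converse s h hs'

end Pool.Agent.ZPA
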